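import Pool.Agent.Q170.HG.Coord

set_option autoImplicit false

/-!
# The height of the points of a curve in the preimage of a hypersurface
-/

namespace Pool.Agent.Q170.HG

open Height NumberField

section aff

variable {K : Type} [Field K] [NumberField K] {n d : ℕ}

lemma one_le_prodR {ι : Type} (s : Finset ι) {f : ι → ℝ} (h : ∀ i, 1 ≤ f i) : 1 ≤ ∏ i ∈ s, f i := by
  calc (1 : ℝ) = ∏ _i ∈ s, (1 : ℝ) := by simp
    _ ≤ _ := Finset.prod_le_prod (fun _ _ => zero_le_one) fun i _ => h i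

lemma mulHeight_le_prod (x : Fin n → K) : mulHeight x ≤ ∏ i, mulHeight₁ (x i) := by
  classical
  have hy0 : ∀ a : Fin n, (![x a, 1] : Fin 2 → K) ≠ 0 := by
    intro a h
    simpa using congrFun h 1
  have h1 := mulHeight_fun_prod_eq hy0
  have h2 : (fun I : Fin n → Fin 2 => ∏ a, (![x a, 1] : Fin 2 → K) (I a)) ∘
      (fun i => fun a => if a = i then 0 else 1) = x := by
    funext i
    simp only [Function.comp]
    rw [Finset.prod_eq_single i]
    · simp
    · intro b _ hb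
      simp [hb]
    · simp
  calc mulHeight x = mulHeight ((fun I : Fin n → Fin 2 => ∏ a, (![x a, 1] : Fin 2 → K) (I a)) ∘
      (fun i => fun a => if a = i then 0 else 1)) := by rw [h2]
    _ ≤ _ := mulHeight_comp_le _ _
    _ = _ := by
      rw [h1]
      exact Finset.prod_congr rfl fun i _ => (mulHeight₁_eq_mulHeight _).symm

/-- One coordinate, one form, all cases. -/
lemma coord_all {A : Type} [CommRing A] [IsDomain A] [Algebra (𝓞 K) A] (hd : 2 ≤ d)
    {F : Fin n → MvPolynomial (Fin n) (𝓞 K)} (hF : ∀ i, (F i).IsHomogeneous d)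
    (u : Fin n → A) (Z : Set (Fin n → K)) (θ : Z → (A →ₐ[𝓞 K] K))
    (hθ : ∀ x i, θ x (u i) = x.1 i) (hinj : ∀ a, (∀ x, θ x a = 0) → a = 0)
    (hQ : ∀ i j, ∃ Q : Polynomial (Polynomial K), Q ≠ 0 ∧ ∀ x ∈ Z, Q.evalEval (x j) (x i) = 0)
    (j : Fin n) :
    ∃ g : A, g ≠ 0 ∧ ∀ (e : ℕ) (G : MvPolynomial (Fin n) (𝓞 K)), G.IsHomogeneous e →
      ∃ C : ℝ, 1 ≤ C ∧ ∀ k, MvPolynomial.aeval (itw F u k) G ≠ 0 →
        ∀ x : Z, θ x g ≠ 0 → MvPolynomial.aeval (itw F x.1 k) G = 0 →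
          mulHeight₁ (x.1 j) ≤ C ^ d ^ k := by
  classical
  by_cases hy : Function.Injective
      (Polynomial.aeval (u j) : Polynomial (𝓞 K) →ₐ[𝓞 K] A)
  · have hu : ∀ i, ∃ q : Polynomial (Polynomial (𝓞 K)), q ≠ 0 ∧
        q.eval₂ ((Polynomial.aeval (u j) : Polynomial (𝓞 K) →ₐ[𝓞 K] A) :
          Polynomial (𝓞 K) →+* A) (u i) = 0 := by
      intro i
      obtain ⟨Q, hQ0, hQ1⟩ := hQ i j
      obtain ⟨b, hb, q, hq⟩ := ls_poly (ls_map (ls_frac (R := 𝓞 K) (K := K))) Q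
      have hinjm : Function.Injective (Polynomial.mapRingHom (algebraMap (𝓞 K) K)) :=
        Polynomial.map_injective _ (FaithfulSMul.algebraMap_injective (𝓞 K) K)
      refine ⟨q, ?_, ?_⟩
      · rintro rfl
        rw [Polynomial.map_zero] at hq
        rcases mul_eq_zero.1 hq.symm with h | h
        · rw [Polynomial.C_eq_zero] at h
          exact hb (hinjm (by rw [h, map_zero]))
        · exact hQ0 h
      · apply hinj
        intro x
        have h1 : θ x (q.eval₂ ((Polynomial.aeval (u j) : Polynomial (𝓞 K) →ₐ[𝓞 K] A) :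
            Polynomial (𝓞 K) →+* A) (u i)) = (q.map (Polynomial.mapRingHom
              (algebraMap (𝓞 K) K))).evalEval (x.1 j) (x.1 i) := by
          have h2 := Polynomial.hom_eval₂ q
            ((Polynomial.aeval (u j) : Polynomial (𝓞 K) →ₐ[𝓞 K] A) : Polynomial (𝓞 K) →+* A)
            (θ x : A →+* K) (u i)
          have h3 : ((θ x : A →+* K).comp
              ((Polynomial.aeval (u j) : Polynomial (𝓞 K) →ₐ[𝓞 K] A) : Polynomial (𝓞 K) →+* A))
              = (Polynomial.evalRingHom (x.1 j)).comp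
                (Polynomial.mapRingHom (algebraMap (𝓞 K) K)) := by
            refine Polynomial.ringHom_ext (fun a => ?_) ?_
            · simp
            · simp [hθ]
          rw [h3] at h2
          refine h2.trans ?_
          rw [← Polynomial.eval₂_map, ← Polynomial.eval₂_evalRingHom]
          congr 1
          exact hθ x i
        rw [h1, hq, Polynomial.evalEval_mul, hQ1 x.1 x.2, mul_zero]
    obtain ⟨g, hg, h⟩ := coord_one hd hF u (u j) hy hu
    refine ⟨g, hg, fun e G hG => ?_⟩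
    obtain ⟨C, hC, hC'⟩ := h e G hG
    refine ⟨C, hC, fun k hk x hx h0 => ?_⟩
    have h1 := hC' k hk (θ x) hx (by
      have h2 : (fun i => θ x (u i)) = x.1 := funext (hθ x)
      rw [h2]
      exact h0)
    rwa [hθ] at h1
  · refine ⟨1, one_ne_zero, fun e G hG => ?_⟩
    have h1 : ∃ p : Polynomial (𝓞 K), p ≠ 0 ∧ Polynomial.aeval (u j) p = 0 := by
      rw [injective_iff_map_eq_zero] at hy
      push Not at hy
      obtain ⟨p, hp, hp'⟩ := hy
      exact ⟨p, hp', hp⟩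
    obtain ⟨p, hp, hp'⟩ := h1
    refine ⟨max 1 (l1 (hs (K := K)) p ^ Module.finrank ℚ K), le_max_left _ _,
      fun k _ x _ _ => ?_⟩
    have h2 : Polynomial.aeval (x.1 j) p = 0 := by
      rw [← hθ x j, Polynomial.aeval_algHom_apply (θ x), hp', map_zero]
    refine (root_bound hp h2).2.trans ((le_max_right 1 _).trans ?_)
    exact le_self_pow₀ (le_max_left _ _) (pow_pos (by omega : 0 < d) k).ne'

lemma aeval_itw_map {A B : Type} [CommRing A] [Algebra (𝓞 K) A] [CommRing B] [Algebra (𝓞 K) B]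
    (φ : A →ₐ[𝓞 K] B) (F : Fin n → MvPolynomial (Fin n) (𝓞 K)) (w : Fin n → A) (k : ℕ)
    (G : MvPolynomial (Fin n) (𝓞 K)) : φ (MvPolynomial.aeval (itw F w k) G) =
      MvPolynomial.aeval (itw F (fun j => φ (w j)) k) G := by
  rw [MvPolynomial.comp_aeval_apply]
  congr 2
  funext j
  exact itw_map φ F w k j

/-- All coordinates and several forms. -/
lemma aff_abs {A : Type} [CommRing A] [IsDomain A] [Algebra (𝓞 K) A] (hd : 2 ≤ d)
    {F : Fin n → MvPolynomial (Fin n) (𝓞 K)} (hF : ∀ i, (F i).IsHomogeneous d)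
    (u : Fin n → A) (Z : Set (Fin n → K)) (θ : Z → (A →ₐ[𝓞 K] K))
    (hθ : ∀ x i, θ x (u i) = x.1 i) (hinj : ∀ a, (∀ x, θ x a = 0) → a = 0)
    (hQ : ∀ i j, ∃ Q : Polynomial (Polynomial K), Q ≠ 0 ∧ ∀ x ∈ Z, Q.evalEval (x j) (x i) = 0)
    (T : Finset (MvPolynomial (Fin n) (𝓞 K))) (hT : ∀ G ∈ T, ∃ e, G.IsHomogeneous e) :
    ∃ g : A, g ≠ 0 ∧ ∃ C : ℝ, 1 ≤ C ∧ ∀ G ∈ T, ∀ k, (∃ y ∈ Z, MvPolynomial.aeval (itw F y k) G ≠ 0) →
        ∀ x : Z, θ x g ≠ 0 → MvPolynomial.aeval (itw F x.1 k) G = 0 →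
          mulHeight x.1 ≤ C ^ d ^ k := by
  classical
  choose g hg h using coord_all hd hF u Z θ hθ hinj hQ
  choose e he using hT
  have h' : ∀ (j : Fin n) (G : T), ∃ C : ℝ, 1 ≤ C ∧ ∀ k, MvPolynomial.aeval (itw F u k) G.1 ≠ 0 →
        ∀ x : Z, θ x (g j) ≠ 0 → MvPolynomial.aeval (itw F x.1 k) G.1 = 0 →
          mulHeight₁ (x.1 j) ≤ C ^ d ^ k := fun j G => h j (e G.1 G.2) G.1 (he G.1 G.2)
  choose C hC hC' using h'
  refine ⟨∏ j, g j, Finset.prod_ne_zero_iff.2 fun j _ => hg j, ∏ j, ∏ G, C j G, ?_, ?_⟩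
  · exact one_le_prodR _ fun j => one_le_prodR _ fun G => hC j G
  · intro G hG k hy x hx h0
    have h1 : MvPolynomial.aeval (itw F u k) G ≠ 0 := by
      obtain ⟨y, hy, hy'⟩ := hy
      intro h2
      apply hy'
      have h3 := aeval_itw_map (θ ⟨y, hy⟩) F u k G
      rw [h2, map_zero] at h3
      have h4 : (fun i => θ ⟨y, hy⟩ (u i)) = y := funext (hθ ⟨y, hy⟩)
      rw [h4] at h3
      exact h3.symm
    rw [map_prod, Finset.prod_ne_zero_iff] at hx
    refine (mulHeight_le_prod x.1).trans ?_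
    rw [← Finset.prod_pow]
    refine Finset.prod_le_prod (fun j _ => (mulHeight₁_pos _).le) fun j _ => ?_
    refine (hC' j ⟨G, hG⟩ k h1 x (hx j (Finset.mem_univ j)) h0).trans ?_
    refine pow_le_pow_left₀ (by linarith [hC j ⟨G, hG⟩]) ?_ _
    rw [← Finset.mul_prod_erase Finset.univ (C j) (Finset.mem_univ (⟨G, hG⟩ : T))]
    exact le_mul_of_one_le_right (by linarith [hC j ⟨G, hG⟩])
      (one_le_prodR _ fun G => hC j G)

/-- The affine step. -/
theorem affine (hd : 2 ≤ d)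
    {F : Fin n → MvPolynomial (Fin n) (𝓞 K)} (hF : ∀ i, (F i).IsHomogeneous d)
    {Z : Set (Fin n → K)} (hne : Z.Nonempty)
    (hp : ∀ f g : MvPolynomial (Fin n) K, (∀ x ∈ Z, MvPolynomial.eval x (f * g) = 0) →
      (∀ x ∈ Z, MvPolynomial.eval x f = 0) ∨ ∀ x ∈ Z, MvPolynomial.eval x g = 0)
    (hQ : ∀ i j, ∃ Q : Polynomial (Polynomial K), Q ≠ 0 ∧ ∀ x ∈ Z, Q.evalEval (x j) (x i) = 0)
    (T : Finset (MvPolynomial (Fin n) (𝓞 K))) (hT : ∀ G ∈ T, ∃ e, G.IsHomogeneous e) :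
    ∃ g : MvPolynomial (Fin n) K, (∃ x ∈ Z, MvPolynomial.eval x g ≠ 0) ∧ ∃ C : ℝ, 1 ≤ C ∧
      ∀ G ∈ T, ∀ k, (∃ y ∈ Z, MvPolynomial.aeval (itw F y k) G ≠ 0) →
        ∀ x ∈ Z, MvPolynomial.eval x g ≠ 0 → MvPolynomial.aeval (itw F x k) G = 0 →
          mulHeight x ≤ C ^ d ^ k := by
  classical
  set I : Ideal (MvPolynomial (Fin n) K) := MvPolynomial.vanishingIdeal K Z with hI
  have hmem : ∀ f : MvPolynomial (Fin n) K, f ∈ I ↔ ∀ x ∈ Z, MvPolynomial.eval x f = 0 := by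
    intro f
    rw [hI, MvPolynomial.mem_vanishingIdeal_iff]
    rfl
  have hprime : I.IsPrime := by
    refine ⟨fun h => ?_, fun {f g} h => ?_⟩
    · obtain ⟨x, hx⟩ := hne
      have h1 := (hmem 1).1 (by rw [h]; trivial) x hx
      rw [map_one] at h1
      exact one_ne_zero h1
    · rw [hmem, hmem]
      exact hp f g ((hmem _).1 h)
  let θ : Z → (MvPolynomial (Fin n) K ⧸ I →ₐ[𝓞 K] K) := fun x =>
    (Ideal.Quotient.liftₐ I (MvPolynomial.aeval x.1) (fun f hf => (hmem f).1 hf x.1 x.2)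
      : MvPolynomial (Fin n) K ⧸ I →ₐ[K] K).restrictScalars (𝓞 K)
  have hθ1 : ∀ (x : Z) (f : MvPolynomial (Fin n) K),
      θ x (Ideal.Quotient.mk I f) = MvPolynomial.eval x.1 f := fun x f => rfl
  obtain ⟨g, hg, C, hC, h⟩ := aff_abs (A := MvPolynomial (Fin n) K ⧸ I) hd hF
    (fun i => Ideal.Quotient.mk I (MvPolynomial.X i)) Z θ
    (fun x i => by rw [hθ1, MvPolynomial.eval_X])
    (fun a ha => by
      obtain ⟨f, rfl⟩ := Ideal.Quotient.mk_surjective a
      rw [Ideal.Quotient.eq_zero_iff_mem, hmem]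
      intro x hx
      exact (hθ1 ⟨x, hx⟩ f).symm.trans (ha ⟨x, hx⟩)) hQ T hT
  obtain ⟨g, rfl⟩ := Ideal.Quotient.mk_surjective g
  refine ⟨g, ?_, C, hC, fun G hG k hy x hx hgx h0 => ?_⟩
  · by_contra hcon
    push Not at hcon
    exact hg (Ideal.Quotient.eq_zero_iff_mem.2 ((hmem g).2 hcon))
  · exact h G hG k hy ⟨x, hx⟩ (by rw [hθ1]; exact hgx) h0

end aff

end Pool.Agent.Q170.HG
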