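import Pool.Agent.Q170.HG.MainQ

set_option autoImplicit false

/-!
# Closed subsets of dimension at most one of a quasi-projective variety
-/

namespace Pool.Agent.Q170.HG

open MvPolynomial Height NumberField

section closure

variable {K : Type} [Field K] {n : ℕ}

/-- The forms which vanish on `W`. -/
def fv (W : Set (Fin n → K)) : Set (MvPolynomial (Fin n) K) :=
  {f | (∃ e, f.IsHomogeneous e) ∧ ∀ x ∈ W, eval x f = 0}

lemma cone_fv (W : Set (Fin n → K)) : IsCone (zs (fv W)) := ⟨fv W, fun _ hf => hf.1, rfl⟩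

/-- The polynomial `Q` in two coordinates. -/
lemma exists_biv (Q : Polynomial (Polynomial K)) (i j : Fin n) :
    ∃ q : MvPolynomial (Fin n) K, ∀ x : Fin n → K, eval x q = Q.evalEval (x j) (x i) := by
  refine ⟨(Q.map (Polynomial.mapRingHom C)).evalEval (X j) (X i), fun x => ?_⟩
  induction Q using Polynomial.induction_on' with
  | add p q hp hq =>
    rw [Polynomial.map_add, Polynomial.evalEval_add, Polynomial.evalEval_add, map_add, hp, hq]
  | monomial k a =>
    induction a using Polynomial.induction_on' with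
    | add p q hp hq =>
      have h1 : Polynomial.monomial k (p + q) =
          Polynomial.monomial k p + Polynomial.monomial k q := map_add _ _ _
      rw [h1, Polynomial.map_add, Polynomial.evalEval_add,
        Polynomial.evalEval_add, map_add, hp, hq]
    | monomial m c =>
      simp [Polynomial.evalEval, Polynomial.eval_monomial]

/-- The dimension of the closure. -/
lemma dm_fv {W : Set (Fin n → K)}
    (h : ∀ i j l, ∃ Q : Polynomial (Polynomial K), Q ≠ 0 ∧
      ∀ x ∈ W, x l ≠ 0 → Q.evalEval (x j / x l) (x i / x l) = 0) : Dm (zs (fv W)) := by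
  intro i j l
  obtain ⟨Q, hQ, hQ'⟩ := h i j l
  refine ⟨Q, hQ, fun z hz hzl => ?_⟩
  obtain ⟨q, hq⟩ := exists_biv Q i j
  obtain ⟨e, g, hg, hgq⟩ := homog l q
  have hval : ∀ x : Fin n → K, x l ≠ 0 →
      eval x g = x l ^ e * Q.evalEval (x j / x l) (x i / x l) := by
    intro x hx
    have h1 : x = x l • ((x l)⁻¹ • x) := by
      rw [smul_inv_smul₀ hx]
    have h2 : ((x l)⁻¹ • x) l = 1 := by
      rw [Pi.smul_apply, smul_eq_mul, inv_mul_cancel₀ hx]
    conv_lhs => rw [h1]
    rw [eval_smul_hom hg, hgq _ h2, hq]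
    congr 2
    · rw [Pi.smul_apply, smul_eq_mul, inv_mul_eq_div]
    · rw [Pi.smul_apply, smul_eq_mul, inv_mul_eq_div]
  have h3 : g * X l ∈ fv W := by
    refine ⟨⟨e + 1, hg.mul (isHomogeneous_X K l)⟩, fun x hx => ?_⟩
    rw [map_mul, eval_X]
    by_cases hxl : x l = 0
    · rw [hxl, mul_zero]
    · rw [hval x hxl, hQ' x hx hxl, mul_zero, zero_mul]
  have h4 := hz _ h3
  rw [map_mul, eval_X, hval z hzl] at h4
  rcases mul_eq_zero.1 h4 with h5 | h5
  · rcases mul_eq_zero.1 h5 with h6 | h6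
    · exact absurd h6 (pow_ne_zero _ hzl)
    · exact h6
  · exact absurd h5 hzl

end closure

section final

variable {K : Type} [Field K] [NumberField K] {n : ℕ}

/-- The final form for quasi-projective varieties. -/
theorem quasi {X : Set (Projectivization K (Fin n → K))}
    {Φ : Projectivization K (Fin n → K) → Projectivization K (Fin n → K)}
    (hmaps : ∀ x ∈ X, Φ x ∈ X) (hch : ∀ x ∈ X, ∃ F g, eval x.rep g ≠ 0 ∧ IsCh X Φ F g) :
    ∃ D : ℕ, 2 ≤ D ∧ ∀ S : Set (MvPolynomial (Fin n) K), (∀ f ∈ S, ∃ e, f.IsHomogeneous e) →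
      (∀ i j l, ∃ Q : Polynomial (Polynomial K), Q ≠ 0 ∧
        ∀ x ∈ X, (∀ f ∈ S, eval x.rep f = 0) → x.rep l ≠ 0 →
          Q.evalEval (x.rep j / x.rep l) (x.rep i / x.rep l) = 0) →
      ∃ C : ℕ, ∀ α ∈ X, GoodH (fun k => Projectivization.logHeight (Φ^[k] α)) D C
        {k | ∀ f ∈ S, eval (Φ^[k] α).rep f = 0} := by
  classical
  obtain ⟨T, D, F, hD, hF⟩ := exists_chs hmaps hch
  refine ⟨D, hD, fun S hS hdim => ?_⟩
  set W : Set (Fin n → K) := {v | ∃ x ∈ X, (∀ f ∈ S, eval x.rep f = 0) ∧ v = x.rep} with hW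
  obtain ⟨C, hC⟩ := cone_mainH hF hD (zs (fv W)) (cone_fv W) (dm_fv fun i j l => by
    obtain ⟨Q, hQ, hQ'⟩ := hdim i j l
    refine ⟨Q, hQ, ?_⟩
    rintro x ⟨y, hy, hy', rfl⟩ hl
    exact hQ' y hy hy' hl)
  refine ⟨C, fun α hα => ?_⟩
  have h1 := hC α hα
  have h2 : (fun k => logHeight (Φ^[k] α).rep) =
      fun k => Projectivization.logHeight (Φ^[k] α) := by
    funext k
    conv_rhs => rw [← (Φ^[k] α).mk_rep]
    exact (Projectivization.logHeight_mk _).symm
  rw [h2] at h1
  convert h1 using 1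
  ext k
  simp only [Set.mem_ofPred_eq]
  constructor
  · intro hk f hf
    exact hf.2 _ ⟨_, hF.iter hα k, hk, rfl⟩
  · intro hk f hf
    refine hk f ⟨hS f hf, ?_⟩
    rintro x ⟨y, hy, hy', rfl⟩
    exact hy' f hf

end final

end Pool.Agent.Q170.HG
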