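import Mathlib

set_option autoImplicit false

/-!
# Closed cones
-/

namespace Pool.Agent.Q170.HG

open MvPolynomial

section cone

variable {K : Type} [Field K] {n : ℕ}

/-- The zero set of a set of polynomials. -/
def zs (S : Set (MvPolynomial (Fin n) K)) : Set (Fin n → K) := {x | ∀ f ∈ S, eval x f = 0}

/-- The zero set of a set of forms. -/
def IsCone (Z : Set (Fin n → K)) : Prop :=
  ∃ S : Set (MvPolynomial (Fin n) K), (∀ f ∈ S, ∃ e, f.IsHomogeneous e) ∧ Z = zs S

lemma eval_smul_hom {e : ℕ} {f : MvPolynomial (Fin n) K} (hf : f.IsHomogeneous e) (c : K)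
    (x : Fin n → K) : eval (c • x) f = c ^ e * eval x f := by
  rw [MvPolynomial.eval_eq', MvPolynomial.eval_eq', Finset.mul_sum]
  refine Finset.sum_congr rfl fun m hm => ?_
  have h2 : ∑ i, m i = e := by
    have h3 := hf (MvPolynomial.mem_support_iff.1 hm)
    rw [← h3, Finsupp.weight_apply, Finsupp.sum_fintype _ _ (by simp)]
    simp
  have h3 : ∏ i, (c • x) i ^ m i = c ^ e * ∏ i, x i ^ m i := by
    rw [← h2, ← Finset.prod_pow_eq_pow_sum, ← Finset.prod_mul_distrib]
    exact Finset.prod_congr rfl fun i _ => mul_pow _ _ _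
  rw [h3]
  ring

lemma cone_smul {Z : Set (Fin n → K)} (hZ : IsCone Z) {x : Fin n → K} (hx : x ∈ Z) (c : K) :
    c • x ∈ Z := by
  obtain ⟨S, hS, rfl⟩ := hZ
  intro f hf
  obtain ⟨e, he⟩ := hS f hf
  rw [eval_smul_hom he, hx f hf, mul_zero]

lemma cone_smul_iff {Z : Set (Fin n → K)} (hZ : IsCone Z) {x : Fin n → K} {c : K} (hc : c ≠ 0) :
    c • x ∈ Z ↔ x ∈ Z := by
  refine ⟨fun h => ?_, fun h => cone_smul hZ h c⟩
  have := cone_smul hZ h c⁻¹
  rwa [smul_smul, inv_mul_cancel₀ hc, one_smul] at this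

lemma cone_inter {Z : Set (Fin n → K)} (hZ : IsCone Z) {e : ℕ} {f : MvPolynomial (Fin n) K}
    (hf : f.IsHomogeneous e) : IsCone {x | x ∈ Z ∧ eval x f = 0} := by
  obtain ⟨S, hS, rfl⟩ := hZ
  refine ⟨insert f S, ?_, ?_⟩
  · rintro g (rfl | hg)
    · exact ⟨e, hf⟩
    · exact hS g hg
  · ext x
    constructor
    · rintro ⟨h1, h2⟩ g (rfl | hg)
      · exact h2
      · exact h1 g hg
    · intro h
      exact ⟨fun g hg => h g (Or.inr hg), h f (Or.inl rfl)⟩

lemma zs_finite (S : Set (MvPolynomial (Fin n) K)) :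
    ∃ T : Finset (MvPolynomial (Fin n) K), (T : Set (MvPolynomial (Fin n) K)) ⊆ S ∧
      zs S = zs (T : Set (MvPolynomial (Fin n) K)) := by
  obtain ⟨T, hT, h⟩ := (Submodule.fg_span_iff_fg_span_finset_subset S).1
    ((isNoetherian_def.1 inferInstance) (Submodule.span (MvPolynomial (Fin n) K) S))
  refine ⟨T, hT, ?_⟩
  ext x
  constructor
  · intro hx f hf
    exact hx f (hT hf)
  · intro hx f hf
    have h1 : f ∈ Submodule.span (MvPolynomial (Fin n) K) (T : Set (MvPolynomial (Fin n) K)) := by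
      rw [← h]
      exact Submodule.subset_span hf
    have h2 : Submodule.span (MvPolynomial (Fin n) K) (T : Set (MvPolynomial (Fin n) K)) ≤
        RingHom.ker (eval x) := by
      rw [Submodule.span_le]
      intro g hg
      exact hx g hg
    exact h2 h1

/-- Noetherian induction. -/
lemma cone_ind {P : Set (Fin n → K) → Prop}
    (h : ∀ Z, IsCone Z → (∀ Z1, IsCone Z1 → Z1 ⊂ Z → P Z1) → P Z) : ∀ Z, IsCone Z → P Z := by
  suffices hs : ∀ I : Ideal (MvPolynomial (Fin n) K), ∀ Z, IsCone Z →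
      vanishingIdeal K Z = I → P Z from fun Z hZ => hs _ Z hZ rfl
  intro I
  induction I using WellFoundedGT.induction with
  | ind I ih =>
    intro Z hZ hI
    refine h Z hZ fun Z1 hZ1 hlt => ?_
    refine ih (vanishingIdeal K Z1) ?_ Z1 hZ1 rfl
    rw [← hI]
    refine lt_of_le_of_ne ?_ ?_
    · intro f hf
      rw [mem_vanishingIdeal_iff] at hf ⊢
      exact fun x hx => hf x (hlt.1 hx)
    · intro heq
      obtain ⟨S, hS, rfl⟩ := hZ1
      apply hlt.2
      intro x hx f hf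
      have h1 : f ∈ vanishingIdeal K (zs S) := by
        rw [mem_vanishingIdeal_iff]
        exact fun y hy => hy f hf
      rw [← heq, mem_vanishingIdeal_iff] at h1
      exact h1 x hx

/-- Homogenization. -/
lemma homog (l : Fin n) (f : MvPolynomial (Fin n) K) :
    ∃ (e : ℕ) (g : MvPolynomial (Fin n) K), g.IsHomogeneous e ∧
      ∀ x : Fin n → K, x l = 1 → eval x g = eval x f := by
  refine ⟨f.totalDegree, ∑ m ∈ Finset.range (f.totalDegree + 1),
    homogeneousComponent m f * X l ^ (f.totalDegree - m), ?_, fun x hx => ?_⟩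
  · refine IsHomogeneous.sum _ _ _ fun m hm => ?_
    have h1 := (homogeneousComponent_isHomogeneous m f).mul
      (isHomogeneous_X_pow (R := K) l (f.totalDegree - m))
    rwa [Nat.add_sub_cancel' (Nat.lt_succ_iff.1 (Finset.mem_range.1 hm))] at h1
  · conv_rhs => rw [← sum_homogeneousComponent f]
    rw [map_sum, map_sum]
    refine Finset.sum_congr rfl fun m _ => ?_
    rw [map_mul, map_pow, eval_X, hx, one_pow, mul_one]

/-- A form which vanishes at the points of a cone in an affine chart. -/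
lemma van {Z : Set (Fin n → K)} (hZ : IsCone Z) {l : Fin n} {e : ℕ} {g : MvPolynomial (Fin n) K}
    (hg : g.IsHomogeneous e) (h : ∀ y ∈ Z, y l = 1 → eval y g = 0) (x : Fin n → K) (hx : x ∈ Z) :
    eval x (g * X l) = 0 := by
  rw [map_mul, eval_X]
  by_cases hl : x l = 0
  · rw [hl, mul_zero]
  · have h1 := h ((x l)⁻¹ • x) (cone_smul hZ hx _) (by
      rw [Pi.smul_apply, smul_eq_mul, inv_mul_cancel₀ hl])
    rw [eval_smul_hom hg] at h1
    rcases mul_eq_zero.1 h1 with h2 | h2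
    · exact absurd h2 (pow_ne_zero _ (inv_ne_zero hl))
    · rw [h2, zero_mul]

/-- Irreducibility with respect to forms. -/
def Irr (Z : Set (Fin n → K)) : Prop :=
  ∀ (e e' : ℕ) (f g : MvPolynomial (Fin n) K), f.IsHomogeneous e → g.IsHomogeneous e' →
    (∀ x ∈ Z, eval x (f * g) = 0) → (∀ x ∈ Z, eval x f = 0) ∨ ∀ x ∈ Z, eval x g = 0

lemma van2 {Z : Set (Fin n → K)} (hZ : IsCone Z) (hirr : Irr Z) {l : Fin n}
    (hl : ∃ x ∈ Z, x l ≠ 0) {e : ℕ} {g : MvPolynomial (Fin n) K}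
    (hg : g.IsHomogeneous e) (h : ∀ y ∈ Z, y l = 1 → eval y g = 0) (x : Fin n → K) (hx : x ∈ Z) :
    eval x g = 0 := by
  rcases hirr e 1 g (X l) hg (isHomogeneous_X K l) (van hZ hg h) with h1 | h1
  · exact h1 x hx
  · obtain ⟨y, hy, hy'⟩ := hl
    have h2 := h1 y hy
    rw [eval_X] at h2
    exact absurd h2 hy'

/-- The chart of an irreducible cone is irreducible. -/
lemma chart_prime {Z : Set (Fin n → K)} (hZ : IsCone Z) (hirr : Irr Z) {l : Fin n}
    (hl : ∃ x ∈ Z, x l ≠ 0) (f g : MvPolynomial (Fin n) K)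
    (h : ∀ x ∈ {x | x ∈ Z ∧ x l = 1}, eval x (f * g) = 0) :
    (∀ x ∈ {x | x ∈ Z ∧ x l = 1}, eval x f = 0) ∨
      ∀ x ∈ {x | x ∈ Z ∧ x l = 1}, eval x g = 0 := by
  obtain ⟨e, f', hf', hf⟩ := homog l f
  obtain ⟨e', g', hg', hg⟩ := homog l g
  have h1 : ∀ x ∈ Z, eval x (f' * g') = 0 := van2 hZ hirr hl (hf'.mul hg') fun y hy hyl => by
    rw [map_mul, hf y hyl, hg y hyl, ← map_mul]
    exact h y ⟨hy, hyl⟩
  rcases hirr e e' f' g' hf' hg' h1 with h2 | h2
  · left
    rintro x ⟨hx, hxl⟩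
    rw [← hf x hxl]
    exact h2 x hx
  · right
    rintro x ⟨hx, hxl⟩
    rw [← hg x hxl]
    exact h2 x hx

end cone

end Pool.Agent.Q170.HG
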