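import Pool.Agent.Q170.HG.Size

set_option autoImplicit false

/-!
# The height of a root of an integral polynomial
-/

namespace Pool.Agent.Q170.HG

open Polynomial Height NumberField

variable {K : Type} [Field K] [NumberField K]

/-- The house of an algebraic integer. -/
noncomputable def hs (a : 𝓞 K) : ℝ := house (algebraMap (𝓞 K) K a)

lemma isNm_hs : IsNm (hs (K := K)) where
  nonneg a := house_nonneg _
  zero := by
    rw [hs, map_zero, house, map_zero, norm_zero]
  neg a := by
    rw [hs, hs, map_neg, house, house, map_neg, norm_neg]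
  add a b := by
    rw [hs, hs, hs, map_add]
    exact house_add_le _ _
  mul a b := by
    rw [hs, hs, hs, map_mul]
    exact house_mul_le _ _
  one := by
    rw [hs, map_one]
    have := house_intCast (K := K) 1
    rw [Int.cast_one] at this
    rw [this]
    simp

/-- The height of a tuple of algebraic integers with small conjugates. -/
lemma mulHeight_integral_le {ι : Type} [Finite ι] {x : ι → K} (hx0 : x ≠ 0)
    (hx : ∀ i, IsIntegral ℤ (x i)) {B : ℝ} (hB : ∀ i, ∀ σ : K →+* ℂ, ‖σ (x i)‖ ≤ B) :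
    mulHeight x ≤ B ^ Module.finrank ℚ K := by
  classical
  have : Nonempty ι := by
    obtain ⟨i, _⟩ := Function.ne_iff.1 hx0
    exact ⟨i⟩
  obtain ⟨i0⟩ := this
  have : Nonempty ι := ⟨i0⟩
  have hB0 : 0 ≤ B := by
    obtain ⟨σ⟩ : Nonempty (K →+* ℂ) := inferInstance
    exact (norm_nonneg _).trans (hB i0 σ)
  rw [NumberField.mulHeight_eq hx0]
  have h1 : ∏ v : InfinitePlace K, (⨆ i, v (x i)) ^ v.mult ≤ B ^ Module.finrank ℚ K := by
    rw [← InfinitePlace.sum_mult_eq (K := K), ← Finset.prod_pow_eq_pow_sum]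
    refine Finset.prod_le_prod (fun v _ => ?_) fun v _ => ?_
    · exact pow_nonneg (Real.iSup_nonneg fun i => apply_nonneg v _) _
    · refine pow_le_pow_left₀ (Real.iSup_nonneg fun i => apply_nonneg v _) ?_ _
      refine ciSup_le fun i => ?_
      rw [← InfinitePlace.norm_embedding_eq v (x i)]
      exact hB i _
  have h2 : 0 ≤ (∏ᶠ v : FinitePlace K, ⨆ i, v (x i)) ∧
      (∏ᶠ v : FinitePlace K, ⨆ i, v (x i)) ≤ 1 := by
    refine finprod_induction (p := fun r : ℝ => 0 ≤ r ∧ r ≤ 1) ⟨zero_le_one, le_rfl⟩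
      (fun a b ha hb => ⟨mul_nonneg ha.1 hb.1, mul_le_one₀ ha.2 hb.1 hb.2⟩) fun v => ?_
    refine ⟨Real.iSup_nonneg fun i => apply_nonneg v _, ciSup_le fun i => ?_⟩
    obtain ⟨a, ha⟩ : ∃ a : 𝓞 K, algebraMap (𝓞 K) K a = x i := ⟨⟨x i, hx i⟩, rfl⟩
    rw [← ha, ← FinitePlace.norm_embedding_eq v]
    exact FinitePlace.norm_le_one K v.maximalIdeal a
  have h3 : 0 ≤ B ^ Module.finrank ℚ K := pow_nonneg hB0 _
  calc _ ≤ B ^ Module.finrank ℚ K * 1 := mul_le_mul h1 h2.2 h2.1 h3
    _ = _ := mul_one _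

/-- The height of a root of an integral polynomial. -/
theorem root_bound {p : (𝓞 K)[X]} (hp : p ≠ 0) {s : K} (h : aeval s p = 0) :
    1 ≤ l1 (hs (K := K)) p ∧ mulHeight₁ s ≤ l1 (hs (K := K)) p ^ Module.finrank ℚ K := by
  classical
  have hN := isNm_hs (K := K)
  have ha0 : p.leadingCoeff ≠ 0 := leadingCoeff_ne_zero.2 hp
  have ha1 : algebraMap (𝓞 K) K p.leadingCoeff ≠ 0 := by
    rwa [Ne, RingOfIntegers.coe_eq_zero_iff]
  have hcoef : ∀ i, hs (p.coeff i) ≤ l1 (hs (K := K)) p := by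
    intro i
    by_cases hi : i ∈ p.support
    · exact Finset.single_le_sum (f := fun i => hs (p.coeff i)) (fun j _ => hN.nonneg _) hi
    · rw [notMem_support_iff.1 hi, hN.zero]
      exact (isNm_l1 hN).nonneg _
  have ha2 : hs p.leadingCoeff ≤ l1 (hs (K := K)) p := hcoef _
  have ha3 : 1 ≤ hs p.leadingCoeff :=
    one_le_house_of_isIntegral (RingOfIntegers.isIntegral_coe _) ha1
  refine ⟨ha3.trans ha2, ?_⟩
  have hz : IsIntegral ℤ (algebraMap (𝓞 K) K p.leadingCoeff * s) := by
    have h1 := isIntegral_leadingCoeff_smul p s h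
    rw [Algebra.smul_def] at h1
    exact isIntegral_trans _ h1
  have hdeg : p.natDegree ≠ 0 := by
    intro h0
    rw [eq_C_of_natDegree_eq_zero h0, aeval_C] at h
    have h1 : p.coeff 0 = 0 := by
      rwa [RingOfIntegers.coe_eq_zero_iff] at h
    exact ha0 (by rw [leadingCoeff, h0, h1])
  have hbd : ∀ σ : K →+* ℂ, ‖σ (algebraMap (𝓞 K) K p.leadingCoeff * s)‖ ≤ l1 (hs (K := K)) p := by
    intro σ
    rw [map_mul, norm_mul]
    have hla : ‖σ (algebraMap (𝓞 K) K p.leadingCoeff)‖ ≤ l1 (hs (K := K)) p :=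
      (norm_embedding_le_house _ σ).trans ha2
    rcases le_or_gt ‖σ s‖ 1 with h1 | h1
    · calc _ ≤ ‖σ (algebraMap (𝓞 K) K p.leadingCoeff)‖ * 1 :=
            mul_le_mul_of_nonneg_left h1 (norm_nonneg _)
        _ ≤ _ := by rwa [mul_one]
    · have h2 : ∑ i ∈ Finset.range (p.natDegree + 1),
          σ (algebraMap (𝓞 K) K (p.coeff i)) * σ s ^ i = 0 := by
        have h3 := congrArg σ h
        rw [aeval_eq_sum_range, map_sum, map_zero] at h3
        rw [← h3]
        refine Finset.sum_congr rfl fun i _ => ?_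
        rw [Algebra.smul_def, map_mul, map_pow]
      rw [Finset.sum_range_succ] at h2
      have h3 : ‖σ (algebraMap (𝓞 K) K p.leadingCoeff)‖ * ‖σ s‖ ^ p.natDegree ≤
          (∑ i ∈ Finset.range p.natDegree, hs (p.coeff i)) * ‖σ s‖ ^ (p.natDegree - 1) := by
        rw [← norm_pow, ← norm_mul]
        have h4 : σ (algebraMap (𝓞 K) K p.leadingCoeff) * σ s ^ p.natDegree =
            -∑ i ∈ Finset.range p.natDegree, σ (algebraMap (𝓞 K) K (p.coeff i)) * σ s ^ i := by
          rw [leadingCoeff]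
          linear_combination h2
        rw [h4, norm_neg, Finset.sum_mul]
        refine (norm_sum_le _ _).trans (Finset.sum_le_sum fun i hi => ?_)
        rw [norm_mul, norm_pow]
        have h5 := Finset.mem_range.1 hi
        refine mul_le_mul (norm_embedding_le_house _ σ)
          (pow_le_pow_right₀ h1.le (by omega)) (by positivity) (hN.nonneg _)
      have h4 : ‖σ s‖ ^ p.natDegree = ‖σ s‖ * ‖σ s‖ ^ (p.natDegree - 1) := by
        rw [← pow_succ', Nat.sub_add_cancel (Nat.pos_of_ne_zero hdeg)]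
      rw [h4, ← mul_assoc] at h3
      have h5 := le_of_mul_le_mul_right h3 (by positivity)
      refine h5.trans ?_
      rw [l1_eq hN p (Nat.lt_succ_self _), Finset.sum_range_succ]
      linarith [hN.nonneg (p.coeff p.natDegree)]
  have hx : ![s, 1] = fun i => (algebraMap (𝓞 K) K p.leadingCoeff)⁻¹ *
      (![algebraMap (𝓞 K) K p.leadingCoeff * s, algebraMap (𝓞 K) K p.leadingCoeff] : Fin 2 → K) i := by
    funext i
    fin_cases i
    · simp [ha1]
    · simp [ha1]
  have hx' : ![s, 1] = (algebraMap (𝓞 K) K p.leadingCoeff)⁻¹ •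
      (![algebraMap (𝓞 K) K p.leadingCoeff * s, algebraMap (𝓞 K) K p.leadingCoeff] : Fin 2 → K) := hx
  rw [mulHeight₁_eq_mulHeight, hx', mulHeight_smul_eq_mulHeight _ (inv_ne_zero ha1)]
  refine mulHeight_integral_le ?_ ?_ ?_
  · intro h0
    exact ha1 (congrFun h0 1)
  · intro i
    fin_cases i
    · exact hz
    · exact RingOfIntegers.isIntegral_coe _
  · intro i σ
    fin_cases i
    · exact hbd σ
    · exact (norm_embedding_le_house _ σ).trans ha2

end Pool.Agent.Q170.HG
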