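import Pool.Agent.Q170.HG.Rep
import Pool.Agent.Q170.HG.Root

set_option autoImplicit false

/-!
# The height of the coordinates of the points of a curve in the preimage of a hypersurface
-/

namespace Pool.Agent.Q170.HG

open Polynomial Height NumberField

section ls

/-- All elements become images after multiplication by the image of a nonzero element. -/
def LS {R S : Type} [CommRing R] [CommRing S] (φ : R →+* S) : Prop :=
  ∀ s, ∃ b r, b ≠ 0 ∧ φ r = φ b * s

variable {R S : Type} [CommRing R] [IsDomain R] [CommRing S] {φ : R →+* S}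

lemma ls_poly (h : LS φ) (Q : S[X]) :
    ∃ b : R, b ≠ 0 ∧ ∃ q : R[X], q.map φ = C (φ b) * Q := by
  induction Q using Polynomial.induction_on' with
  | add p q hp hq =>
    obtain ⟨b, hb, p', hp'⟩ := hp
    obtain ⟨c, hc, q', hq'⟩ := hq
    refine ⟨b * c, mul_ne_zero hb hc, C c * p' + C b * q', ?_⟩
    rw [Polynomial.map_add, Polynomial.map_mul, Polynomial.map_mul, map_C, map_C, hp', hq',
      map_mul, C_mul]
    ring
  | monomial n a =>
    obtain ⟨b, r, hb, hr⟩ := h a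
    exact ⟨b, hb, monomial n r, by rw [map_monomial, hr, C_mul_monomial]⟩

lemma ls_map (h : LS φ) : LS (mapRingHom φ) := by
  intro Q
  obtain ⟨b, hb, q, hq⟩ := ls_poly h Q
  exact ⟨C b, q, C_ne_zero.2 hb, by simpa using hq⟩

lemma ls_mv (h : LS φ) {σ : Type} (Q : MvPolynomial σ S) :
    ∃ b : R, b ≠ 0 ∧ ∃ q : MvPolynomial σ R, MvPolynomial.map φ q = MvPolynomial.C (φ b) * Q := by
  induction Q using MvPolynomial.induction_on' with
  | add p q hp hq =>
    obtain ⟨b, hb, p', hp'⟩ := hp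
    obtain ⟨c, hc, q', hq'⟩ := hq
    refine ⟨b * c, mul_ne_zero hb hc, MvPolynomial.C c * p' + MvPolynomial.C b * q', ?_⟩
    rw [map_add, map_mul, map_mul, MvPolynomial.map_C, MvPolynomial.map_C, hp', hq',
      map_mul, MvPolynomial.C_mul]
    ring
  | monomial n a =>
    obtain ⟨b, r, hb, hr⟩ := h a
    exact ⟨b, hb, MvPolynomial.monomial n r, by
      rw [MvPolynomial.map_monomial, hr, MvPolynomial.C_mul_monomial]⟩

lemma ls_frac {K : Type} [Field K] [Algebra R K] [IsFractionRing R K] :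
    LS (algebraMap R K) := by
  intro s
  obtain ⟨⟨r, b⟩, h⟩ := IsLocalization.surj (nonZeroDivisors R) s
  exact ⟨b, r, nonZeroDivisors.coe_ne_zero b, by rw [← h, mul_comm]⟩

end ls

section itw

variable {R A B : Type} [CommRing R] [CommRing A] [Algebra R A] [CommRing B] [Algebra R B] {n d : ℕ}

lemma itw_map (φ : A →ₐ[R] B) (F : Fin n → MvPolynomial (Fin n) R) (w : Fin n → A) (k : ℕ)
    (i : Fin n) : φ (itw F w k i) = itw F (fun j => φ (w j)) k i := by
  induction k generalizing i with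
  | zero => rfl
  | succ k ih =>
    rw [itw, itw, MvPolynomial.comp_aeval_apply]
    congr 2
    funext j
    exact ih j

lemma aeval_hom {e : ℕ} {G : MvPolynomial (Fin n) R} (hG : G.IsHomogeneous e) (c : A)
    (w : Fin n → A) :
    MvPolynomial.aeval (fun i => c * w i) G = c ^ e * MvPolynomial.aeval w G := by
  rw [MvPolynomial.aeval_def, MvPolynomial.eval₂_eq', MvPolynomial.aeval_def,
    MvPolynomial.eval₂_eq', Finset.mul_sum]
  refine Finset.sum_congr rfl fun m hm => ?_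
  have h2 : ∑ i, m i = e := by
    have h3 := hG (MvPolynomial.mem_support_iff.1 hm)
    rw [← h3, Finsupp.weight_apply, Finsupp.sum_fintype _ _ (by simp)]
    simp
  have h3 : ∏ i, (c * w i) ^ m i = c ^ e * ∏ i, w i ^ m i := by
    rw [← h2, ← Finset.prod_pow_eq_pow_sum, ← Finset.prod_mul_distrib]
    exact Finset.prod_congr rfl fun i _ => mul_pow _ _ _
  rw [h3]
  ring

lemma itw_hom {F : Fin n → MvPolynomial (Fin n) R} (hF : ∀ i, (F i).IsHomogeneous d) (c : A)
    (w : Fin n → A) (k : ℕ) (i : Fin n) :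
    itw F (fun j => c * w j) k i = c ^ d ^ k * itw F w k i := by
  induction k generalizing i with
  | zero => rw [pow_zero, pow_one]; rfl
  | succ k ih =>
    change MvPolynomial.aeval (itw F (fun j => c * w j) k) (F i) =
      c ^ d ^ (k + 1) * MvPolynomial.aeval (itw F w k) (F i)
    have h1 : itw F (fun j => c * w j) k = fun j => c ^ d ^ k * itw F w k j := funext ih
    rw [h1, aeval_hom (hF i), ← pow_mul, ← pow_succ]

end itw

section coord

variable {K : Type} [Field K] [NumberField K] {n d : ℕ}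

/-- One coordinate, one form. -/
theorem coord_one {A : Type} [CommRing A] [IsDomain A] [Algebra (𝓞 K) A] (hd : 2 ≤ d)
    {F : Fin n → MvPolynomial (Fin n) (𝓞 K)} (hF : ∀ i, (F i).IsHomogeneous d)
    (u : Fin n → A) (y : A) (hy : Function.Injective (aeval y : (𝓞 K)[X] →ₐ[𝓞 K] A))
    (hu : ∀ i, ∃ q : (𝓞 K)[X][X], q ≠ 0 ∧
      q.eval₂ ((aeval y : (𝓞 K)[X] →ₐ[𝓞 K] A) : (𝓞 K)[X] →+* A) (u i) = 0) :
    ∃ g : A, g ≠ 0 ∧ ∀ (e : ℕ) (G : MvPolynomial (Fin n) (𝓞 K)), G.IsHomogeneous e →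
      ∃ C : ℝ, 1 ≤ C ∧ ∀ k, MvPolynomial.aeval (itw F u k) G ≠ 0 →
        ∀ θ : A →ₐ[𝓞 K] K, θ g ≠ 0 →
          MvPolynomial.aeval (itw F (fun i => θ (u i)) k) G = 0 → mulHeight₁ (θ y) ≤ C ^ d ^ k := by
  classical
  letI : Algebra (𝓞 K)[X] A := ((aeval y : (𝓞 K)[X] →ₐ[𝓞 K] A) : (𝓞 K)[X] →+* A).toAlgebra
  have hmap : ∀ p : (𝓞 K)[X], algebraMap (𝓞 K)[X] A p = aeval y p := fun p => rfl
  have : IsScalarTower (𝓞 K) (𝓞 K)[X] A := IsScalarTower.of_algebraMap_eq fun r => by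
    rw [hmap, Polynomial.algebraMap_apply, aeval_C, Algebra.algebraMap_self_apply]
  have hN := isNm_l1 (isNm_hs (K := K))
  obtain ⟨δ, b, s0, c, Ξ, hb0, hc0, hlin, hrel⟩ := exists_rep (P := (𝓞 K)[X]) (A := A) hy u
    fun i => by
      obtain ⟨q, hq, h⟩ := hu i
      exact ⟨q, hq, h⟩
  refine ⟨b s0, hb0, fun e G hG => ?_⟩
  set w : Fin n → A := fun i => algebraMap (𝓞 K)[X] A c * u i with hw
  have hrep : ∀ i, Rep b (w i) (Ξ i) := by
    intro i s
    rw [← hrel i s, Algebra.smul_def, hw]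
    ring
  set B : ℝ := 1 + ∑ i, ∑ s, ∑ t, l1 (hs (K := K)) (Ξ i s t) with hB
  have hBbd : ∀ i, Bd (l1 (hs (K := K))) b (w i) B := by
    intro i
    refine ⟨Ξ i, hrep i, fun s => ?_⟩
    have h1 : ∑ t, l1 (hs (K := K)) (Ξ i s t) ≤ ∑ s, ∑ t, l1 (hs (K := K)) (Ξ i s t) :=
      Finset.single_le_sum (f := fun s => ∑ t, l1 (hs (K := K)) (Ξ i s t))
        (fun s _ => Finset.sum_nonneg fun t _ => hN.nonneg _) (Finset.mem_univ s)
    have h2 : ∑ s, ∑ t, l1 (hs (K := K)) (Ξ i s t) ≤ ∑ i, ∑ s, ∑ t, l1 (hs (K := K)) (Ξ i s t) :=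
      Finset.single_le_sum (f := fun i => ∑ s, ∑ t, l1 (hs (K := K)) (Ξ i s t))
        (fun i _ => Finset.sum_nonneg fun s _ => Finset.sum_nonneg fun t _ => hN.nonneg _)
        (Finset.mem_univ i)
    linarith
  have hB1 : 1 ≤ B := by
    have : 0 ≤ ∑ i, ∑ s, ∑ t, l1 (hs (K := K)) (Ξ i s t) :=
      Finset.sum_nonneg fun i _ => Finset.sum_nonneg fun s _ =>
        Finset.sum_nonneg fun t _ => hN.nonneg _
    linarith
  set Λ : ℝ := 1 + ∑ i, mv (l1 (hs (K := K))) (F i) with hΛ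
  have hΛ1 : 1 ≤ Λ := by
    have : 0 ≤ ∑ i, mv (l1 (hs (K := K))) (F i) := Finset.sum_nonneg fun i _ => mv_nonneg hN _
    linarith
  have hΛF : ∀ i, mv (l1 (hs (K := K))) (F i) ≤ Λ := by
    intro i
    have := Finset.single_le_sum (f := fun i => mv (l1 (hs (K := K))) (F i))
      (fun i _ => mv_nonneg hN _) (Finset.mem_univ i)
    linarith
  set g1 : ℝ := 1 + mv (l1 (hs (K := K))) G with hg1
  have hg11 : 1 ≤ g1 := by
    have := mv_nonneg hN G
    linarith
  set C1 : ℝ := g1 * (Λ * B) ^ e with hC1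
  have hΛB : 1 ≤ Λ * B := one_le_mul_of_one_le_of_one_le hΛ1 hB1
  have hC11 : 1 ≤ C1 := one_le_mul_of_one_le_of_one_le hg11 (one_le_pow₀ hΛB)
  set C2 : ℝ := δ.factorial * C1 ^ δ with hC2
  have hfac : (1 : ℝ) ≤ δ.factorial := by exact_mod_cast Nat.factorial_pos δ
  have hC21 : 1 ≤ C2 := one_le_mul_of_one_le_of_one_le hfac (one_le_pow₀ hC11)
  refine ⟨C2 ^ Module.finrank ℚ K, one_le_pow₀ hC21, fun k hne θ hθ h0 => ?_⟩
  have hdk : 1 ≤ d ^ k := Nat.one_le_pow _ _ (by omega)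
  have hpos : 0 < Λ * B := by linarith
  have hbd1 := bd_itw hN hd hF hB1 hΛ1 hΛF hBbd k
  have hbd2 := bd_aeval hN hG (by positivity) hbd1
  obtain ⟨m, hm, hm'⟩ := hbd2
  have hE : mv (l1 (hs (K := K))) G * ((Λ * B) ^ d ^ k / Λ) ^ e ≤ C1 ^ d ^ k := by
    have h1 : (Λ * B) ^ d ^ k / Λ ≤ (Λ * B) ^ d ^ k := div_le_self (by positivity) hΛ1
    have h2 : mv (l1 (hs (K := K))) G ≤ g1 ^ d ^ k := by
      refine le_trans (by linarith) (le_self_pow₀ hg11 (by omega : d ^ k ≠ 0))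
    calc _ ≤ g1 ^ d ^ k * ((Λ * B) ^ d ^ k) ^ e := by
          refine mul_le_mul h2 (pow_le_pow_left₀ (by positivity) h1 _) (by positivity)
            (by positivity)
      _ = C1 ^ d ^ k := by
          rw [hC1, mul_pow g1, ← pow_mul (Λ * B), ← pow_mul (Λ * B), mul_comm e]
  have hent : ∀ s t, l1 (hs (K := K)) (m s t) ≤ C1 ^ d ^ k := by
    intro s t
    refine le_trans ?_ ((hm' s).trans hE)
    exact Finset.single_le_sum (f := fun t => l1 (hs (K := K)) (m s t))
      (fun t _ => hN.nonneg _) (Finset.mem_univ t)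
  have hdet := hN.det m hent
  have hdet2 : l1 (hs (K := K)) m.det ≤ C2 ^ d ^ k := by
    refine hdet.trans ?_
    clear_value C1
    rw [hC2, mul_pow, ← pow_mul, ← pow_mul, mul_comm δ]
    exact mul_le_mul_of_nonneg_right (le_self_pow₀ hfac (by omega : d ^ k ≠ 0)) (by positivity)
  have hc1 : algebraMap (𝓞 K)[X] A c ≠ 0 := fun h => hc0 (hy (by
    rw [map_zero]
    exact h))
  have hval : ∀ {A' : Type} [CommRing A'] [Algebra (𝓞 K) A'] (c' : A') (v : Fin n → A'),
      MvPolynomial.aeval (itw F (fun i => c' * v i) k) G =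
        (c' ^ d ^ k) ^ e * MvPolynomial.aeval (itw F v k) G := by
    intro A' _ _ c' v
    have h1 : itw F (fun i => c' * v i) k = fun j => c' ^ d ^ k * itw F v k j :=
      funext (itw_hom hF c' v k)
    rw [h1, aeval_hom hG]
  have hne' : MvPolynomial.aeval (itw F w k) G ≠ 0 := by
    rw [hw, hval]
    exact mul_ne_zero (pow_ne_zero _ (pow_ne_zero _ hc1)) hne
  have hdet0 : m.det ≠ 0 := det_ne hlin hne' hm
  have hθ0 : (θ : A →+* K) (MvPolynomial.aeval (itw F w k) G) = 0 := by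
    change θ (MvPolynomial.aeval (itw F w k) G) = 0
    rw [MvPolynomial.comp_aeval_apply]
    have h1 : (fun i => θ (itw F w k i)) =
        itw F (fun i => θ (algebraMap (𝓞 K)[X] A c) * θ (u i)) k := by
      funext i
      rw [itw_map]
      congr 1
      funext j
      rw [hw, map_mul]
    rw [h1, hval, h0, mul_zero]
  have hev := det_eval hm (θ : A →+* K) hθ0 s0 hθ
  have hev2 : aeval (θ y) m.det = 0 := by
    have h1 := Polynomial.aeval_algHom_apply θ y m.det
    rw [h1]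
    exact hev
  obtain ⟨hr1, hr2⟩ := root_bound hdet0 hev2
  refine hr2.trans ?_
  rw [← pow_mul, mul_comm (Module.finrank ℚ K), pow_mul]
  exact pow_le_pow_left₀ (by linarith) hdet2 _

end coord

end Pool.Agent.Q170.HG
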