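import Pool.Agent.Q170.HG.MainW

set_option autoImplicit false

/-!
# The number of the points of a curve in the preimage of a hypersurface, over any field
-/

namespace Pool.Agent.Q170.HG

open Polynomial

section dn

variable {K : Type} [Field K]

/-- The size given by the degree. -/
noncomputable def dn {K : Type} [Field K] (p : K[X]) : ℝ := by
  classical
  exact if p = 0 then 0 else 2 ^ p.natDegree

lemma isNm_dn : IsNm (dn (K := K)) where
  nonneg a := by
    unfold dn
    split_ifs <;> positivity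
  zero := by simp [dn]
  neg a := by
    by_cases ha : a = 0
    · rw [ha, neg_zero]
    · unfold dn
      rw [if_neg ha, if_neg (neg_ne_zero.2 ha), natDegree_neg]
  one := by simp [dn]
  add a b := by
    have h0 : dn (0 : K[X]) = 0 := by simp [dn]
    by_cases ha : a = 0
    · rw [ha, zero_add, h0, zero_add]
    · by_cases hb : b = 0
      · rw [hb, add_zero, h0, add_zero]
      · by_cases hab : a + b = 0
        · have h1 : dn (a + b) = 0 := by rw [hab]; simp [dn]
          rw [h1]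
          unfold dn
          rw [if_neg ha, if_neg hb]
          positivity
        · unfold dn
          rw [if_neg ha, if_neg hb, if_neg hab]
          have h1 := natDegree_add_le a b
          rcases le_total a.natDegree b.natDegree with h2 | h2
          · rw [max_eq_right h2] at h1
            have h3 := pow_le_pow_right₀ (by norm_num : (1 : ℝ) ≤ 2) h1
            have h4 : (0 : ℝ) < 2 ^ a.natDegree := by positivity
            linarith
          · rw [max_eq_left h2] at h1
            have h3 := pow_le_pow_right₀ (by norm_num : (1 : ℝ) ≤ 2) h1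
            have h4 : (0 : ℝ) < 2 ^ b.natDegree := by positivity
            linarith
  mul a b := by
    by_cases ha : a = 0
    · simp [dn, ha]
    · by_cases hb : b = 0
      · simp [dn, hb]
      · unfold dn
        rw [if_neg ha, if_neg hb, if_neg (mul_ne_zero ha hb), natDegree_mul ha hb, pow_add]

end dn

section coordD

variable {K ι : Type} [Field K] [Fintype ι] {n d : ℕ}

/-- One coordinate, one form. -/
theorem coord_oneD {A : Type} [CommRing A] [IsDomain A] [Algebra K A] (hd : 2 ≤ d)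
    {F : ι → Fin n → MvPolynomial (Fin n) K} (hF : ∀ c i, (F c i).IsHomogeneous d)
    (u : Fin n → A) (y : A) (hy : Function.Injective (aeval y : K[X] →ₐ[K] A))
    (hu : ∀ i, ∃ q : K[X][X], q ≠ 0 ∧
      q.eval₂ ((aeval y : K[X] →ₐ[K] A) : K[X] →+* A) (u i) = 0) :
    ∃ g : A, g ≠ 0 ∧ ∀ (e : ℕ) (G : MvPolynomial (Fin n) K), G.IsHomogeneous e →
      ∃ L : ℕ, ∀ (v : ℕ → ι) k, MvPolynomial.aeval (itv F v u k) G ≠ 0 →
        ∃ p : K[X], p ≠ 0 ∧ p.natDegree ≤ L * d ^ k ∧ ∀ θ : A →ₐ[K] K, θ g ≠ 0 →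
          MvPolynomial.aeval (itv F v (fun i => θ (u i)) k) G = 0 → aeval (θ y) p = 0 := by
  classical
  letI : Algebra K[X] A := ((aeval y : K[X] →ₐ[K] A) : K[X] →+* A).toAlgebra
  have hmap : ∀ p : K[X], algebraMap K[X] A p = aeval y p := fun p => rfl
  have : IsScalarTower K K[X] A := IsScalarTower.of_algebraMap_eq fun r => by
    rw [hmap, Polynomial.algebraMap_apply, aeval_C, Algebra.algebraMap_self_apply]
  have hN := isNm_dn (K := K)
  obtain ⟨δ, b, s0, c, Ξ, hb0, hc0, hlin, hrel⟩ := exists_rep (P := K[X]) (A := A) hy u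
    fun i => by
      obtain ⟨q, hq, h⟩ := hu i
      exact ⟨q, hq, h⟩
  refine ⟨b s0, hb0, fun e G hG => ?_⟩
  set w : Fin n → A := fun i => algebraMap K[X] A c * u i with hw
  have hrep : ∀ i, Rep b (w i) (Ξ i) := by
    intro i s
    rw [← hrel i s, Algebra.smul_def, hw]
    ring
  set B : ℝ := 1 + ∑ i, ∑ s, ∑ t, dn (K := K) (Ξ i s t) with hB
  have hBbd : ∀ i, Bd (dn (K := K)) b (w i) B := by
    intro i
    refine ⟨Ξ i, hrep i, fun s => ?_⟩
    have h1 : ∑ t, dn (K := K) (Ξ i s t) ≤ ∑ s, ∑ t, dn (K := K) (Ξ i s t) :=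
      Finset.single_le_sum (f := fun s => ∑ t, dn (K := K) (Ξ i s t))
        (fun s _ => Finset.sum_nonneg fun t _ => hN.nonneg _) (Finset.mem_univ s)
    have h2 : ∑ s, ∑ t, dn (K := K) (Ξ i s t) ≤ ∑ i, ∑ s, ∑ t, dn (K := K) (Ξ i s t) :=
      Finset.single_le_sum (f := fun i => ∑ s, ∑ t, dn (K := K) (Ξ i s t))
        (fun i _ => Finset.sum_nonneg fun s _ => Finset.sum_nonneg fun t _ => hN.nonneg _)
        (Finset.mem_univ i)
    linarith
  have hB1 : 1 ≤ B := by
    have : 0 ≤ ∑ i, ∑ s, ∑ t, dn (K := K) (Ξ i s t) :=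
      Finset.sum_nonneg fun i _ => Finset.sum_nonneg fun s _ =>
        Finset.sum_nonneg fun t _ => hN.nonneg _
    linarith
  set Λ : ℝ := 1 + ∑ c : ι, ∑ i, mv (dn (K := K)) (F c i) with hΛ
  have hΛ1 : 1 ≤ Λ := by
    have : 0 ≤ ∑ c : ι, ∑ i, mv (dn (K := K)) (F c i) :=
      Finset.sum_nonneg fun c _ => Finset.sum_nonneg fun i _ => mv_nonneg hN _
    linarith
  have hΛF : ∀ (c : ι) i, mv (dn (K := K)) (F c i) ≤ Λ := by
    intro c i
    have h1 := Finset.single_le_sum (f := fun i => mv (dn (K := K)) (F c i))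
      (fun i _ => mv_nonneg hN _) (Finset.mem_univ i)
    have h2 := Finset.single_le_sum (f := fun c : ι => ∑ i, mv (dn (K := K)) (F c i))
      (fun c _ => Finset.sum_nonneg fun i _ => mv_nonneg hN _) (Finset.mem_univ c)
    linarith
  set g1 : ℝ := 1 + mv (dn (K := K)) G with hg1
  have hg11 : 1 ≤ g1 := by
    have := mv_nonneg hN G
    linarith
  set C1 : ℝ := g1 * (Λ * B) ^ e with hC1
  have hΛB : 1 ≤ Λ * B := one_le_mul_of_one_le_of_one_le hΛ1 hB1
  have hC11 : 1 ≤ C1 := one_le_mul_of_one_le_of_one_le hg11 (one_le_pow₀ hΛB)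
  set C2 : ℝ := δ.factorial * C1 ^ δ with hC2
  have hfac : (1 : ℝ) ≤ δ.factorial := by exact_mod_cast Nat.factorial_pos δ
  have hC21 : 1 ≤ C2 := one_le_mul_of_one_le_of_one_le hfac (one_le_pow₀ hC11)
  obtain ⟨L, hL⟩ : ∃ L : ℕ, C2 ≤ (2 : ℝ) ^ L := by
    refine ⟨⌈C2⌉₊, (Nat.le_ceil _).trans ?_⟩
    have h1 : ⌈C2⌉₊ < 2 ^ ⌈C2⌉₊ := Nat.lt_pow_self (by omega)
    exact_mod_cast h1.le
  refine ⟨L, fun v k hne => ?_⟩
  have hdk : 1 ≤ d ^ k := Nat.one_le_pow _ _ (by omega)
  have hpos : 0 < Λ * B := by linarith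
  have hbd1 := bd_itv hN hd hF hB1 hΛ1 hΛF hBbd v k
  have hbd2 := bd_aeval hN hG (by positivity) hbd1
  obtain ⟨m, hm, hm'⟩ := hbd2
  have hE : mv (dn (K := K)) G * ((Λ * B) ^ d ^ k / Λ) ^ e ≤ C1 ^ d ^ k := by
    have h1 : (Λ * B) ^ d ^ k / Λ ≤ (Λ * B) ^ d ^ k := div_le_self (by positivity) hΛ1
    have h2 : mv (dn (K := K)) G ≤ g1 ^ d ^ k := by
      refine le_trans (by linarith) (le_self_pow₀ hg11 (by omega : d ^ k ≠ 0))
    calc _ ≤ g1 ^ d ^ k * ((Λ * B) ^ d ^ k) ^ e := by
          refine mul_le_mul h2 (pow_le_pow_left₀ (by positivity) h1 _) (by positivity)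
            (by positivity)
      _ = C1 ^ d ^ k := by
          rw [hC1, mul_pow g1, ← pow_mul (Λ * B), ← pow_mul (Λ * B), mul_comm e]
  have hent : ∀ s t, dn (m s t) ≤ C1 ^ d ^ k := by
    intro s t
    refine le_trans ?_ ((hm' s).trans hE)
    exact Finset.single_le_sum (f := fun t => dn (m s t))
      (fun t _ => hN.nonneg _) (Finset.mem_univ t)
  have hdet := hN.det m hent
  have hdet2 : dn m.det ≤ C2 ^ d ^ k := by
    refine hdet.trans ?_
    clear_value C1
    rw [hC2, mul_pow, ← pow_mul, ← pow_mul, mul_comm δ]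
    exact mul_le_mul_of_nonneg_right (le_self_pow₀ hfac (by omega : d ^ k ≠ 0)) (by positivity)
  have hc1 : algebraMap K[X] A c ≠ 0 := fun h => hc0 (hy (by
    rw [map_zero]
    exact h))
  have hval : ∀ {A' : Type} [CommRing A'] [Algebra K A'] (c' : A') (y' : Fin n → A'),
      MvPolynomial.aeval (itv F v (fun i => c' * y' i) k) G =
        (c' ^ d ^ k) ^ e * MvPolynomial.aeval (itv F v y' k) G := by
    intro A' _ _ c' y'
    have h1 : itv F v (fun i => c' * y' i) k = fun j => c' ^ d ^ k * itv F v y' k j :=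
      funext (itv_hom hF v c' y' k)
    rw [h1, aeval_hom hG]
  have hne' : MvPolynomial.aeval (itv F v w k) G ≠ 0 := by
    rw [hw, hval]
    exact mul_ne_zero (pow_ne_zero _ (pow_ne_zero _ hc1)) hne
  have hdet0 : m.det ≠ 0 := det_ne hlin hne' hm
  refine ⟨m.det, hdet0, ?_, fun θ hθ h0 => ?_⟩
  · have h1 : dn m.det = 2 ^ m.det.natDegree := by rw [dn, if_neg hdet0]
    rw [h1] at hdet2
    have h2 : (2 : ℝ) ^ m.det.natDegree ≤ 2 ^ (L * d ^ k) := by
      rw [pow_mul]
      exact hdet2.trans (pow_le_pow_left₀ (by linarith) hL _)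
    have h3 : 2 ^ m.det.natDegree ≤ 2 ^ (L * d ^ k) := by exact_mod_cast h2
    exact (Nat.pow_le_pow_iff_right (by omega : 1 < 2)).1 h3
  · have hθ0 : (θ : A →+* K) (MvPolynomial.aeval (itv F v w k) G) = 0 := by
      change θ (MvPolynomial.aeval (itv F v w k) G) = 0
      rw [MvPolynomial.comp_aeval_apply]
      have h1 : (fun i => θ (itv F v w k i)) =
          itv F v (fun i => θ (algebraMap K[X] A c) * θ (u i)) k := by
        funext i
        rw [itv_map]
        congr 1
        funext j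
        rw [hw, map_mul]
      rw [h1, hval, h0, mul_zero]
    have hev := det_eval hm (θ : A →+* K) hθ0 s0 hθ
    have h1 := Polynomial.aeval_algHom_apply θ y m.det
    rw [h1]
    exact hev

end coordD

end Pool.Agent.Q170.HG
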