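import Pool.Agent.Q170.HG.MainW

set_option autoImplicit false

/-!
# Self-maps of quasi-projective varieties over number fields: returns to curves
-/

namespace Pool.Agent.Q170.HG

open MvPolynomial Height NumberField

section mainq

variable {K ι : Type} [Field K] [NumberField K] [Fintype ι] {n d : ℕ}
  {X : Set (Projectivization K (Fin n → K))}
  {Φ : Projectivization K (Fin n → K) → Projectivization K (Fin n → K)}
  {F : ι → Fin n → MvPolynomial (Fin n) K}

lemma gap_real {d : ℕ} (hd : 2 ≤ d) {r c L : ℝ} (hr : 1 < r) (hc : 0 < c) (hL : 1 ≤ L) {a b : ℕ}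
    (hab : a < b) (h : c * r ^ a ≤ (d : ℝ) ^ (b - a) * L) :
    (1 + Real.log r / Real.log d) * a ≤ b + (Real.log L - Real.log c) / Real.log d := by
  have hd1 : (1 : ℝ) < d := by exact_mod_cast (by omega : 1 < d)
  have hld : 0 < Real.log d := Real.log_pos hd1
  have hr0 : 0 < r := by linarith
  have h1 := Real.log_le_log (by positivity) h
  rw [Real.log_mul hc.ne' (pow_pos hr0 _).ne', Real.log_mul (pow_pos (by linarith) _).ne'
    (by linarith : L ≠ 0), Real.log_pow, Real.log_pow] at h1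
  rw [Nat.cast_sub hab.le] at h1
  have h2 : (1 + Real.log r / Real.log d) * a =
      a + (a * Real.log r) / Real.log d := by
    ring
  rw [h2]
  have h3 : (a * Real.log r) / Real.log d ≤
      ((b - a) * Real.log d + Real.log L - Real.log c) / Real.log d :=
    div_le_div_of_nonneg_right (by linarith) hld.le
  have h4 : ((b - a) * Real.log d + Real.log L - Real.log c) / Real.log d =
      (b - a) + (Real.log L - Real.log c) / Real.log d := by
    field_simp
    ring
  linarith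

/-- The theorem for cones. -/
theorem cone_mainH (h : Chs d X Φ F) (hd : 2 ≤ d) :
    ∀ Z, IsCone Z → Dm Z → ∃ C : ℕ, ∀ α ∈ X,
      GoodH (fun k => logHeight (Φ^[k] α).rep) d C {k | (Φ^[k] α).rep ∈ Z} := by
  classical
  refine cone_ind fun Z hZ ih hdim => ?_
  have hsub : ∀ Z1 : Set (Fin n → K), Z1 ⊂ Z → Dm Z1 := by
    intro Z1 hlt i j l
    obtain ⟨Q, hQ, hQ'⟩ := hdim i j l
    exact ⟨Q, hQ, fun x hx => hQ' x (hlt.1 hx)⟩
  have hprop : ∀ (f : MvPolynomial (Fin n) K), (∃ x ∈ Z, eval x f ≠ 0) →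
      {x | x ∈ Z ∧ eval x f = 0} ⊂ Z := by
    intro f hf
    obtain ⟨x, hx, hfx⟩ := hf
    exact ⟨fun y hy => hy.1, fun h => hfx (h hx).2⟩
  by_cases h0 : ∀ x ∈ Z, x = 0
  · refine ⟨0, fun α hα => ?_⟩
    convert good_emptyH (η := fun k => logHeight (Φ^[k] α).rep) (D := d) 0
    ext k
    simp only [Set.mem_empty_iff_false, iff_false]
    intro hk
    exact (Φ^[k] α).rep_nonzero (h0 _ hk)
  · push Not at h0
    obtain ⟨x0, hx0, hx0'⟩ := h0
    obtain ⟨l, hl⟩ : ∃ l, x0 l ≠ 0 := Function.ne_iff.1 hx0'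
    by_cases hirr : Irr Z
    · by_cases hper : ∀ m, 0 < m → ∃ x ∈ X, x.rep ∈ Z ∧ (Φ^[m] x).rep ∉ Z
      · obtain ⟨e, g, hg, hg0, C, hC, hmain⟩ := cone_stepW h hd hZ hdim hirr ⟨x0, hx0, hl⟩ hper
        obtain ⟨C1, hC1⟩ := ih _ (cone_inter hZ hg) (hprop g hg0) (hsub _ (hprop g hg0))
        set B : ℕ := ⌈Real.log C⌉₊ with hB
        refine ⟨C1 + (B + 1), fun α hα => ?_⟩
        have h1 : {k | (Φ^[k] α).rep ∈ Z} =
            {k | (Φ^[k] α).rep ∈ {x | x ∈ Z ∧ eval x g = 0}} ∪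
            {k | (Φ^[k] α).rep ∈ Z ∧ eval (Φ^[k] α).rep g ≠ 0} := by
          ext k
          simp only [Set.mem_union, Set.mem_ofPred_eq]
          tauto
        rw [h1]
        refine good_unionH (hC1 α hα) (good_dblH ?_)
        rintro a ⟨ha, hga⟩ b ⟨hb, _⟩ hab
        have h4 := hmain (b - a) (by omega) _ (h.iter hα a) ha (by
          rw [← Function.iterate_add_apply, Nat.sub_add_cancel hab.le]
          exact hb) hga
        change logHeight (Φ^[a] α).rep ≤ _
        rw [logHeight_eq_log_mulHeight]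
        refine (Real.log_le_log (mulHeight_pos _) h4).trans ?_
        rw [Real.log_pow, mul_comm]
        push_cast
        exact mul_le_mul_of_nonneg_right (Nat.le_ceil _) (by positivity)
      · push Not at hper
        obtain ⟨m, hm, hper⟩ := hper
        refine ⟨m, fun α hα => good_perH hm fun k hk => ?_⟩
        change (Φ^[k + m] α).rep ∈ Z
        rw [add_comm, Function.iterate_add_apply]
        exact hper _ (h.iter hα k) hk
    · unfold Irr at hirr
      push Not at hirr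
      obtain ⟨e, e', f, g, hf, hg, hfg, hf0, hg0⟩ := hirr
      obtain ⟨C1, hC1⟩ := ih _ (cone_inter hZ hf) (hprop f hf0) (hsub _ (hprop f hf0))
      obtain ⟨C2, hC2⟩ := ih _ (cone_inter hZ hg) (hprop g hg0) (hsub _ (hprop g hg0))
      refine ⟨C1 + C2, fun α hα => ?_⟩
      have h1 := good_unionH (hC1 α hα) (hC2 α hα)
      convert h1 using 1
      ext k
      simp only [Set.mem_union, Set.mem_ofPred_eq]
      constructor
      · intro hk
        have h2 := hfg _ hk
        rw [map_mul, mul_eq_zero] at h2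
        rcases h2 with h2 | h2
        · exact Or.inl ⟨hk, h2⟩
        · exact Or.inr ⟨hk, h2⟩
      · rintro (h | h)
        · exact h.1
        · exact h.1

/-- Exponential growth gives geometric gaps. -/
theorem tight_growth {D : ℕ} (hD : 2 ≤ D) (C : ℕ) {r c : ℝ} (hr : 1 < r) (hc : 0 < c) (n0 : ℕ) :
    ∃ C' : ℕ, ∀ η : ℕ → ℝ, (∀ k, n0 ≤ k → c * r ^ k ≤ η k) → ∀ s : Set ℕ,
      (∀ a ∈ s, ∀ b ∈ s, a < b → η a ≤ C * (D : ℝ) ^ (b - a)) →
        ∀ a ∈ s, ∀ b ∈ s, a < b → (1 + Real.log r / Real.log D) * a ≤ b + C' := by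
  set ε : ℝ := Real.log r / Real.log D with hε
  have hε0 : 0 ≤ ε := div_nonneg (Real.log_nonneg hr.le)
    (Real.log_nonneg (by exact_mod_cast (by omega : 1 ≤ D)))
  set L : ℝ := max (C : ℝ) 1 with hL
  set A : ℕ := ⌈ε * n0⌉₊ with hA
  set B : ℕ := ⌈(Real.log L - Real.log c) / Real.log D⌉₊ with hB
  refine ⟨A + B, fun η hη s hs a ha b hb hab => ?_⟩
  have hab' : (a : ℝ) < b := by exact_mod_cast hab
  push_cast
  rcases lt_or_ge a n0 with h2 | h2
  · have h3 : ε * a ≤ ε * n0 := mul_le_mul_of_nonneg_left (by exact_mod_cast h2.le) hε0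
    have h4 : ε * n0 ≤ A := Nat.le_ceil _
    have h5 : (0 : ℝ) ≤ B := Nat.cast_nonneg _
    nlinarith
  · have h3 := hη a h2
    have h4 := hs a ha b hb hab
    have h5 : (C : ℝ) * (D : ℝ) ^ (b - a) ≤ (D : ℝ) ^ (b - a) * L := by
      rw [mul_comm]
      exact mul_le_mul_of_nonneg_left (le_max_left _ _) (by positivity)
    have h6 := gap_real hD hr hc (le_max_right _ _ : (1 : ℝ) ≤ L) hab (h3.trans (h4.trans h5))
    have h7 : (Real.log L - Real.log c) / Real.log D ≤ B := Nat.le_ceil _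
    have h8 : (0 : ℝ) ≤ A := Nat.cast_nonneg _
    linarith

/-- Northcott's theorem for the points of the projective space. -/
theorem northP (B : ℝ) :
    {x : Projectivization K (Fin n → K) | logHeight x.rep ≤ B}.Finite := by
  have h1 := northcott (K := K) (n := n) (Real.exp B)
  refine Set.Finite.of_finite_image (f := fun x => nf x.rep) (h1.subset ?_) ?_
  · rintro _ ⟨x, hx, rfl⟩ j
    refine (nf_height x.rep_nonzero j).trans ?_
    have h2 : logHeight x.rep ≤ B := hx
    rw [logHeight_eq_log_mulHeight] at h2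
    have h3 := Real.exp_le_exp.2 h2
    rwa [Real.exp_log (mulHeight_pos _)] at h3
  · intro x _ y _ hxy
    obtain ⟨c, hc, h2⟩ := nf_eq x.rep_nonzero y.rep_nonzero hxy
    rw [← x.mk_rep, ← y.mk_rep, Projectivization.mk_eq_mk_iff']
    exact ⟨c⁻¹, by rw [h2, inv_smul_smul₀ hc]⟩

/-- Few small gaps, if the point is not preperiodic. -/
theorem tight_gaps (D : ℕ) (C g : ℕ) : ∃ E : ℕ, ∀ x : ℕ → Projectivization K (Fin n → K),
    Function.Injective x → ∀ s : Set ℕ,
      (∀ a ∈ s, ∀ b ∈ s, a < b → logHeight (x a).rep ≤ C * ((D + 1 : ℕ) : ℝ) ^ (b - a)) →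
        {a | a ∈ s ∧ ∃ b ∈ s, a < b ∧ b ≤ a + g}.encard ≤ E := by
  have hfin := northP (K := K) (n := n) (C * ((D + 1 : ℕ) : ℝ) ^ g)
  refine ⟨hfin.toFinset.card, fun x hx s hs => ?_⟩
  have h1 : x '' {a | a ∈ s ∧ ∃ b ∈ s, a < b ∧ b ≤ a + g} ⊆
      {y | logHeight y.rep ≤ C * ((D + 1 : ℕ) : ℝ) ^ g} := by
    rintro _ ⟨a, ⟨ha, b, hb, hab, hbg⟩, rfl⟩
    refine (hs a ha b hb hab).trans (mul_le_mul_of_nonneg_left ?_ (Nat.cast_nonneg _))
    exact pow_le_pow_right₀ (by exact_mod_cast (by omega : 1 ≤ D + 1)) (by omega)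
  rw [← hx.encard_image]
  refine (Set.encard_le_encard h1).trans ?_
  rw [hfin.encard_eq_coe_toFinset_card]

end mainq

section charts

variable {K : Type} [Field K] {n : ℕ}

/-- On the part of `X` where `g` is not zero, the map `Φ` is given by the forms `F i`. -/
def IsCh (X : Set (Projectivization K (Fin n → K)))
    (Φ : Projectivization K (Fin n → K) → Projectivization K (Fin n → K))
    (F : Fin n → MvPolynomial (Fin n) K) (g : MvPolynomial (Fin n) K) : Prop :=
  (∃ d : ℕ, ∀ i, (F i).IsHomogeneous d) ∧ (∃ e : ℕ, g.IsHomogeneous e) ∧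
    ∀ y ∈ X, eval y.rep g ≠ 0 → Rp (Φ y) fun i => eval y.rep (F i)

/-- A morphism is given by finitely many systems of forms of the same degree. -/
theorem exists_chs {X : Set (Projectivization K (Fin n → K))}
    {Φ : Projectivization K (Fin n → K) → Projectivization K (Fin n → K)}
    (hmaps : ∀ x ∈ X, Φ x ∈ X) (hch : ∀ x ∈ X, ∃ F g, eval x.rep g ≠ 0 ∧ IsCh X Φ F g) :
    ∃ (T : Finset (MvPolynomial (Fin n) K)) (d : ℕ)
      (F : T × Fin n → Fin n → MvPolynomial (Fin n) K), 2 ≤ d ∧ Chs d X Φ F := by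
  classical
  obtain ⟨T, hT, h⟩ := zs_finite {g : MvPolynomial (Fin n) K | ∃ F, IsCh X Φ F g}
  have h1 : ∀ g : T, ∃ F, IsCh X Φ F g.1 := fun g => hT g.2
  choose F hF using h1
  choose dF hdF using fun g => (hF g).1
  choose dg hdg using fun g => (hF g).2.1
  set D : ℕ := 2 + ∑ g, (dF g + dg g) with hD
  have hDg : ∀ g, dF g + dg g ≤ D := fun g =>
    (Finset.single_le_sum (f := fun g => dF g + dg g) (fun _ _ => Nat.zero_le _)
      (Finset.mem_univ g)).trans (Nat.le_add_left _ _)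
  have hev : ∀ (c : T × Fin n) (x : Fin n → K),
      (fun i => eval x (F c.1 i * c.1.1 * MvPolynomial.X c.2 ^ (D - (dF c.1 + dg c.1)))) =
        (eval x c.1.1 * x c.2 ^ (D - (dF c.1 + dg c.1))) • fun i => eval x (F c.1 i) := by
    intro c x
    funext i
    rw [map_mul, map_mul, map_pow, eval_X, Pi.smul_apply, smul_eq_mul]
    ring
  refine ⟨T, D, fun c i => F c.1 i * c.1.1 * MvPolynomial.X c.2 ^ (D - (dF c.1 + dg c.1)), by omega,
    hmaps, fun c i => ?_, fun x hx => ?_, fun x hx c hne => ?_⟩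
  · have h2 := ((hdF c.1 i).mul (hdg c.1)).mul
      (isHomogeneous_X_pow (R := K) c.2 (D - (dF c.1 + dg c.1)))
    rwa [Nat.add_sub_cancel' (hDg c.1)] at h2
  · obtain ⟨l, hl⟩ : ∃ l, x.rep l ≠ 0 := Function.ne_iff.1 x.rep_nonzero
    have h2 : x.rep ∉ zs (T : Set (MvPolynomial (Fin n) K)) := by
      rw [← h]
      intro h3
      obtain ⟨F', g, hg, hFg⟩ := hch x hx
      exact hg (h3 g ⟨F', hFg⟩)
    have h3 : ∃ g ∈ T, eval x.rep g ≠ 0 := by
      by_contra hcon
      push Not at hcon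
      exact h2 hcon
    obtain ⟨g, hg, hgx⟩ := h3
    refine ⟨(⟨g, hg⟩, l), ?_⟩
    have h4 := hev (⟨g, hg⟩, l) x.rep
    rw [h4]
    exact smul_ne_zero (mul_ne_zero hgx (pow_ne_zero _ hl)) ((hF ⟨g, hg⟩).2.2 x hx hgx).1
  · rw [hev] at hne ⊢
    have h2 : eval x.rep c.1.1 * x.rep c.2 ^ (D - (dF c.1 + dg c.1)) ≠ 0 := by
      intro h3
      rw [h3, zero_smul] at hne
      exact hne rfl
    have h3 : eval x.rep c.1.1 ≠ 0 := left_ne_zero_of_mul h2
    obtain ⟨h4, h5⟩ := (hF c.1).2.2 x hx h3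
    refine ⟨hne, ?_⟩
    rw [← h5, Projectivization.mk_eq_mk_iff']
    exact ⟨_, rfl⟩

end charts

end Pool.Agent.Q170.HG
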