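import Pool.Agent.Q170.HG.Dg
import Pool.Agent.Q170.HG.MainQ

set_option autoImplicit false

/-!
# The number of the points of a nonperiodic curve in its preimages, over any field
-/

namespace Pool.Agent.Q170.HG

section affD

variable {K ι : Type} [Field K] [Fintype ι] {n d : ℕ}

/-- One coordinate, one form, all cases. -/
lemma coord_allD {A : Type} [CommRing A] [IsDomain A] [Algebra K A] (hd : 2 ≤ d)
    {F : ι → Fin n → MvPolynomial (Fin n) K} (hF : ∀ c i, (F c i).IsHomogeneous d)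
    (u : Fin n → A) (Z : Set (Fin n → K)) (θ : Z → (A →ₐ[K] K))
    (hθ : ∀ x i, θ x (u i) = x.1 i) (hinj : ∀ a, (∀ x, θ x a = 0) → a = 0)
    (hQ : ∀ i j, ∃ Q : Polynomial (Polynomial K), Q ≠ 0 ∧ ∀ x ∈ Z, Q.evalEval (x j) (x i) = 0)
    (j : Fin n) :
    ∃ g : A, g ≠ 0 ∧ ∀ (e : ℕ) (G : MvPolynomial (Fin n) K), G.IsHomogeneous e →
      ∃ L : ℕ, ∀ (v : ℕ → ι) k, MvPolynomial.aeval (itv F v u k) G ≠ 0 →
        ∃ p : Polynomial K, p ≠ 0 ∧ p.natDegree ≤ L * d ^ k ∧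
          ∀ x : Z, θ x g ≠ 0 → MvPolynomial.aeval (itv F v x.1 k) G = 0 →
            Polynomial.aeval (x.1 j) p = 0 := by
  classical
  by_cases hy : Function.Injective
      (Polynomial.aeval (u j) : Polynomial K →ₐ[K] A)
  · have hu : ∀ i, ∃ q : Polynomial (Polynomial K), q ≠ 0 ∧
        q.eval₂ ((Polynomial.aeval (u j) : Polynomial K →ₐ[K] A) :
          Polynomial K →+* A) (u i) = 0 := by
      intro i
      obtain ⟨Q, hQ0, hQ1⟩ := hQ i j
      refine ⟨Q, hQ0, hinj _ fun x => ?_⟩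
      have h2 := Polynomial.hom_eval₂ Q
        ((Polynomial.aeval (u j) : Polynomial K →ₐ[K] A) : Polynomial K →+* A)
        (θ x : A →+* K) (u i)
      have h3 : ((θ x : A →+* K).comp
          ((Polynomial.aeval (u j) : Polynomial K →ₐ[K] A) : Polynomial K →+* A))
          = Polynomial.evalRingHom (x.1 j) := by
        refine Polynomial.ringHom_ext (fun a => ?_) ?_
        · simp
        · simp [hθ]
      rw [h3] at h2
      refine h2.trans ?_
      have h4 : (θ x : A →+* K) (u i) = x.1 i := hθ x i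
      rw [h4, Polynomial.eval₂_evalRingHom]
      exact hQ1 x.1 x.2
    obtain ⟨g, hg, h⟩ := coord_oneD hd hF u (u j) hy hu
    refine ⟨g, hg, fun e G hG => ?_⟩
    obtain ⟨L, hL⟩ := h e G hG
    refine ⟨L, fun v k hk => ?_⟩
    obtain ⟨p, hp, hp1, hp2⟩ := hL v k hk
    refine ⟨p, hp, hp1, fun x hx h0 => ?_⟩
    have h1 := hp2 (θ x) hx (by
      have h2 : (fun i => θ x (u i)) = x.1 := funext (hθ x)
      rw [h2]
      exact h0)
    rwa [hθ] at h1
  · refine ⟨1, one_ne_zero, fun e G hG => ?_⟩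
    have h1 : ∃ p : Polynomial K, p ≠ 0 ∧ Polynomial.aeval (u j) p = 0 := by
      rw [injective_iff_map_eq_zero] at hy
      push Not at hy
      obtain ⟨p, hp, hp'⟩ := hy
      exact ⟨p, hp', hp⟩
    obtain ⟨p, hp, hp'⟩ := h1
    refine ⟨p.natDegree, fun v k _ => ⟨p, hp, ?_, fun x _ _ => ?_⟩⟩
    · exact Nat.le_mul_of_pos_right _ (Nat.pow_pos (by omega))
    · rw [← hθ x j, Polynomial.aeval_algHom_apply (θ x), hp', map_zero]

lemma aeval_itv_mapD {A B : Type} [CommRing A] [Algebra K A] [CommRing B] [Algebra K B]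
    (φ : A →ₐ[K] B) (F : ι → Fin n → MvPolynomial (Fin n) K) (v : ℕ → ι)
    (w : Fin n → A) (k : ℕ)
    (G : MvPolynomial (Fin n) K) : φ (MvPolynomial.aeval (itv F v w k) G) =
      MvPolynomial.aeval (itv F v (fun j => φ (w j)) k) G := by
  rw [MvPolynomial.comp_aeval_apply]
  congr 2
  funext j
  exact itv_map φ F v w k j

/-- All coordinates and several forms. -/
lemma aff_absD {A : Type} [CommRing A] [IsDomain A] [Algebra K A] (hd : 2 ≤ d)
    {F : ι → Fin n → MvPolynomial (Fin n) K} (hF : ∀ c i, (F c i).IsHomogeneous d)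
    (u : Fin n → A) (Z : Set (Fin n → K)) (θ : Z → (A →ₐ[K] K))
    (hθ : ∀ x i, θ x (u i) = x.1 i) (hinj : ∀ a, (∀ x, θ x a = 0) → a = 0)
    (hQ : ∀ i j, ∃ Q : Polynomial (Polynomial K), Q ≠ 0 ∧ ∀ x ∈ Z, Q.evalEval (x j) (x i) = 0)
    (T : Finset (MvPolynomial (Fin n) K)) (hT : ∀ G ∈ T, ∃ e, G.IsHomogeneous e) :
    ∃ g : A, g ≠ 0 ∧ ∃ L : ℕ, ∀ G ∈ T, ∀ (v : ℕ → ι) k,
      (∃ y ∈ Z, MvPolynomial.aeval (itv F v y k) G ≠ 0) →
        ∃ B : Finset (Fin n → K), B.card ≤ (L * d ^ k) ^ n ∧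
        ∀ x : Z, θ x g ≠ 0 → MvPolynomial.aeval (itv F v x.1 k) G = 0 → x.1 ∈ B := by
  classical
  choose g hg h using coord_allD hd hF u Z θ hθ hinj hQ
  choose e he using hT
  have h' : ∀ (j : Fin n) (G : T), ∃ L : ℕ, ∀ (v : ℕ → ι) k,
      MvPolynomial.aeval (itv F v u k) G.1 ≠ 0 →
        ∃ p : Polynomial K, p ≠ 0 ∧ p.natDegree ≤ L * d ^ k ∧
          ∀ x : Z, θ x (g j) ≠ 0 → MvPolynomial.aeval (itv F v x.1 k) G.1 = 0 →
            Polynomial.aeval (x.1 j) p = 0 := fun j G => h j (e G.1 G.2) G.1 (he G.1 G.2)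
  choose L hL using h'
  refine ⟨∏ j, g j, Finset.prod_ne_zero_iff.2 fun j _ => hg j, ∑ j, ∑ G, L j G, ?_⟩
  intro G hG v k hy
  have h1 : MvPolynomial.aeval (itv F v u k) G ≠ 0 := by
    obtain ⟨y, hy, hy'⟩ := hy
    intro h2
    apply hy'
    have h3 := aeval_itv_mapD (θ ⟨y, hy⟩) F v u k G
    rw [h2, map_zero] at h3
    have h4 : (fun i => θ ⟨y, hy⟩ (u i)) = y := funext (hθ ⟨y, hy⟩)
    rw [h4] at h3
    exact h3.symm
  choose p hp hpd hpx using fun j => hL j ⟨G, hG⟩ v k h1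
  refine ⟨Fintype.piFinset fun j => (p j).roots.toFinset, ?_, fun x hx h0 => ?_⟩
  · rw [Fintype.card_piFinset]
    have h2 : ∀ j, (p j).roots.toFinset.card ≤ (∑ j, ∑ G, L j G) * d ^ k := by
      intro j
      refine (Multiset.toFinset_card_le _).trans ((Polynomial.card_roots' _).trans
        ((hpd j).trans (Nat.mul_le_mul_right _ ?_)))
      exact (Finset.single_le_sum (f := fun G => L j G) (fun _ _ => Nat.zero_le _)
        (Finset.mem_univ (⟨G, hG⟩ : T))).trans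
        (Finset.single_le_sum (f := fun j => ∑ G, L j G) (fun _ _ => Nat.zero_le _)
          (Finset.mem_univ j))
    refine (Finset.prod_le_pow_card _ _ _ fun j _ => h2 j).trans ?_
    rw [Finset.card_univ, Fintype.card_fin]
  · rw [map_prod, Finset.prod_ne_zero_iff] at hx
    rw [Fintype.mem_piFinset]
    intro j
    rw [Multiset.mem_toFinset, Polynomial.mem_roots (hp j), Polynomial.IsRoot.def]
    exact hpx j x (hx j (Finset.mem_univ j)) h0

/-- The affine step. -/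
theorem affineD (hd : 2 ≤ d)
    {F : ι → Fin n → MvPolynomial (Fin n) K} (hF : ∀ c i, (F c i).IsHomogeneous d)
    {Z : Set (Fin n → K)} (hne : Z.Nonempty)
    (hp : ∀ f g : MvPolynomial (Fin n) K, (∀ x ∈ Z, MvPolynomial.eval x (f * g) = 0) →
      (∀ x ∈ Z, MvPolynomial.eval x f = 0) ∨ ∀ x ∈ Z, MvPolynomial.eval x g = 0)
    (hQ : ∀ i j, ∃ Q : Polynomial (Polynomial K), Q ≠ 0 ∧ ∀ x ∈ Z, Q.evalEval (x j) (x i) = 0)
    (T : Finset (MvPolynomial (Fin n) K)) (hT : ∀ G ∈ T, ∃ e, G.IsHomogeneous e) :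
    ∃ g : MvPolynomial (Fin n) K, (∃ x ∈ Z, MvPolynomial.eval x g ≠ 0) ∧ ∃ L : ℕ,
      ∀ G ∈ T, ∀ (v : ℕ → ι) k, (∃ y ∈ Z, MvPolynomial.aeval (itv F v y k) G ≠ 0) →
        ∃ B : Finset (Fin n → K), B.card ≤ (L * d ^ k) ^ n ∧
        ∀ x ∈ Z, MvPolynomial.eval x g ≠ 0 → MvPolynomial.aeval (itv F v x k) G = 0 → x ∈ B := by
  classical
  set I : Ideal (MvPolynomial (Fin n) K) := MvPolynomial.vanishingIdeal K Z with hI
  have hmem : ∀ f : MvPolynomial (Fin n) K, f ∈ I ↔ ∀ x ∈ Z, MvPolynomial.eval x f = 0 := by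
    intro f
    rw [hI, MvPolynomial.mem_vanishingIdeal_iff]
    rfl
  have hprime : I.IsPrime := by
    refine ⟨fun h => ?_, fun {f g} h => ?_⟩
    · obtain ⟨x, hx⟩ := hne
      have h1 := (hmem 1).1 (by rw [h]; trivial) x hx
      rw [map_one] at h1
      exact one_ne_zero h1
    · rw [hmem, hmem]
      exact hp f g ((hmem _).1 h)
  let θ : Z → (MvPolynomial (Fin n) K ⧸ I →ₐ[K] K) := fun x =>
    Ideal.Quotient.liftₐ I (MvPolynomial.aeval x.1) (fun f hf => (hmem f).1 hf x.1 x.2)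
  have hθ1 : ∀ (x : Z) (f : MvPolynomial (Fin n) K),
      θ x (Ideal.Quotient.mk I f) = MvPolynomial.eval x.1 f := fun x f => rfl
  obtain ⟨g, hg, L, h⟩ := aff_absD (A := MvPolynomial (Fin n) K ⧸ I) hd hF
    (fun i => Ideal.Quotient.mk I (MvPolynomial.X i)) Z θ
    (fun x i => by rw [hθ1, MvPolynomial.eval_X])
    (fun a ha => by
      obtain ⟨f, rfl⟩ := Ideal.Quotient.mk_surjective a
      rw [Ideal.Quotient.eq_zero_iff_mem, hmem]
      intro x hx
      exact (hθ1 ⟨x, hx⟩ f).symm.trans (ha ⟨x, hx⟩)) hQ T hT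
  obtain ⟨g, rfl⟩ := Ideal.Quotient.mk_surjective g
  refine ⟨g, ?_, L, fun G hG v k hy => ?_⟩
  · by_contra hcon
    push Not at hcon
    exact hg (Ideal.Quotient.eq_zero_iff_mem.2 ((hmem g).2 hcon))
  · obtain ⟨B, hB, hB'⟩ := h G hG v k hy
    exact ⟨B, hB, fun x hx hgx h0 => hB' ⟨x, hx⟩ (by rw [hθ1]; exact hgx) h0⟩

lemma itv_isHomD {F : ι → Fin n → MvPolynomial (Fin n) K}
    (hF : ∀ c i, (F c i).IsHomogeneous d) (v : ℕ → ι) (k : ℕ) (i : Fin n) :
    (itv F v (fun j => (MvPolynomial.X j : MvPolynomial (Fin n) K)) k i).IsHomogeneous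
      (d ^ k) := by
  induction k generalizing i with
  | zero => exact MvPolynomial.isHomogeneous_X K i
  | succ k ih =>
    change (MvPolynomial.aeval (itv F v (fun j => (MvPolynomial.X j : MvPolynomial (Fin n) K)) k)
      (F (v k) i)).IsHomogeneous _
    rw [pow_succ]
    exact (hF (v k) i).aeval _ ih

lemma eval_aeval_itvD (F : ι → Fin n → MvPolynomial (Fin n) K) (v : ℕ → ι)
    (G : MvPolynomial (Fin n) K) (k : ℕ) (x : Fin n → K) :
    MvPolynomial.eval x (MvPolynomial.aeval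
      (itv F v (fun j => (MvPolynomial.X j : MvPolynomial (Fin n) K)) k) G) =
      MvPolynomial.aeval (itv F v x k) G := by
  have h1 := aeval_itv_mapD (MvPolynomial.aeval x : MvPolynomial (Fin n) K →ₐ[K] K) F v
    (fun j => (MvPolynomial.X j : MvPolynomial (Fin n) K)) k G
  have h2 : (fun j => (MvPolynomial.aeval x : MvPolynomial (Fin n) K →ₐ[K] K)
    (MvPolynomial.X j : MvPolynomial (Fin n) K)) = x := by
    funext j
    exact MvPolynomial.aeval_X x j
  rw [h2] at h1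
  exact h1

variable {X : Set (Projectivization K (Fin n → K))}
  {Φ : Projectivization K (Fin n → K) → Projectivization K (Fin n → K)}
  {F : ι → Fin n → MvPolynomial (Fin n) K}

/-- The number of the points of a nonperiodic irreducible curve in its preimages. -/
theorem cone_stepD (h : Chs d X Φ F) (hd : 2 ≤ d)
    {Z : Set (Fin n → K)} (hZ : IsCone Z) (hdim : Dm Z) (hirr : Irr Z) {l : Fin n}
    (hl : ∃ x ∈ Z, x l ≠ 0)
    (hper : ∀ m, 0 < m → ∃ x ∈ X, x.rep ∈ Z ∧ (Φ^[m] x).rep ∉ Z) :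
    ∃ (e : ℕ) (g : MvPolynomial (Fin n) K), g.IsHomogeneous e ∧
      (∃ x ∈ Z, MvPolynomial.eval x g ≠ 0) ∧
      ∃ L : ℕ, ∀ m, 0 < m → {x | x ∈ X ∧ x.rep ∈ Z ∧ (Φ^[m] x).rep ∈ Z ∧
        MvPolynomial.eval x.rep g ≠ 0}.encard ≤ ((L * d ^ m) ^ n : ℕ) := by
  classical
  obtain ⟨S, hS, hZS⟩ := hZ
  have hZ : IsCone Z := ⟨S, hS, hZS⟩
  obtain ⟨T, hT, hST⟩ := zs_finite S
  set Z' : Set (Fin n → K) := {x | x ∈ Z ∧ x l = 1} with hZ'
  have hne : Z'.Nonempty := by
    obtain ⟨x, hx, hxl⟩ := hl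
    exact ⟨(x l)⁻¹ • x, cone_smul hZ hx _, by
      rw [Pi.smul_apply, smul_eq_mul, inv_mul_cancel₀ hxl]⟩
  have h0Z : (0 : Fin n → K) ∈ Z := by
    obtain ⟨x, hx, -⟩ := hl
    have := cone_smul hZ hx 0
    rwa [zero_smul] at this
  obtain ⟨g, ⟨x0, hx0, hgx0⟩, L, hmain⟩ := affineD (Z := Z') hd h.hom hne
    (chart_prime hZ hirr hl)
    (fun i j => by
      obtain ⟨Q, hQ, hQ'⟩ := hdim i j l
      refine ⟨Q, hQ, fun x hx => ?_⟩
      have := hQ' x hx.1 (by rw [hx.2]; exact one_ne_zero)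
      rwa [hx.2, div_one, div_one] at this)
    T (fun G hG => hS G (hT hG))
  obtain ⟨e, g', hg', hgg'⟩ := homog l g
  refine ⟨e + 1, g' * MvPolynomial.X l, hg'.mul (MvPolynomial.isHomogeneous_X K l),
    ⟨x0, hx0.1, ?_⟩, L, ?_⟩
  · rw [map_mul, MvPolynomial.eval_X, hx0.2, mul_one, hgg' x0 hx0.2]
    exact hgx0
  · intro m hm
    -- the word and the form which does not vanish
    obtain ⟨z, hzX, hz, hmz⟩ := hper m hm
    obtain ⟨v, hv⟩ := h.word (by omega) hzX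
    have h2 : ∃ G ∈ T, MvPolynomial.eval (itv F v z.rep m) G ≠ 0 := by
      by_contra hcon
      push Not at hcon
      apply hmz
      rw [(hv m).mem hZ, hZS, hST]
      exact hcon
    obtain ⟨G, hG, hGz⟩ := h2
    obtain ⟨e', he'⟩ := hS G (hT hG)
    have h3 : ∃ y ∈ Z', MvPolynomial.aeval (itv F v y m) G ≠ 0 := by
      by_contra hcon
      push Not at hcon
      have h4 := van2 hZ hirr hl (g := MvPolynomial.aeval
        (itv F v (fun j => (MvPolynomial.X j : MvPolynomial (Fin n) K)) m) G)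
        (he'.aeval _ (itv_isHomD h.hom v m)) (fun y hy hyl => by
          rw [eval_aeval_itvD]
          exact hcon y ⟨hy, hyl⟩) z.rep hz
      rw [eval_aeval_itvD] at h4
      exact hGz h4
    obtain ⟨B, hB, hB'⟩ := hmain G hG v m h3
    have h4 : (fun x : Projectivization K (Fin n → K) => (x.rep l)⁻¹ • x.rep) ''
        {x | x ∈ X ∧ x.rep ∈ Z ∧ (Φ^[m] x).rep ∈ Z ∧
          MvPolynomial.eval x.rep (g' * MvPolynomial.X l) ≠ 0} ⊆ (B : Set (Fin n → K)) := by
      rintro _ ⟨p, ⟨hpX, hx, hmx, hgx⟩, rfl⟩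
      rw [map_mul, MvPolynomial.eval_X] at hgx
      have hxl : p.rep l ≠ 0 := right_ne_zero_of_mul hgx
      have hgx' : MvPolynomial.eval p.rep g' ≠ 0 := left_ne_zero_of_mul hgx
      have hyl : ((p.rep l)⁻¹ • p.rep) l = 1 := by
        rw [Pi.smul_apply, smul_eq_mul, inv_mul_cancel₀ hxl]
      refine hB' _ ⟨cone_smul hZ hx _, hyl⟩ ?_ ?_
      · rw [← hgg' _ hyl, eval_smul_hom hg']
        exact mul_ne_zero (pow_ne_zero _ (inv_ne_zero hxl)) hgx'
      · have h5 : itv F v ((p.rep l)⁻¹ • p.rep) m = (p.rep l)⁻¹ ^ d ^ m • itv F v p.rep m := by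
          funext i
          exact itv_hom h.hom v (p.rep l)⁻¹ p.rep m i
        have h7 : itv F v p.rep m ∈ Z := by
          rcases h.comp (by omega) hpX ⟨p.rep_nonzero, p.mk_rep⟩ v m with h8 | h8
          · rw [h8]
            exact h0Z
          · exact (h8.mem hZ).1 hmx
        have h9 : MvPolynomial.eval (itv F v p.rep m) G = 0 := by
          rw [hZS] at h7
          exact h7 G (hT hG)
        rw [h5]
        change MvPolynomial.eval _ G = 0
        rw [eval_smul_hom he', h9, mul_zero]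
    have h5 : Set.InjOn (fun x : Projectivization K (Fin n → K) => (x.rep l)⁻¹ • x.rep)
        {x | x ∈ X ∧ x.rep ∈ Z ∧ (Φ^[m] x).rep ∈ Z ∧
          MvPolynomial.eval x.rep (g' * MvPolynomial.X l) ≠ 0} := by
      rintro p ⟨-, -, -, hgp⟩ q ⟨-, -, -, hgq⟩ hpq
      rw [map_mul, MvPolynomial.eval_X] at hgp hgq
      have hpl : p.rep l ≠ 0 := right_ne_zero_of_mul hgp
      have hql : q.rep l ≠ 0 := right_ne_zero_of_mul hgq
      have hpq' : (p.rep l)⁻¹ • p.rep = (q.rep l)⁻¹ • q.rep := hpq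
      rw [← p.mk_rep, ← q.mk_rep, Projectivization.mk_eq_mk_iff']
      refine ⟨p.rep l * (q.rep l)⁻¹, ?_⟩
      rw [mul_smul, ← hpq', smul_inv_smul₀ hpl]
    rw [← h5.encard_image]
    refine (Set.encard_le_encard h4).trans ?_
    rw [Set.encard_coe_eq_coe_finsetCard]
    exact_mod_cast hB

end affD

end Pool.Agent.Q170.HG
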