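import Mathlib

set_option autoImplicit false

/-!
# Heights along orbits of endomorphisms of projective space

`dich`: over a number field, for every endomorphism of degree at least two there is `M` such that
every point is preperiodic with tail and period at most `M`, or the height of its `n`-th iterate is
at least `d ^ (n - M)`.
-/

namespace Pool.Agent.Q170.HG

open MvPolynomial Height

attribute [local instance] MvPolynomial.gradedAlgebra

section cert

lemma hc_mul {σ L : Type*} [Field L] (a b : MvPolynomial σ L) {e k : ℕ}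
    (hb : b.IsHomogeneous e) (h : e ≤ k) :
    homogeneousComponent k (a * b) = homogeneousComponent (k - e) a * b := by
  classical
  have h1 := DirectSum.coe_decompose_mul_of_right_mem_of_le
    (𝒜 := homogeneousSubmodule σ L) (a := a) (b := b) (n := k) (i := e)
    ((mem_homogeneousSubmodule _ _).mpr hb) h
  have h2 : ∀ (φ : MvPolynomial σ L) (i : ℕ),
      ((DirectSum.decompose (homogeneousSubmodule σ L) φ) i : MvPolynomial σ L)
        = homogeneousComponent i φ := decomposition.decompose'_apply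
  rw [h2, h2] at h1
  exact h1

variable {K : Type} [Field K] {n d : ℕ}

/-- The self-map of the affine space given by a system of polynomials. -/
noncomputable def pt (F : Fin n → MvPolynomial (Fin n) K) (x : Fin n → K) : Fin n → K := fun i => eval x (F i)

/-- The system `F` of forms of degree `d` has no common zero but `0` over the algebraic closure: it
defines an endomorphism of the projective space. -/
def IsEndo (d : ℕ) (F : Fin n → MvPolynomial (Fin n) K) : Prop :=
  (∀ i, (F i).IsHomogeneous d) ∧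
    ∀ x : Fin n → AlgebraicClosure K, (∀ i, aeval x (F i) = 0) → x = 0

theorem cert {F : Fin n → MvPolynomial (Fin n) K} (hF : IsEndo d F) :
    ∃ (M : ℕ) (q : Fin n × Fin n → MvPolynomial (Fin n) K), (∀ a, (q a).IsHomogeneous M) ∧
      ∀ k, ∑ j, q (k, j) * F j = X k ^ (M + d) := by
  classical
  have h1 : ∀ k : Fin n, ∃ m : ℕ, (X k : MvPolynomial (Fin n) K) ^ m ∈
      Ideal.span (Set.range F) := by
    intro k
    have h2 : (X k : MvPolynomial (Fin n) K) ∈ (Ideal.span (Set.range F)).radical := by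
      rw [← vanishingIdeal_zeroLocus_eq_radical (K := AlgebraicClosure K),
        mem_vanishingIdeal_iff]
      intro y hy
      rw [mem_zeroLocus_iff] at hy
      have h3 := hF.2 y fun i => hy _ (Ideal.subset_span ⟨i, rfl⟩)
      rw [aeval_X, h3]
      rfl
    exact h2
  choose m hm using h1
  have h2 : ∀ k : Fin n, (X k : MvPolynomial (Fin n) K) ^ (∑ l, m l + d) ∈
      Ideal.span (Set.range F) := by
    intro k
    refine Ideal.mem_of_dvd _ (pow_dvd_pow _ ?_) (hm k)
    exact (Finset.single_le_sum (f := m) (fun _ _ => Nat.zero_le _) (Finset.mem_univ k)).trans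
      (Nat.le_add_right _ _)
  have h3 : ∀ k : Fin n, ∃ h : Fin n → MvPolynomial (Fin n) K,
      (∀ i, (h i).IsHomogeneous (∑ l, m l)) ∧ ∑ i, h i * F i = X k ^ (∑ l, m l + d) := by
    intro k
    obtain ⟨c, hc⟩ := Ideal.mem_span_range_iff_exists_fun.mp (h2 k)
    have h4 : (X k ^ (∑ l, m l + d) : MvPolynomial (Fin n) K).IsHomogeneous (∑ l, m l + d) := by
      have := (isHomogeneous_X K k).pow (∑ l, m l + d)
      rwa [one_mul] at this
    refine ⟨fun i => homogeneousComponent (∑ l, m l) (c i),
      fun i => homogeneousComponent_isHomogeneous _ _, ?_⟩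
    rw [← homogeneousComponent_eq_self h4, ← hc, map_sum]
    refine Finset.sum_congr rfl fun i _ => ?_
    rw [hc_mul _ _ (hF.1 i) (Nat.le_add_left _ _), Nat.add_sub_cancel]
  choose q hq hq' using h3
  exact ⟨∑ l, m l, fun a => q a.1 a.2, fun a => hq a.1 a.2, hq'⟩

end cert

section growth

variable {K : Type} [Field K] [NumberField K] {n d : ℕ}

theorem lower {F : Fin n → MvPolynomial (Fin n) K} (hF : IsEndo d F) :
    ∃ c : ℝ, 0 ≤ c ∧ ∀ x : Fin n → K, d * logHeight x - c ≤ logHeight (pt F x) := by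
  obtain ⟨M, q, hq, h⟩ := cert hF
  obtain ⟨C, hC⟩ := logHeight_eval_ge' (N := d) hq
  refine ⟨|C|, abs_nonneg _, fun x => ?_⟩
  have h1 := hC F (x := x) fun k => by
    have h2 := congrArg (eval x) (h k)
    simpa only [map_sum, map_mul, map_pow, eval_X] using h2
  have h3 : logHeight (pt F x) = logHeight fun j => eval x (F j) := rfl
  rw [h3]
  have h4 := neg_abs_le C
  linarith

theorem growth {F : Fin n → MvPolynomial (Fin n) K} (hF : IsEndo d F) (hd : 2 ≤ d) :
    ∃ c : ℝ, 0 ≤ c ∧ ∀ x : Fin n → K, c + 1 ≤ logHeight x →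
      ∀ j : ℕ, (d : ℝ) ^ j ≤ logHeight ((pt F)^[j] x) := by
  obtain ⟨c, hc0, hc⟩ := lower hF
  refine ⟨c, hc0, fun x hx j => ?_⟩
  have hd' : (2 : ℝ) ≤ d := by exact_mod_cast hd
  have h1 : c + (d : ℝ) ^ j ≤ logHeight ((pt F)^[j] x) := by
    induction j with
    | zero => simpa using hx
    | succ j ih =>
      rw [Function.iterate_succ_apply']
      refine le_trans ?_ (hc _)
      have h2 := mul_le_mul_of_nonneg_left ih (by linarith : (0 : ℝ) ≤ d)
      rw [pow_succ]
      nlinarith
  linarith

/-- A normal form for the points of the projective space. -/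
noncomputable def nf {K : Type} [Field K] {n : ℕ} (x : Fin n → K) : Fin n → K := by
  classical
  exact if h : ∃ l, x l ≠ 0 then (x h.choose)⁻¹ • x else 0

lemma nf_spec {K : Type} [Field K] {n : ℕ} {x : Fin n → K} (hx : x ≠ 0) :
    ∃ l, x l ≠ 0 ∧ nf x = (x l)⁻¹ • x := by
  classical
  have h : ∃ l, x l ≠ 0 := Function.ne_iff.1 hx
  refine ⟨h.choose, h.choose_spec, ?_⟩
  rw [nf, dif_pos h]

lemma nf_eq {K : Type} [Field K] {n : ℕ} {x y : Fin n → K} (hx : x ≠ 0) (hy : y ≠ 0)
    (h : nf x = nf y) : ∃ c : K, c ≠ 0 ∧ y = c • x := by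
  obtain ⟨l, hl, h1⟩ := nf_spec hx
  obtain ⟨l', hl', h2⟩ := nf_spec hy
  refine ⟨y l' * (x l)⁻¹, mul_ne_zero hl' (inv_ne_zero hl), ?_⟩
  rw [mul_smul, ← h1, h, h2, smul_inv_smul₀ hl']

lemma nf_height {x : Fin n → K} (hx : x ≠ 0) (j : Fin n) :
    mulHeight₁ (nf x j) ≤ mulHeight x := by
  obtain ⟨l, hl, h1⟩ := nf_spec hx
  have h2 : mulHeight (nf x) = mulHeight x := by
    rw [h1, mulHeight_smul_eq_mulHeight _ (inv_ne_zero hl)]
  have h3 : nf x l = 1 := by
    rw [h1, Pi.smul_apply, smul_eq_mul, inv_mul_cancel₀ hl]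
  rw [mulHeight₁_eq_mulHeight, ← h2]
  have h4 : ![nf x j, 1] = nf x ∘ ![j, l] := by
    funext i
    fin_cases i
    · rfl
    · exact h3.symm
  rw [h4]
  exact mulHeight_comp_le _ _

lemma northcott (B : ℝ) : {x : Fin n → K | ∀ j, mulHeight₁ (x j) ≤ B}.Finite := by
  have h1 := Set.Finite.pi' (t := fun _ : Fin n => {y : K | mulHeight₁ y ≤ B})
    fun _ => NumberField.finite_setOfPred_mulHeight₁_le K B
  exact h1.subset fun x hx => hx

lemma iter_ne {F : Fin n → MvPolynomial (Fin n) K} (hF : IsEndo d F) {x : Fin n → K}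
    (hx : x ≠ 0) (j : ℕ) : (pt F)^[j] x ≠ 0 := by
  induction j with
  | zero => exact hx
  | succ j ih =>
    rw [Function.iterate_succ_apply']
    intro h
    apply ih
    have h1 := hF.2 (fun i => algebraMap K (AlgebraicClosure K) ((pt F)^[j] x i)) fun i => by
      refine (aeval_algebraMap_apply (AlgebraicClosure K) ((pt F)^[j] x) (F i)).trans ?_
      have h2 : aeval ((pt F)^[j] x) (F i) = 0 := congrFun h i
      rw [h2, map_zero]
    funext i
    have h3 := congrFun h1 i
    exact (map_eq_zero _).1 h3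

/-- A point is preperiodic with small tail and period, or its height grows. -/
theorem dich {F : Fin n → MvPolynomial (Fin n) K} (hF : IsEndo d F) (hd : 2 ≤ d) :
    ∃ M : ℕ, ∀ x : Fin n → K, x ≠ 0 →
      (∃ t m : ℕ, 0 < m ∧ t + m ≤ M ∧ ∃ c : K, c ≠ 0 ∧ (pt F)^[t + m] x = c • (pt F)^[t] x) ∨
      ∀ j, M ≤ j → (d : ℝ) ^ (j - M) ≤ logHeight ((pt F)^[j] x) := by
  classical
  obtain ⟨c, hc0, hc⟩ := growth hF hd
  have hfin := northcott (K := K) (n := n) (Real.exp (c + 1))
  refine ⟨hfin.toFinset.card, fun x hx => ?_⟩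
  by_cases h : ∃ i, i ≤ hfin.toFinset.card ∧ c + 1 ≤ logHeight ((pt F)^[i] x)
  · right
    intro j hj
    obtain ⟨i, hi, h1⟩ := h
    have h2 := hc _ h1 (j - i)
    rw [← Function.iterate_add_apply, Nat.sub_add_cancel (hi.trans hj)] at h2
    refine le_trans ?_ h2
    exact pow_le_pow_right₀ (by exact_mod_cast (by omega : 1 ≤ d)) (by omega)
  · left
    push Not at h
    have h1 : ∀ i ∈ Finset.range (hfin.toFinset.card + 1),
        nf ((pt F)^[i] x) ∈ hfin.toFinset := by
      intro i hi
      rw [Set.Finite.mem_toFinset]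
      intro j
      refine (nf_height (iter_ne hF hx i) j).trans ?_
      have h2 := h i (Nat.lt_succ_iff.1 (Finset.mem_range.1 hi))
      rw [logHeight_eq_log_mulHeight] at h2
      have h3 := Real.exp_le_exp.2 h2.le
      rwa [Real.exp_log (mulHeight_pos _)] at h3
    obtain ⟨i, hi, i', hi', hne, heq⟩ := Finset.exists_ne_map_eq_of_card_lt_of_maps_to
      (by rw [Finset.card_range]; exact Nat.lt_succ_self _) h1
    rw [Finset.mem_range] at hi hi'
    have key : ∀ a b : ℕ, a < b → b < hfin.toFinset.card + 1 →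
        nf ((pt F)^[a] x) = nf ((pt F)^[b] x) →
        ∃ t m : ℕ, 0 < m ∧ t + m ≤ hfin.toFinset.card ∧
          ∃ c : K, c ≠ 0 ∧ (pt F)^[t + m] x = c • (pt F)^[t] x := by
      intro a b hab hb he
      obtain ⟨c', hc', h4⟩ := nf_eq (iter_ne hF hx a) (iter_ne hF hx b) he
      refine ⟨a, b - a, by omega, by omega, c', hc', ?_⟩
      rw [show a + (b - a) = b by omega, h4]
    rcases lt_or_gt_of_ne hne with h4 | h4
    · exact key i i' h4 hi' heq
    · exact key i' i h4 hi heq.symm

end growth

end Pool.Agent.Q170.HG
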