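import Mathlib

set_option autoImplicit false

/-!
# Finite unions of progressions and of sets whose elements double
-/

namespace Pool.Agent.Q170.HG

/-- A progression of modulus at most `C`, or a set whose elements double up to `C`. -/
def Piece (C : ℕ) (s : Set ℕ) : Prop :=
  (∃ a m, 0 < m ∧ m ≤ C ∧ s = {n | ∃ j, n = a + m * j}) ∨
    ∀ a ∈ s, ∀ b ∈ s, a < b → 2 * a ≤ b + C

/-- A union of `C` pieces. -/
def Good (C : ℕ) (S : Set ℕ) : Prop :=
  ∃ s : Fin C → Set ℕ, (∀ i, Piece C (s i)) ∧ S = ⋃ i, s i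

lemma piece_mono {C C' : ℕ} (h : C ≤ C') {s : Set ℕ} (hs : Piece C s) : Piece C' s := by
  rcases hs with ⟨a, m, h1, h2, h3⟩ | h1
  · exact Or.inl ⟨a, m, h1, h2.trans h, h3⟩
  · exact Or.inr fun a ha b hb hab => (h1 a ha b hb hab).trans (by omega)

lemma piece_empty (C : ℕ) : Piece C ∅ := Or.inr fun a ha => absurd ha (Set.notMem_empty a)

lemma good_of {ι : Type} [Fintype ι] {C : ℕ} (hC : Fintype.card ι ≤ C) (s : ι → Set ℕ)
    (hs : ∀ i, Piece C (s i)) : Good C (⋃ i, s i) := by
  classical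
  let e := Fintype.equivFin ι
  refine ⟨fun k => if h : k.1 < Fintype.card ι then s (e.symm ⟨k.1, h⟩) else ∅, fun k => ?_, ?_⟩
  · by_cases h : k.1 < Fintype.card ι
    · simp only [h, dif_pos]
      exact hs _
    · simp only [h, dif_neg, not_false_iff]
      exact piece_empty _
  · ext x
    simp only [Set.mem_iUnion]
    constructor
    · rintro ⟨i, hi⟩
      have h1 := (e i).2
      refine ⟨⟨(e i).1, h1.trans_le hC⟩, ?_⟩
      simp only [h1, dif_pos, Fin.eta, Equiv.symm_apply_apply]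
      exact hi
    · rintro ⟨k, hk⟩
      by_cases h : k.1 < Fintype.card ι
      · simp only [h, dif_pos] at hk
        exact ⟨_, hk⟩
      · simp only [h, dif_neg, not_false_iff] at hk
        exact absurd hk (Set.notMem_empty x)

lemma good_mono {C C' : ℕ} (h : C ≤ C') {S : Set ℕ} (hS : Good C S) : Good C' S := by
  obtain ⟨s, hs, rfl⟩ := hS
  exact good_of (by rwa [Fintype.card_fin]) s fun i => piece_mono h (hs i)

lemma good_union {C C' : ℕ} {S S' : Set ℕ} (hS : Good C S) (hS' : Good C' S') :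
    Good (C + C') (S ∪ S') := by
  obtain ⟨s, hs, rfl⟩ := hS
  obtain ⟨s', hs', rfl⟩ := hS'
  have h1 := good_of (ι := Fin C ⊕ Fin C') (C := C + C') (by simp) (Sum.elim s s')
    (by
      rintro (i | i)
      · exact piece_mono (Nat.le_add_right _ _) (hs i)
      · exact piece_mono (Nat.le_add_left _ _) (hs' i))
  rwa [Set.iUnion_sumElim] at h1

lemma good_empty (C : ℕ) : Good C ∅ := by
  refine ⟨fun _ => ∅, fun _ => piece_empty _, ?_⟩
  simp

lemma good_dbl {C : ℕ} {S : Set ℕ} (h : ∀ a ∈ S, ∀ b ∈ S, a < b → 2 * a ≤ b + C) :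
    Good (C + 1) S := by
  have h1 := good_of (ι := Unit) (C := C + 1) (by simp) (fun _ => S)
    (fun _ => Or.inr fun a ha b hb hab => (h a ha b hb hab).trans (by omega))
  rwa [Set.iUnion_const] at h1

lemma good_per {m : ℕ} (hm : 0 < m) {S : Set ℕ} (h : ∀ n ∈ S, n + m ∈ S) : Good m S := by
  classical
  have h2 : ∀ (n : ℕ), n ∈ S → ∀ j, n + m * j ∈ S := by
    intro n hn j
    induction j with
    | zero => simpa using hn
    | succ j ih =>
      have := h _ ih
      rwa [add_assoc, ← Nat.mul_succ] at this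
  have h1 := good_of (ι := Fin m) (C := m) (by simp) (fun r => {n | n ∈ S ∧ n % m = r.1}) ?_
  · convert h1 using 1
    ext x
    simp only [Set.mem_iUnion, Set.mem_setOf_eq]
    constructor
    · intro hx
      exact ⟨⟨x % m, Nat.mod_lt _ hm⟩, hx, rfl⟩
    · rintro ⟨_, hx, _⟩
      exact hx
  · intro r
    by_cases hr : ∃ n, n ∈ S ∧ n % m = r.1
    · left
      refine ⟨Nat.find hr, m, hm, le_rfl, ?_⟩
      obtain ⟨h3, h4⟩ := Nat.find_spec hr
      ext x
      simp only [Set.mem_setOf_eq]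
      constructor
      · rintro ⟨hx, hxr⟩
        have h5 : Nat.find hr ≤ x := Nat.find_min' hr ⟨hx, hxr⟩
        have h6 : m ∣ x - Nat.find hr := (Nat.modEq_iff_dvd' h5).1 (by
          change Nat.find hr % m = x % m
          rw [h4, hxr])
        obtain ⟨j, hj⟩ := h6
        exact ⟨j, by omega⟩
      · rintro ⟨j, rfl⟩
        exact ⟨h2 _ h3 j, by rw [Nat.add_mul_mod_self_left, h4]⟩
    · right
      intro a ha
      exact absurd ⟨a, ha⟩ hr

lemma good_evper {t m : ℕ} (hm : 0 < m) {S : Set ℕ} (h : ∀ n ∈ S, t ≤ n → n + m ∈ S) :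
    Good (t + m) S := by
  classical
  have h1 : Good m {n | n ∈ S ∧ t ≤ n} := good_per hm fun n hn => ⟨h n hn.1 hn.2, by
    have := hn.2
    omega⟩
  have h2 : Good t {n | n ∈ S ∧ n < t} := by
    have h3 := good_of (ι := Fin t) (C := t) (by simp) (fun r => {n | n ∈ S ∧ n = r.1}) ?_
    · convert h3 using 1
      ext x
      simp only [Set.mem_iUnion, Set.mem_setOf_eq]
      constructor
      · rintro ⟨hx, hx'⟩
        exact ⟨⟨x, hx'⟩, hx, rfl⟩
      · rintro ⟨i, hx, hx'⟩
        exact ⟨hx, by rw [hx']; exact i.2⟩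
    · intro r
      right
      intro a ha b hb hab
      have h4 : a = r.1 := ha.2
      have h5 : b = r.1 := hb.2
      omega
  have h3 := good_union h2 h1
  convert h3 using 1
  ext x
  simp only [Set.mem_union, Set.mem_setOf_eq]
  constructor
  · intro hx
    rcases lt_or_ge x t with h4 | h4
    · exact Or.inl ⟨hx, h4⟩
    · exact Or.inr ⟨hx, h4⟩
  · rintro (hx | hx)
    · exact hx.1
    · exact hx.1

end Pool.Agent.Q170.HG
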