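import Pool.Agent.Q170.HG.Aff
import Pool.Agent.Q170.HG.Grow
import Pool.Agent.Q170.HG.Pieces
import Pool.Agent.Q170.HG.Cone

set_option autoImplicit false

/-!
# The returns of an orbit to a curve
-/

namespace Pool.Agent.Q170.HG

open MvPolynomial Height NumberField

section main

variable {K : Type} [Field K] [NumberField K] {n d : ℕ}

lemma int_one {e : ℕ} {G : MvPolynomial (Fin n) K} (hG : G.IsHomogeneous e) :
    ∃ b : 𝓞 K, b ≠ 0 ∧ ∃ G0 : MvPolynomial (Fin n) (𝓞 K), G0.IsHomogeneous e ∧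
      MvPolynomial.map (algebraMap (𝓞 K) K) G0 = C (algebraMap (𝓞 K) K b) * G := by
  obtain ⟨b, hb, q, hq⟩ := ls_mv (ls_frac (R := 𝓞 K) (K := K)) G
  refine ⟨b, hb, q, ?_, hq⟩
  apply IsHomogeneous.of_map (FaithfulSMul.algebraMap_injective (𝓞 K) K)
  rw [hq]
  exact hG.C_mul _

lemma int_fam {F : Fin n → MvPolynomial (Fin n) K} (hF : ∀ i, (F i).IsHomogeneous d) :
    ∃ b : 𝓞 K, b ≠ 0 ∧ ∃ F0 : Fin n → MvPolynomial (Fin n) (𝓞 K),
      (∀ i, (F0 i).IsHomogeneous d) ∧
      ∀ i, MvPolynomial.map (algebraMap (𝓞 K) K) (F0 i) = C (algebraMap (𝓞 K) K b) * F i := by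
  classical
  choose b hb F0 hF0 h using fun i => int_one (hF i)
  refine ⟨∏ i, b i, Finset.prod_ne_zero_iff.2 fun i _ => hb i,
    fun i => C (∏ j ∈ Finset.univ.erase i, b j) * F0 i, fun i => (hF0 i).C_mul _, fun i => ?_⟩
  rw [map_mul, map_C, h i, ← mul_assoc, ← C_mul, ← map_mul,
    mul_comm (∏ j ∈ Finset.univ.erase i, b j), Finset.mul_prod_erase _ _ (Finset.mem_univ i)]

lemma aeval_int {G0 : MvPolynomial (Fin n) (𝓞 K)} {G : MvPolynomial (Fin n) K} {b : K}
    (h : MvPolynomial.map (algebraMap (𝓞 K) K) G0 = C b * G) (y : Fin n → K) :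
    MvPolynomial.aeval y G0 = b * eval y G := by
  rw [MvPolynomial.aeval_def, ← MvPolynomial.eval_map, h, map_mul, eval_C]

lemma iter_scale {F : Fin n → MvPolynomial (Fin n) K} {F0 : Fin n → MvPolynomial (Fin n) (𝓞 K)}
    {b : K} (hb : b ≠ 0) (hF : ∀ i, (F i).IsHomogeneous d)
    (h : ∀ i, MvPolynomial.map (algebraMap (𝓞 K) K) (F0 i) = C b * F i) (x : Fin n → K) (k : ℕ) :
    ∃ c : K, c ≠ 0 ∧ itw F0 x k = c • (pt F)^[k] x := by
  induction k with
  | zero => exact ⟨1, one_ne_zero, by rw [one_smul]; rfl⟩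
  | succ k ih =>
    obtain ⟨c, hc, hk⟩ := ih
    refine ⟨b * c ^ d, mul_ne_zero hb (pow_ne_zero _ hc), ?_⟩
    funext i
    rw [Function.iterate_succ_apply']
    change MvPolynomial.aeval (itw F0 x k) (F0 i) = b * c ^ d * eval ((pt F)^[k] x) (F i)
    rw [aeval_int (h i), hk, eval_smul_hom (hF i), mul_assoc]

lemma itw_isHom {F0 : Fin n → MvPolynomial (Fin n) (𝓞 K)} (hF : ∀ i, (F0 i).IsHomogeneous d)
    (k : ℕ) (i : Fin n) :
    (itw F0 (fun j => (X j : MvPolynomial (Fin n) K)) k i).IsHomogeneous (d ^ k) := by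
  induction k generalizing i with
  | zero => exact isHomogeneous_X K i
  | succ k ih =>
    change (MvPolynomial.aeval (itw F0 (fun j => (X j : MvPolynomial (Fin n) K)) k)
      (F0 i)).IsHomogeneous _
    rw [pow_succ]
    exact (hF i).aeval _ ih

lemma eval_aeval_itw (F0 : Fin n → MvPolynomial (Fin n) (𝓞 K)) (G0 : MvPolynomial (Fin n) (𝓞 K))
    (k : ℕ) (x : Fin n → K) :
    eval x (MvPolynomial.aeval (itw F0 (fun j => (X j : MvPolynomial (Fin n) K)) k) G0) =
      MvPolynomial.aeval (itw F0 x k) G0 := by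
  have h1 := aeval_itw_map ((MvPolynomial.aeval x : MvPolynomial (Fin n) K →ₐ[K] K).restrictScalars
    (𝓞 K)) F0 (fun j => (X j : MvPolynomial (Fin n) K)) k G0
  have h2 : (fun j => ((MvPolynomial.aeval x : MvPolynomial (Fin n) K →ₐ[K] K).restrictScalars
    (𝓞 K)) (X j : MvPolynomial (Fin n) K)) = x := by
    funext j
    exact MvPolynomial.aeval_X x j
  rw [h2] at h1
  exact h1

/-- The dimension of the closed set is at most one. -/
def Dm (Z : Set (Fin n → K)) : Prop :=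
  ∀ i j l, ∃ Q : Polynomial (Polynomial K), Q ≠ 0 ∧
    ∀ x ∈ Z, x l ≠ 0 → Q.evalEval (x j / x l) (x i / x l) = 0

/-- The height of the points of a nonperiodic irreducible curve in its preimages. -/
theorem cone_step {F : Fin n → MvPolynomial (Fin n) K} (hF : IsEndo d F) (hd : 2 ≤ d)
    {Z : Set (Fin n → K)} (hZ : IsCone Z) (hdim : Dm Z) (hirr : Irr Z) {l : Fin n}
    (hl : ∃ x ∈ Z, x l ≠ 0) (hper : ∀ m, 0 < m → ∃ x ∈ Z, (pt F)^[m] x ∉ Z) :
    ∃ (e : ℕ) (g : MvPolynomial (Fin n) K), g.IsHomogeneous e ∧ (∃ x ∈ Z, eval x g ≠ 0) ∧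
      ∃ C : ℝ, 1 ≤ C ∧ ∀ m, 0 < m → ∀ x ∈ Z, (pt F)^[m] x ∈ Z → eval x g ≠ 0 →
        mulHeight x ≤ C ^ d ^ m := by
  classical
  obtain ⟨S, hS, hZS⟩ := hZ
  have hZ : IsCone Z := ⟨S, hS, hZS⟩
  obtain ⟨T, hT, hST⟩ := zs_finite S
  obtain ⟨b, hb, F0, hF0, hFF⟩ := int_fam hF.1
  have hbK : (algebraMap (𝓞 K) K b) ≠ 0 := fun h =>
    hb (FaithfulSMul.algebraMap_injective (𝓞 K) K (by rw [h, map_zero]))
  have h1 : ∀ G : T, ∃ (b : 𝓞 K) (G0 : MvPolynomial (Fin n) (𝓞 K)), b ≠ 0 ∧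
      (∃ e, G0.IsHomogeneous e) ∧
      MvPolynomial.map (algebraMap (𝓞 K) K) G0 = C (algebraMap (𝓞 K) K b) * G.1 := by
    intro G
    obtain ⟨e, he⟩ := hS G.1 (hT G.2)
    obtain ⟨b, hb, G0, hG0, h⟩ := int_one he
    exact ⟨b, G0, hb, ⟨e, hG0⟩, h⟩
  choose bT GT hbT hGT hmT using h1
  have hbTK : ∀ G, (algebraMap (𝓞 K) K (bT G)) ≠ 0 := fun G h =>
    hbT G (FaithfulSMul.algebraMap_injective (𝓞 K) K (by rw [h, map_zero]))
  set Z' : Set (Fin n → K) := {x | x ∈ Z ∧ x l = 1} with hZ'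
  have hne : Z'.Nonempty := by
    obtain ⟨x, hx, hxl⟩ := hl
    exact ⟨(x l)⁻¹ • x, cone_smul hZ hx _, by
      rw [Pi.smul_apply, smul_eq_mul, inv_mul_cancel₀ hxl]⟩
  obtain ⟨g, ⟨x0, hx0, hgx0⟩, Cc, hCc, hmain⟩ := affine (Z := Z') hd hF0 hne
    (chart_prime hZ hirr hl)
    (fun i j => by
      obtain ⟨Q, hQ, hQ'⟩ := hdim i j l
      refine ⟨Q, hQ, fun x hx => ?_⟩
      have := hQ' x hx.1 (by rw [hx.2]; exact one_ne_zero)
      rwa [hx.2, div_one, div_one] at this)
    (Finset.univ.image GT)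
    (fun G hG => by
      obtain ⟨G', _, rfl⟩ := Finset.mem_image.1 hG
      exact hGT G')
  obtain ⟨e, g', hg', hgg'⟩ := homog l g
  refine ⟨e + 1, g' * X l, hg'.mul (isHomogeneous_X K l), ⟨x0, hx0.1, ?_⟩, Cc, hCc, ?_⟩
  · rw [map_mul, eval_X, hx0.2, mul_one, hgg' x0 hx0.2]
    exact hgx0
  · intro m hm x hx hmx hgx
    rw [map_mul, eval_X] at hgx
    have hxl : x l ≠ 0 := right_ne_zero_of_mul hgx
    have hgx' : eval x g' ≠ 0 := left_ne_zero_of_mul hgx
    set y : Fin n → K := (x l)⁻¹ • x with hy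
    have hyl : y l = 1 := by rw [hy, Pi.smul_apply, smul_eq_mul, inv_mul_cancel₀ hxl]
    have hyZ : y ∈ Z := cone_smul hZ hx _
    have hgy : eval y g ≠ 0 := by
      rw [← hgg' y hyl, hy, eval_smul_hom hg']
      exact mul_ne_zero (pow_ne_zero _ (inv_ne_zero hxl)) hgx'
    -- the form which does not vanish
    obtain ⟨z, hz, hmz⟩ := hper m hm
    have h2 : ∃ G ∈ T, eval ((pt F)^[m] z) G ≠ 0 := by
      by_contra hcon
      push Not at hcon
      apply hmz
      rw [hZS, hST]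
      exact hcon
    obtain ⟨G, hG, hGz⟩ := h2
    have h3 : ∃ y ∈ Z', MvPolynomial.aeval (itw F0 y m) (GT ⟨G, hG⟩) ≠ 0 := by
      by_contra hcon
      push Not at hcon
      obtain ⟨e', he'⟩ := hGT ⟨G, hG⟩
      have h4 := van2 hZ hirr hl (g := MvPolynomial.aeval
        (itw F0 (fun j => (X j : MvPolynomial (Fin n) K)) m) (GT ⟨G, hG⟩))
        (he'.aeval _ (itw_isHom hF0 m)) (fun y hy hyl => by
          rw [eval_aeval_itw]
          exact hcon y ⟨hy, hyl⟩) z hz
      rw [eval_aeval_itw, aeval_int (hmT ⟨G, hG⟩)] at h4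
      obtain ⟨c, hc, h5⟩ := iter_scale hbK hF.1 hFF z m
      obtain ⟨e'', he''⟩ := hS G (hT hG)
      rw [h5, eval_smul_hom he''] at h4
      exact mul_ne_zero (hbTK ⟨G, hG⟩) (mul_ne_zero (pow_ne_zero _ hc) hGz) h4
    have h4 : MvPolynomial.aeval (itw F0 y m) (GT ⟨G, hG⟩) = 0 := by
      obtain ⟨e'', he''⟩ := hS G (hT hG)
      have h5 : itw F0 y m = (x l)⁻¹ ^ d ^ m • itw F0 x m := by
        funext i
        exact itw_hom hF0 (x l)⁻¹ x m i
      obtain ⟨c, hc, h6⟩ := iter_scale hbK hF.1 hFF x m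
      rw [aeval_int (hmT ⟨G, hG⟩), h5, h6, eval_smul_hom he'', eval_smul_hom he'']
      have h7 : eval ((pt F)^[m] x) G = 0 := by
        rw [hZS] at hmx
        exact hmx G (hT hG)
      rw [h7, mul_zero, mul_zero, mul_zero]
    have h5 := hmain (GT ⟨G, hG⟩) (Finset.mem_image_of_mem _ (Finset.mem_univ _)) m h3 y
      ⟨hyZ, hyl⟩ hgy h4
    rwa [hy, mulHeight_smul_eq_mulHeight _ (inv_ne_zero hxl)] at h5

lemma pt_smul {F : Fin n → MvPolynomial (Fin n) K} (hF : ∀ i, (F i).IsHomogeneous d) (c : K)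
    (x : Fin n → K) (k : ℕ) : (pt F)^[k] (c • x) = c ^ d ^ k • (pt F)^[k] x := by
  induction k with
  | zero => rw [pow_zero, pow_one]; rfl
  | succ k ih =>
    rw [Function.iterate_succ_apply', Function.iterate_succ_apply', ih]
    funext i
    change eval (c ^ d ^ k • (pt F)^[k] x) (F i) = c ^ d ^ (k + 1) * eval ((pt F)^[k] x) (F i)
    rw [eval_smul_hom (hF i), ← pow_mul, ← pow_succ]

/-- The theorem for cones. -/
theorem cone_main {F : Fin n → MvPolynomial (Fin n) K} (hF : IsEndo d F) (hd : 2 ≤ d) :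
    ∀ Z, IsCone Z → Dm Z → ∃ C : ℕ, ∀ α : Fin n → K, α ≠ 0 → Good C {k | (pt F)^[k] α ∈ Z} := by
  classical
  obtain ⟨M, hM⟩ := dich hF hd
  refine cone_ind fun Z hZ ih hdim => ?_
  have hsub : ∀ Z1 : Set (Fin n → K), Z1 ⊂ Z → Dm Z1 := by
    intro Z1 hlt i j l
    obtain ⟨Q, hQ, hQ'⟩ := hdim i j l
    exact ⟨Q, hQ, fun x hx => hQ' x (hlt.1 hx)⟩
  have hprop : ∀ (f : MvPolynomial (Fin n) K), (∃ x ∈ Z, eval x f ≠ 0) →
      {x | x ∈ Z ∧ eval x f = 0} ⊂ Z := by
    intro f hf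
    obtain ⟨x, hx, hfx⟩ := hf
    exact ⟨fun y hy => hy.1, fun h => hfx (h hx).2⟩
  by_cases h0 : ∀ x ∈ Z, x = 0
  · refine ⟨0, fun α hα => ?_⟩
    convert good_empty 0
    ext k
    simp only [Set.mem_empty_iff_false, iff_false]
    intro hk
    exact iter_ne hF hα k (h0 _ hk)
  · push Not at h0
    obtain ⟨x0, hx0, hx0'⟩ := h0
    obtain ⟨l, hl⟩ : ∃ l, x0 l ≠ 0 := Function.ne_iff.1 hx0'
    by_cases hirr : Irr Z
    · by_cases hper : ∀ m, 0 < m → ∃ x ∈ Z, (pt F)^[m] x ∉ Z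
      · obtain ⟨e, g, hg, hg0, C, hC, hmain⟩ := cone_step hF hd hZ hdim hirr ⟨x0, hx0, hl⟩ hper
        obtain ⟨C1, hC1⟩ := ih _ (cone_inter hZ hg) (hprop g hg0) (hsub _ (hprop g hg0))
        obtain ⟨L, hL⟩ : ∃ L : ℕ, Real.log C ≤ (d : ℝ) ^ L := by
          refine ⟨⌈Real.log C⌉₊, (Nat.le_ceil _).trans ?_⟩
          have h1 : ⌈Real.log C⌉₊ < d ^ ⌈Real.log C⌉₊ := Nat.lt_pow_self (by omega)
          exact_mod_cast h1.le
        refine ⟨C1 + (M + L + 1) + M, fun α hα => ?_⟩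
        rcases hM α hα with ⟨t, m, hm, htm, c, hc, heq⟩ | hgrow
        · refine good_mono (by omega : t + m ≤ _) (good_evper hm fun k hk htk => ?_)
          have h1 : (pt F)^[k + m] α = (pt F)^[k - t] ((pt F)^[t + m] α) := by
            rw [← Function.iterate_add_apply, show k - t + (t + m) = k + m by omega]
          change (pt F)^[k + m] α ∈ Z
          rw [h1, heq, pt_smul hF.1, ← Function.iterate_add_apply, Nat.sub_add_cancel htk]
          exact cone_smul hZ hk _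
        · have h1 : {k | (pt F)^[k] α ∈ Z} = {k | (pt F)^[k] α ∈ {x | x ∈ Z ∧ eval x g = 0}} ∪
              {k | (pt F)^[k] α ∈ Z ∧ eval ((pt F)^[k] α) g ≠ 0} := by
            ext k
            simp only [Set.mem_union, Set.mem_ofPred_eq]
            tauto
          rw [h1]
          refine good_mono (Nat.le_add_right _ _) (good_union (hC1 α hα) (good_dbl ?_))
          rintro a ⟨ha, hga⟩ b ⟨hb, _⟩ hab
          rcases lt_or_ge a M with h2 | h2
          · omega
          · have h3 := hgrow a h2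
            have h4 := hmain (b - a) (by omega) _ ha (by
              rw [← Function.iterate_add_apply, Nat.sub_add_cancel hab.le]
              exact hb) hga
            have h5 : logHeight ((pt F)^[a] α) ≤ (d : ℝ) ^ (b - a) * Real.log C := by
              rw [logHeight_eq_log_mulHeight]
              refine (Real.log_le_log (mulHeight_pos _) h4).trans ?_
              rw [Real.log_pow]
              push_cast
              exact le_rfl
            have hd0 : (0 : ℝ) ≤ d := Nat.cast_nonneg d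
            have h6 : (d : ℝ) ^ (a - M) ≤ (d : ℝ) ^ (b - a + L) := by
              rw [pow_add]
              exact h3.trans (h5.trans (mul_le_mul_of_nonneg_left hL (pow_nonneg hd0 _)))
            have h7 : a - M ≤ b - a + L := by
              have h8 : d ^ (a - M) ≤ d ^ (b - a + L) := by exact_mod_cast h6
              exact (Nat.pow_le_pow_iff_right (by omega : 1 < d)).1 h8
            omega
      · push Not at hper
        obtain ⟨m, hm, hper⟩ := hper
        refine ⟨m, fun α _ => good_per hm fun k hk => ?_⟩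
        change (pt F)^[k + m] α ∈ Z
        rw [add_comm, Function.iterate_add_apply]
        exact hper _ hk
    · unfold Irr at hirr
      push Not at hirr
      obtain ⟨e, e', f, g, hf, hg, hfg, hf0, hg0⟩ := hirr
      obtain ⟨C1, hC1⟩ := ih _ (cone_inter hZ hf) (hprop f hf0) (hsub _ (hprop f hf0))
      obtain ⟨C2, hC2⟩ := ih _ (cone_inter hZ hg) (hprop g hg0) (hsub _ (hprop g hg0))
      refine ⟨C1 + C2, fun α hα => ?_⟩
      have h1 := good_union (hC1 α hα) (hC2 α hα)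
      convert h1 using 1
      ext k
      simp only [Set.mem_union, Set.mem_ofPred_eq]
      constructor
      · intro hk
        have h2 := hfg _ hk
        rw [map_mul, mul_eq_zero] at h2
        rcases h2 with h2 | h2
        · exact Or.inl ⟨hk, h2⟩
        · exact Or.inr ⟨hk, h2⟩
      · rintro (h | h)
        · exact h.1
        · exact h.1

end main

end Pool.Agent.Q170.HG
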