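import Mathlib

set_option autoImplicit false

/-!
# Finite unions of progressions and of sets of a family; sets with few close pairs
-/

namespace Pool.Agent.Q170.HG

/-- A progression of modulus at most `C`, or a set of the family. -/
def PieceG (Q : ℕ → Set ℕ → Prop) (C : ℕ) (s : Set ℕ) : Prop :=
  (∃ a m, 0 < m ∧ m ≤ C ∧ s = {n | ∃ j, n = a + m * j}) ∨ Q C s

/-- A union of `C` pieces. -/
def GoodG (Q : ℕ → Set ℕ → Prop) (C : ℕ) (S : Set ℕ) : Prop :=
  ∃ s : Fin C → Set ℕ, (∀ i, PieceG Q C (s i)) ∧ S = ⋃ i, s i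

/-- The conditions for a family. -/
structure Fm (Q : ℕ → Set ℕ → Prop) : Prop where
  mono : ∀ C C' s, C ≤ C' → Q C s → Q C' s
  emp : ∀ C, Q C ∅

variable {Q : ℕ → Set ℕ → Prop}

lemma piece_monoG (hQ : Fm Q) {C C' : ℕ} (h : C ≤ C') {s : Set ℕ} (hs : PieceG Q C s) :
    PieceG Q C' s := by
  rcases hs with ⟨a, m, h1, h2, h3⟩ | h1
  · exact Or.inl ⟨a, m, h1, h2.trans h, h3⟩
  · exact Or.inr (hQ.mono _ _ _ h h1)

lemma good_ofG (hQ : Fm Q) {ι : Type} [Fintype ι] {C : ℕ} (hC : Fintype.card ι ≤ C)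
    (s : ι → Set ℕ) (hs : ∀ i, PieceG Q C (s i)) : GoodG Q C (⋃ i, s i) := by
  classical
  let e := Fintype.equivFin ι
  refine ⟨fun k => if h : k.1 < Fintype.card ι then s (e.symm ⟨k.1, h⟩) else ∅, fun k => ?_, ?_⟩
  · by_cases h : k.1 < Fintype.card ι
    · simp only [h, dif_pos]
      exact hs _
    · simp only [h, dif_neg, not_false_iff]
      exact Or.inr (hQ.emp _)
  · ext x
    simp only [Set.mem_iUnion]
    constructor
    · rintro ⟨i, hi⟩
      have h1 := (e i).2
      refine ⟨⟨(e i).1, h1.trans_le hC⟩, ?_⟩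
      simp only [h1, dif_pos, Fin.eta, Equiv.symm_apply_apply]
      exact hi
    · rintro ⟨k, hk⟩
      by_cases h : k.1 < Fintype.card ι
      · simp only [h, dif_pos] at hk
        exact ⟨_, hk⟩
      · simp only [h, dif_neg, not_false_iff] at hk
        exact absurd hk (Set.notMem_empty x)

lemma good_monoG (hQ : Fm Q) {C C' : ℕ} (h : C ≤ C') {S : Set ℕ} (hS : GoodG Q C S) :
    GoodG Q C' S := by
  obtain ⟨s, hs, rfl⟩ := hS
  exact good_ofG hQ (by rwa [Fintype.card_fin]) s fun i => piece_monoG hQ h (hs i)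

lemma good_unionG (hQ : Fm Q) {C C' : ℕ} {S S' : Set ℕ} (hS : GoodG Q C S)
    (hS' : GoodG Q C' S') : GoodG Q (C + C') (S ∪ S') := by
  obtain ⟨s, hs, rfl⟩ := hS
  obtain ⟨s', hs', rfl⟩ := hS'
  have h1 := good_ofG hQ (ι := Fin C ⊕ Fin C') (C := C + C') (by simp) (Sum.elim s s')
    (by
      rintro (i | i)
      · exact piece_monoG hQ (Nat.le_add_right _ _) (hs i)
      · exact piece_monoG hQ (Nat.le_add_left _ _) (hs' i))
  rwa [Set.iUnion_sumElim] at h1

lemma good_emptyG (hQ : Fm Q) (C : ℕ) : GoodG Q C ∅ := by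
  refine ⟨fun _ => ∅, fun _ => Or.inr (hQ.emp _), ?_⟩
  simp

lemma good_dblG (hQ : Fm Q) {C : ℕ} {S : Set ℕ} (h : Q C S) : GoodG Q (C + 1) S := by
  have h1 := good_ofG hQ (ι := Unit) (C := C + 1) (by simp) (fun _ => S)
    (fun _ => Or.inr (hQ.mono _ _ _ (Nat.le_succ C) h))
  rwa [Set.iUnion_const] at h1

lemma good_perG (hQ : Fm Q) {m : ℕ} (hm : 0 < m) {S : Set ℕ} (h : ∀ n ∈ S, n + m ∈ S) :
    GoodG Q m S := by
  classical
  have h2 : ∀ (n : ℕ), n ∈ S → ∀ j, n + m * j ∈ S := by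
    intro n hn j
    induction j with
    | zero => simpa using hn
    | succ j ih =>
      have := h _ ih
      rwa [add_assoc, ← Nat.mul_succ] at this
  have h1 := good_ofG hQ (ι := Fin m) (C := m) (by simp) (fun r => {n | n ∈ S ∧ n % m = r.1}) ?_
  · convert h1 using 1
    ext x
    simp only [Set.mem_iUnion, Set.mem_ofPred_eq]
    constructor
    · intro hx
      exact ⟨⟨x % m, Nat.mod_lt _ hm⟩, hx, rfl⟩
    · rintro ⟨_, hx, _⟩
      exact hx
  · intro r
    by_cases hr : ∃ n, n ∈ S ∧ n % m = r.1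
    · left
      refine ⟨Nat.find hr, m, hm, le_rfl, ?_⟩
      obtain ⟨h3, h4⟩ := Nat.find_spec hr
      ext x
      simp only [Set.mem_ofPred_eq]
      constructor
      · rintro ⟨hx, hxr⟩
        have h5 : Nat.find hr ≤ x := Nat.find_min' hr ⟨hx, hxr⟩
        have h6 : m ∣ x - Nat.find hr := (Nat.modEq_iff_dvd' h5).1 (by
          change Nat.find hr % m = x % m
          rw [h4, hxr])
        obtain ⟨j, hj⟩ := h6
        exact ⟨j, by omega⟩
      · rintro ⟨j, rfl⟩
        exact ⟨h2 _ h3 j, by rw [Nat.add_mul_mod_self_left, h4]⟩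
    · right
      have h3 : {n | n ∈ S ∧ n % m = r.1} = ∅ := by
        rw [Set.eq_empty_iff_forall_notMem]
        intro x hx
        exact hr ⟨x, hx⟩
      rw [h3]
      exact hQ.emp _

/-- For every `g` at most `C D ^ g` elements are followed by another one at distance at most
`g`. -/
def Loose (D C : ℕ) (s : Set ℕ) : Prop :=
  ∀ g : ℕ, {a | a ∈ s ∧ ∃ b ∈ s, a < b ∧ b ≤ a + g}.encard ≤ (C * D ^ g : ℕ)

lemma fm_loose (D : ℕ) : Fm (Loose D) where
  mono := fun C C' s h hs g => (hs g).trans (by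
    exact_mod_cast Nat.mul_le_mul_right _ h)
  emp := fun C g => by
    have : {a | a ∈ (∅ : Set ℕ) ∧ ∃ b ∈ (∅ : Set ℕ), a < b ∧ b ≤ a + g} = ∅ := by
      rw [Set.eq_empty_iff_forall_notMem]
      rintro a ⟨ha, -⟩
      exact ha
    rw [this, Set.encard_empty]
    exact zero_le

/-- A set with few close pairs has few elements in every interval. -/
theorem loose_count {D : ℕ} (hD : 2 ≤ D) (C : ℕ) : ∃ C' : ℕ, ∀ s : Set ℕ, Loose D C s →
    ∀ M T : ℕ, 2 ≤ T → ((s ∩ Set.Ico M (M + T)).ncard : ℝ) ≤ C' * (T / Real.log T) := by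
  classical
  have hlD : 0 < Real.log D := Real.log_pos (by exact_mod_cast (by omega : 1 < D))
  refine ⟨2 * C + ⌈2 * Real.log D⌉₊ + 1, fun s hs M T hT => ?_⟩
  have hT0 : (0 : ℝ) < T := by exact_mod_cast (by omega : 0 < T)
  have hlT : 0 < Real.log T := Real.log_pos (by exact_mod_cast (by omega : 1 < T))
  set g : ℕ := ⌊Real.log T / (2 * Real.log D)⌋₊ with hg
  have hg1 : (g : ℝ) ≤ Real.log T / (2 * Real.log D) := Nat.floor_le (by positivity)
  have hg2 : Real.log T / (2 * Real.log D) < g + 1 := Nat.lt_floor_add_one _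
  -- the close elements
  set A1 : Set ℕ := {a | a ∈ s ∧ ∃ b ∈ s, a < b ∧ b ≤ a + g} with hA1
  have hA1f : A1.Finite := Set.finite_of_encard_le_coe (hs g)
  have hA1c : A1.ncard ≤ C * D ^ g := by
    have h1 := hs g
    rw [← hA1f.cast_ncard_eq] at h1
    exact_mod_cast h1
  -- the isolated elements
  set A2 : Set ℕ := {a | a ∈ s ∧ a ∈ Set.Ico M (M + T) ∧ ∀ b ∈ s, a < b → a + g < b} with hA2
  have hsub : s ∩ Set.Ico M (M + T) ⊆ A1 ∪ A2 := by
    rintro a ⟨ha, haM⟩
    by_cases h : ∃ b ∈ s, a < b ∧ b ≤ a + g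
    · exact Or.inl ⟨ha, h⟩
    · right
      refine ⟨ha, haM, fun b hb hab => ?_⟩
      by_contra h'
      exact h ⟨b, hb, hab, not_lt.1 h'⟩
  have hA2f : A2.Finite := (Set.finite_Ico M (M + T)).subset fun a ha => ha.2.1
  have hA2c : A2.ncard ≤ T / (g + 1) + 1 := by
    have h1 : Set.InjOn (fun a => (a - M) / (g + 1)) A2 := by
      intro a ha b hb hab
      have hab' : (a - M) / (g + 1) = (b - M) / (g + 1) := hab
      have haM : M ≤ a := ha.2.1.1
      have hbM : M ≤ b := hb.2.1.1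
      rcases lt_trichotomy a b with h | h | h
      · exfalso
        have h2 := ha.2.2 b hb.1 h
        have h3 : (a - M) + (g + 1) ≤ b - M := by omega
        have h4 : (a - M) / (g + 1) + 1 ≤ (b - M) / (g + 1) := by
          have h5 := Nat.div_le_div_right (c := g + 1) h3
          have h6 := Nat.add_div_right (a - M) (Nat.succ_pos g)
          exact h6.symm.le.trans h5
        rw [hab'] at h4
        exact absurd h4 (Nat.not_succ_le_self _)
      · exact h
      · exfalso
        have h2 := hb.2.2 a ha.1 h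
        have h3 : (b - M) + (g + 1) ≤ a - M := by omega
        have h4 : (b - M) / (g + 1) + 1 ≤ (a - M) / (g + 1) := by
          have h5 := Nat.div_le_div_right (c := g + 1) h3
          have h6 := Nat.add_div_right (b - M) (Nat.succ_pos g)
          exact h6.symm.le.trans h5
        rw [hab'] at h4
        exact absurd h4 (Nat.not_succ_le_self _)
    have h2 : (fun a => (a - M) / (g + 1)) '' A2 ⊆ (Finset.range (T / (g + 1) + 1) : Set ℕ) := by
      rintro _ ⟨a, ha, rfl⟩
      have h3 : a < M + T := ha.2.1.2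
      simp only [Finset.coe_range, Set.mem_Iio]
      exact Nat.lt_succ_of_le (Nat.div_le_div_right (by omega))
    rw [← Set.InjOn.ncard_image h1]
    refine (Set.ncard_le_ncard h2 (Finset.finite_toSet _)).trans ?_
    rw [Set.ncard_coe_finset, Finset.card_range]
  have hcard : ((s ∩ Set.Ico M (M + T)).ncard : ℝ) ≤ C * (D : ℝ) ^ g + (T / (g + 1) + 1) := by
    have h1 : (s ∩ Set.Ico M (M + T)).ncard ≤ A1.ncard + A2.ncard :=
      (Set.ncard_le_ncard hsub (hA1f.union hA2f)).trans (Set.ncard_union_le _ _)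
    have h2 : (s ∩ Set.Ico M (M + T)).ncard ≤ C * D ^ g + (T / (g + 1) + 1) :=
      h1.trans (Nat.add_le_add hA1c hA2c)
    have h3 : ((s ∩ Set.Ico M (M + T)).ncard : ℝ) ≤
        ((C * D ^ g + (T / (g + 1) + 1) : ℕ) : ℝ) := by exact_mod_cast h2
    refine h3.trans ?_
    push_cast
    have h4 : ((T / (g + 1) : ℕ) : ℝ) ≤ (T : ℝ) / ((g : ℝ) + 1) := by
      have := @Nat.cast_div_le ℝ _ _ _ T (g + 1)
      push_cast at this
      exact this
    linarith
  -- estimates
  have hsq : (D : ℝ) ^ g ≤ 2 * (T / Real.log T) := by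
    have h1 : (D : ℝ) ^ g = Real.exp (g * Real.log D) := by
      rw [Real.exp_nat_mul, Real.exp_log (by positivity)]
    have h2 : g * Real.log D ≤ Real.log T / 2 := by
      have := mul_le_mul_of_nonneg_right hg1 hlD.le
      have h3 : Real.log T / (2 * Real.log D) * Real.log D = Real.log T / 2 := by
        field_simp
      linarith
    have h3 : Real.exp (Real.log T / 2) = Real.sqrt T := by
      rw [Real.sqrt_eq_rpow, Real.rpow_def_of_pos hT0]
      congr 1
      ring
    have h4 : Real.log T ≤ 2 * Real.sqrt T := by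
      have h5 : Real.log T = 2 * Real.log (Real.sqrt T) := by
        rw [Real.log_sqrt hT0.le]
        ring
      have h6 := Real.log_le_sub_one_of_pos (Real.sqrt_pos.2 hT0)
      linarith
    have h5 : (D : ℝ) ^ g ≤ Real.sqrt T := by
      rw [h1, ← h3]
      exact Real.exp_le_exp.2 h2
    refine h5.trans ?_
    rw [← mul_div_assoc, le_div_iff₀ hlT]
    calc Real.sqrt T * Real.log T ≤ Real.sqrt T * (2 * Real.sqrt T) :=
          mul_le_mul_of_nonneg_left h4 (Real.sqrt_nonneg _)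
      _ = 2 * T := by
          rw [mul_left_comm, Real.mul_self_sqrt hT0.le]
  have hdiv : (T : ℝ) / ((g : ℝ) + 1) ≤ 2 * Real.log D * (T / Real.log T) := by
    rw [div_le_iff₀ (by positivity)]
    have h1 : Real.log T / (2 * Real.log D) * (2 * Real.log D * (T / Real.log T)) = T := by
      field_simp
    calc (T : ℝ) = Real.log T / (2 * Real.log D) * (2 * Real.log D * (T / Real.log T)) := h1.symm
      _ ≤ (g + 1) * (2 * Real.log D * (T / Real.log T)) :=
          mul_le_mul_of_nonneg_right hg2.le (by positivity)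
      _ = 2 * Real.log D * (T / Real.log T) * (g + 1) := by ring
  have hone : (1 : ℝ) ≤ T / Real.log T := by
    rw [le_div_iff₀ hlT, one_mul]
    have := Real.log_le_sub_one_of_pos hT0
    linarith
  have hceil : 2 * Real.log D ≤ (⌈2 * Real.log D⌉₊ : ℝ) := Nat.le_ceil _
  have hpos : (0 : ℝ) ≤ T / Real.log T := by positivity
  refine hcard.trans ?_
  push_cast
  have h1 : (C : ℝ) * (D : ℝ) ^ g ≤ C * (2 * (T / Real.log T)) :=
    mul_le_mul_of_nonneg_left hsq (Nat.cast_nonneg _)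
  have h2 : 2 * Real.log D * (T / Real.log T) ≤ (⌈2 * Real.log D⌉₊ : ℝ) * (T / Real.log T) :=
    mul_le_mul_of_nonneg_right hceil hpos
  nlinarith

/-- Few close pairs, and few elements in every interval. -/
def Rare (D C : ℕ) (s : Set ℕ) : Prop :=
  (∀ g : ℕ, {a | a ∈ s ∧ ∃ b ∈ s, a < b ∧ b ≤ a + g}.encard ≤ (C * D ^ g : ℕ)) ∧
    ∀ M T : ℕ, 2 ≤ T → ((s ∩ Set.Ico M (M + T)).ncard : ℝ) ≤ C * (T / Real.log T)

lemma fm_rare (D : ℕ) : Fm (Rare D) where
  mono := fun C C' s h hs => ⟨(fm_loose D).mono C C' s h hs.1, fun M T hT =>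
    (hs.2 M T hT).trans (mul_le_mul_of_nonneg_right (by exact_mod_cast h)
      (div_nonneg (Nat.cast_nonneg _) (Real.log_nonneg (by exact_mod_cast (by omega : 1 ≤ T)))))⟩
  emp := fun C => ⟨(fm_loose D).emp C, fun M T hT => by
    rw [Set.empty_inter, Set.ncard_empty, Nat.cast_zero]
    exact mul_nonneg (Nat.cast_nonneg _)
      (div_nonneg (Nat.cast_nonneg _) (Real.log_nonneg (by exact_mod_cast (by omega : 1 ≤ T))))⟩

lemma good_rare {D : ℕ} (hD : 2 ≤ D) (C : ℕ) : ∃ C' : ℕ, ∀ S : Set ℕ, GoodG (Loose D) C S →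
    GoodG (Rare D) C' S := by
  obtain ⟨C1, hC1⟩ := loose_count hD C
  refine ⟨C + C1, fun S hS => ?_⟩
  obtain ⟨s, hs, rfl⟩ := hS
  refine good_ofG (fm_rare D) (by
    rw [Fintype.card_fin]
    exact Nat.le_add_right _ _) s fun i => ?_
  rcases hs i with ⟨a, m, h1, h2, h3⟩ | h1
  · exact Or.inl ⟨a, m, h1, h2.trans (Nat.le_add_right _ _), h3⟩
  · refine Or.inr ⟨(fm_loose D).mono _ _ _ (Nat.le_add_right _ _) h1, fun M T hT => ?_⟩
    refine (hC1 _ h1 M T hT).trans (mul_le_mul_of_nonneg_right ?_ ?_)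
    · exact_mod_cast Nat.le_add_left _ _
    · exact div_nonneg (Nat.cast_nonneg _)
        (Real.log_nonneg (by exact_mod_cast (by omega : 1 ≤ T)))

end Pool.Agent.Q170.HG
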