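import Pool.Agent.Q170.HG.DgAff
import Pool.Agent.Q170.HG.Closure
import Pool.Agent.Q170.HG.PiecesG

set_option autoImplicit false

/-!
# The returns to a curve: few close pairs, and bounded heights
-/

namespace Pool.Agent.Q170.HG

open MvPolynomial Height

section maing

variable {K ι : Type} [Field K] [Fintype ι] {n d : ℕ}
  {X : Set (Projectivization K (Fin n → K))}
  {Φ : Projectivization K (Fin n → K) → Projectivization K (Fin n → K)}
  {F : ι → Fin n → MvPolynomial (Fin n) K}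

omit [Fintype ι] in
/-- The induction for cones, with any property which holds for the irreducible nonperiodic ones. -/
theorem cone_gen (h : Chs d X Φ F) (Q : Projectivization K (Fin n → K) → ℕ → Set ℕ → Prop)
    (hQ : ∀ α, Fm (Q α))
    (hstep : ∀ Z, IsCone Z → Dm Z → Irr Z → (∀ l, (∃ x ∈ Z, x l ≠ 0) →
      (∀ m, 0 < m → ∃ x ∈ X, x.rep ∈ Z ∧ (Φ^[m] x).rep ∉ Z) →
        ∃ (e : ℕ) (g : MvPolynomial (Fin n) K), g.IsHomogeneous e ∧ (∃ x ∈ Z, eval x g ≠ 0) ∧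
          ∃ C : ℕ, ∀ α ∈ X, Q α C {k | (Φ^[k] α).rep ∈ Z ∧ eval (Φ^[k] α).rep g ≠ 0})) :
    ∀ Z, IsCone Z → Dm Z → ∃ C : ℕ, ∀ α ∈ X, GoodG (Q α) C {k | (Φ^[k] α).rep ∈ Z} := by
  classical
  refine cone_ind fun Z hZ ih hdim => ?_
  have hsub : ∀ Z1 : Set (Fin n → K), Z1 ⊂ Z → Dm Z1 := by
    intro Z1 hlt i j l
    obtain ⟨Q, hQ, hQ'⟩ := hdim i j l
    exact ⟨Q, hQ, fun x hx => hQ' x (hlt.1 hx)⟩
  have hprop : ∀ (f : MvPolynomial (Fin n) K), (∃ x ∈ Z, eval x f ≠ 0) →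
      {x | x ∈ Z ∧ eval x f = 0} ⊂ Z := by
    intro f hf
    obtain ⟨x, hx, hfx⟩ := hf
    exact ⟨fun y hy => hy.1, fun h => hfx (h hx).2⟩
  by_cases h0 : ∀ x ∈ Z, x = 0
  · refine ⟨0, fun α hα => ?_⟩
    convert good_emptyG (hQ α) 0
    ext k
    simp only [Set.mem_empty_iff_false, iff_false]
    intro hk
    exact (Φ^[k] α).rep_nonzero (h0 _ hk)
  · push Not at h0
    obtain ⟨x0, hx0, hx0'⟩ := h0
    obtain ⟨l, hl⟩ : ∃ l, x0 l ≠ 0 := Function.ne_iff.1 hx0'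
    by_cases hirr : Irr Z
    · by_cases hper : ∀ m, 0 < m → ∃ x ∈ X, x.rep ∈ Z ∧ (Φ^[m] x).rep ∉ Z
      · obtain ⟨e, g, hg, hg0, C, hmain⟩ := hstep Z hZ hdim hirr l ⟨x0, hx0, hl⟩ hper
        obtain ⟨C1, hC1⟩ := ih _ (cone_inter hZ hg) (hprop g hg0) (hsub _ (hprop g hg0))
        refine ⟨C1 + (C + 1), fun α hα => ?_⟩
        have h1 : {k | (Φ^[k] α).rep ∈ Z} =
            {k | (Φ^[k] α).rep ∈ {x | x ∈ Z ∧ eval x g = 0}} ∪
            {k | (Φ^[k] α).rep ∈ Z ∧ eval (Φ^[k] α).rep g ≠ 0} := by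
          ext k
          simp only [Set.mem_union, Set.mem_ofPred_eq]
          tauto
        rw [h1]
        exact good_unionG (hQ α) (hC1 α hα) (good_dblG (hQ α) (hmain α hα))
      · push Not at hper
        obtain ⟨m, hm, hper⟩ := hper
        refine ⟨m, fun α hα => good_perG (hQ α) hm fun k hk => ?_⟩
        change (Φ^[k + m] α).rep ∈ Z
        rw [add_comm, Function.iterate_add_apply]
        exact hper _ (h.iter hα k) hk
    · unfold Irr at hirr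
      push Not at hirr
      obtain ⟨e, e', f, g, hf, hg, hfg, hf0, hg0⟩ := hirr
      obtain ⟨C1, hC1⟩ := ih _ (cone_inter hZ hf) (hprop f hf0) (hsub _ (hprop f hf0))
      obtain ⟨C2, hC2⟩ := ih _ (cone_inter hZ hg) (hprop g hg0) (hsub _ (hprop g hg0))
      refine ⟨C1 + C2, fun α hα => ?_⟩
      have h1 := good_unionG (hQ α) (hC1 α hα) (hC2 α hα)
      convert h1 using 1
      ext k
      simp only [Set.mem_union, Set.mem_ofPred_eq]
      constructor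
      · intro hk
        have h2 := hfg _ hk
        rw [map_mul, mul_eq_zero] at h2
        rcases h2 with h2 | h2
        · exact Or.inl ⟨hk, h2⟩
        · exact Or.inr ⟨hk, h2⟩
      · rintro (h | h)
        · exact h.1
        · exact h.1

/-- The number of the close pairs. -/
theorem step_loose (h : Chs d X Φ F) (hd : 2 ≤ d)
    {Z : Set (Fin n → K)} (hZ : IsCone Z) (hdim : Dm Z) (hirr : Irr Z) {l : Fin n}
    (hl : ∃ x ∈ Z, x l ≠ 0)
    (hper : ∀ m, 0 < m → ∃ x ∈ X, x.rep ∈ Z ∧ (Φ^[m] x).rep ∉ Z) :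
    ∃ (e : ℕ) (g : MvPolynomial (Fin n) K), g.IsHomogeneous e ∧ (∃ x ∈ Z, eval x g ≠ 0) ∧
      ∃ C : ℕ, ∀ α ∈ X, (Function.Injective fun k => Φ^[k] α) → ∀ s : Set ℕ,
        (∀ k ∈ s, (Φ^[k] α).rep ∈ Z ∧ eval (Φ^[k] α).rep g ≠ 0) → Loose (2 * d ^ n) C s := by
  classical
  obtain ⟨e, g, hg, hg0, L, hmain⟩ := cone_stepD h hd hZ hdim hirr hl hper
  refine ⟨e, g, hg, hg0, L ^ n, fun α hα hinj s hs G => ?_⟩
  rw [← hinj.encard_image]
  have h2 : (fun k => Φ^[k] α) '' {a | a ∈ s ∧ ∃ b ∈ s, a < b ∧ b ≤ a + G} ⊆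
      ⋃ m ∈ Finset.Icc 1 G, {x | x ∈ X ∧ x.rep ∈ Z ∧ (Φ^[m] x).rep ∈ Z ∧
        eval x.rep g ≠ 0} := by
    rintro _ ⟨a, ⟨ha', b, hb', hab, hbG⟩, rfl⟩
    obtain ⟨ha, hga⟩ := hs a ha'
    obtain ⟨hb, _⟩ := hs b hb'
    rw [Set.mem_iUnion₂]
    refine ⟨b - a, Finset.mem_Icc.2 ⟨by omega, by omega⟩, h.iter hα a, ha, ?_, hga⟩
    change (Φ^[b - a] (Φ^[a] α)).rep ∈ Z
    rw [← Function.iterate_add_apply, Nat.sub_add_cancel hab.le]
    exact hb
  refine (Set.encard_le_encard h2).trans ((Finset.set_encard_biUnion_le _ _).trans ?_)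
  refine (Finset.sum_le_sum fun m hm => hmain m (by
    have := (Finset.mem_Icc.1 hm).1
    omega)).trans ?_
  have h3 : ∑ m ∈ Finset.Icc 1 G, (L * d ^ m) ^ n ≤ L ^ n * (2 * d ^ n) ^ G := by
    have h4 : ∀ m ∈ Finset.Icc 1 G, (L * d ^ m) ^ n ≤ L ^ n * (d ^ n) ^ G := by
      intro m hm
      rw [mul_pow, ← pow_mul, ← pow_mul]
      exact Nat.mul_le_mul_left _ (Nat.pow_le_pow_right (by omega) (by
        rw [mul_comm n G]
        exact Nat.mul_le_mul_right _ (Finset.mem_Icc.1 hm).2))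
    refine (Finset.sum_le_card_nsmul _ _ _ h4).trans ?_
    rw [Nat.card_Icc, Nat.add_sub_cancel, smul_eq_mul, mul_pow]
    have h5 : G ≤ 2 ^ G := Nat.lt_two_pow_self.le
    calc G * (L ^ n * (d ^ n) ^ G) = L ^ n * (G * (d ^ n) ^ G) := by ring
      _ ≤ L ^ n * (2 ^ G * (d ^ n) ^ G) :=
          Nat.mul_le_mul_left _ (Nat.mul_le_mul_right _ h5)
  exact_mod_cast h3

/-- The heights. -/
theorem step_tight [NumberField K] (h : Chs d X Φ F) (hd : 2 ≤ d)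
    {Z : Set (Fin n → K)} (hZ : IsCone Z) (hdim : Dm Z) (hirr : Irr Z) {l : Fin n}
    (hl : ∃ x ∈ Z, x l ≠ 0)
    (hper : ∀ m, 0 < m → ∃ x ∈ X, x.rep ∈ Z ∧ (Φ^[m] x).rep ∉ Z) :
    ∃ (e : ℕ) (g : MvPolynomial (Fin n) K), g.IsHomogeneous e ∧ (∃ x ∈ Z, eval x g ≠ 0) ∧
      ∃ C : ℕ, ∀ α ∈ X, ∀ s : Set ℕ,
        (∀ k ∈ s, (Φ^[k] α).rep ∈ Z ∧ eval (Φ^[k] α).rep g ≠ 0) →
          ∀ a ∈ s, ∀ b ∈ s, a < b →
            Projectivization.logHeight (Φ^[a] α) ≤ C * (d : ℝ) ^ (b - a) := by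
  classical
  obtain ⟨e, g, hg, hg0, C, hC, hmain⟩ := cone_stepW h hd hZ hdim hirr hl hper
  refine ⟨e, g, hg, hg0, ⌈Real.log C⌉₊, fun α hα s hs a ha' b hb' hab => ?_⟩
  obtain ⟨ha, hga⟩ := hs a ha'
  obtain ⟨hb, _⟩ := hs b hb'
  have h4 := hmain (b - a) (by omega) _ (h.iter hα a) ha (by
    rw [← Function.iterate_add_apply, Nat.sub_add_cancel hab.le]
    exact hb) hga
  have h5 : Projectivization.logHeight (Φ^[a] α) = logHeight (Φ^[a] α).rep := by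
    conv_lhs => rw [← (Φ^[a] α).mk_rep]
    exact Projectivization.logHeight_mk _
  rw [h5, logHeight_eq_log_mulHeight]
  refine (Real.log_le_log (mulHeight_pos _) h4).trans ?_
  rw [Real.log_pow, mul_comm]
  push_cast
  exact mul_le_mul_of_nonneg_right (Nat.le_ceil _) (by positivity)

/-- The family of the exceptional sets. -/
def QB (Φ : Projectivization K (Fin n → K) → Projectivization K (Fin n → K)) (d : ℕ)
    (α : Projectivization K (Fin n → K)) (C : ℕ) (s : Set ℕ) : Prop :=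
  ((Function.Injective fun k => Φ^[k] α) → Loose (2 * d ^ n) C s) ∧
    ∀ _ : NumberField K, ∀ a ∈ s, ∀ b ∈ s, a < b →
      Projectivization.logHeight (Φ^[a] α) ≤ C * (d : ℝ) ^ (b - a)

lemma fm_QB (Φ : Projectivization K (Fin n → K) → Projectivization K (Fin n → K)) (d : ℕ)
    (α : Projectivization K (Fin n → K)) : Fm (QB Φ d α) where
  mono := fun C C' s h hs => ⟨fun hinj => (fm_loose _).mono _ _ _ h (hs.1 hinj),
    fun hK a ha b hb hab => (hs.2 hK a ha b hb hab).trans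
      (mul_le_mul_of_nonneg_right (by exact_mod_cast h) (by positivity))⟩
  emp := fun C => ⟨fun _ => (fm_loose _).emp C, fun _ a ha => absurd ha (Set.notMem_empty a)⟩

/-- Both properties together. -/
theorem cone_mainG (h : Chs d X Φ F) (hd : 2 ≤ d) :
    ∀ Z, IsCone Z → Dm Z → ∃ C : ℕ, ∀ α ∈ X, GoodG (QB Φ d α) C {k | (Φ^[k] α).rep ∈ Z} := by
  classical
  refine cone_gen h (QB Φ d) (fm_QB Φ d) fun Z hZ hdim hirr l hl hper => ?_
  obtain ⟨e1, g1, hg1, hg10, C1, hC1⟩ := step_loose h hd hZ hdim hirr hl hper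
  by_cases hK : NumberField K
  · obtain ⟨e2, g2, hg2, hg20, C2, hC2⟩ := step_tight h hd hZ hdim hirr hl hper
    have h1 : ∃ x ∈ Z, eval x (g1 * g2) ≠ 0 := by
      by_contra hcon
      push Not at hcon
      rcases hirr e1 e2 g1 g2 hg1 hg2 hcon with h2 | h2
      · obtain ⟨x, hx, hx'⟩ := hg10
        exact hx' (h2 x hx)
      · obtain ⟨x, hx, hx'⟩ := hg20
        exact hx' (h2 x hx)
    refine ⟨e1 + e2, g1 * g2, hg1.mul hg2, h1, C1 + C2, fun α hα => ⟨fun hinj => ?_, fun _ => ?_⟩⟩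
    · refine (fm_loose _).mono _ _ _ (Nat.le_add_right _ _) (hC1 α hα hinj _ fun k hk => ?_)
      obtain ⟨h2, h3⟩ := hk
      rw [map_mul] at h3
      exact ⟨h2, left_ne_zero_of_mul h3⟩
    · intro a ha b hb hab
      refine (hC2 α hα _ (fun k hk => ?_) a ha b hb hab).trans
        (mul_le_mul_of_nonneg_right (by push_cast; linarith [Nat.cast_nonneg (α := ℝ) C1])
          (by positivity))
      obtain ⟨h2, h3⟩ := hk
      rw [map_mul] at h3
      exact ⟨h2, right_ne_zero_of_mul h3⟩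
  · exact ⟨e1, g1, hg1, hg10, C1, fun α hα => ⟨fun hinj => hC1 α hα hinj _ fun k hk => hk,
      fun hK' => absurd hK' hK⟩⟩

end maing

section finalg

variable {K : Type} [Field K] {n : ℕ}

/-- The final form. -/
theorem quasiG {X : Set (Projectivization K (Fin n → K))}
    {Φ : Projectivization K (Fin n → K) → Projectivization K (Fin n → K)}
    (hmaps : ∀ x ∈ X, Φ x ∈ X) (hch : ∀ x ∈ X, ∃ F g, eval x.rep g ≠ 0 ∧ IsCh X Φ F g) :
    ∃ D : ℕ, 2 ≤ D ∧ ∀ S : Set (MvPolynomial (Fin n) K), (∀ f ∈ S, ∃ e, f.IsHomogeneous e) →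
      (∀ i j l, ∃ Q : Polynomial (Polynomial K), Q ≠ 0 ∧
        ∀ x ∈ X, (∀ f ∈ S, eval x.rep f = 0) → x.rep l ≠ 0 →
          Q.evalEval (x.rep j / x.rep l) (x.rep i / x.rep l) = 0) →
      ∃ C : ℕ, ∀ α ∈ X, ∃ s : Fin C → Set ℕ,
        (∀ i, (∃ a m, 0 < m ∧ m ≤ C ∧ s i = {n | ∃ j, n = a + m * j}) ∨
          (((Function.Injective fun k => Φ^[k] α) → Rare (2 * D ^ n) C (s i)) ∧
            ∀ _ : NumberField K, ∀ a ∈ s i, ∀ b ∈ s i, a < b →
              Projectivization.logHeight (Φ^[a] α) ≤ C * (D : ℝ) ^ (b - a))) ∧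
        {k | ∀ f ∈ S, eval (Φ^[k] α).rep f = 0} = ⋃ i, s i := by
  classical
  obtain ⟨T, D, F, hD, hF⟩ := exists_chs hmaps hch
  have hD2 : 2 ≤ 2 * D ^ n := by
    have : 0 < D ^ n := pow_pos (by omega) n
    omega
  refine ⟨D, hD, fun S hS hdim => ?_⟩
  set W : Set (Fin n → K) := {v | ∃ x ∈ X, (∀ f ∈ S, eval x.rep f = 0) ∧ v = x.rep} with hW
  obtain ⟨C, hC⟩ := cone_mainG hF hD (zs (fv W)) (cone_fv W) (dm_fv fun i j l => by
    obtain ⟨Q, hQ, hQ'⟩ := hdim i j l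
    refine ⟨Q, hQ, ?_⟩
    rintro x ⟨y, hy, hy', rfl⟩ hl
    exact hQ' y hy hy' hl)
  obtain ⟨C', hC'⟩ := loose_count hD2 C
  refine ⟨C + C', fun α hα => ?_⟩
  obtain ⟨s, hs, hS'⟩ := hC α hα
  have hmono : ∀ (M T : ℕ), 2 ≤ T → (0 : ℝ) ≤ T / Real.log T := fun M T hT =>
    div_nonneg (Nat.cast_nonneg _) (Real.log_nonneg (by exact_mod_cast (by omega : 1 ≤ T)))
  have hF1 : Fm (fun C s => ((Function.Injective fun k => Φ^[k] α) → Rare (2 * D ^ n) C s) ∧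
      ∀ _ : NumberField K, ∀ a ∈ s, ∀ b ∈ s, a < b →
        Projectivization.logHeight (Φ^[a] α) ≤ C * (D : ℝ) ^ (b - a)) :=
    { mono := fun C C' s h hs => ⟨fun hinj => (fm_rare _).mono _ _ _ h (hs.1 hinj),
        ((fm_QB Φ D α).mono _ _ s h ⟨fun hinj => (hs.1 hinj).1, hs.2⟩).2⟩
      emp := fun C => ⟨fun _ => (fm_rare _).emp C, fun _ a ha => absurd ha (Set.notMem_empty a)⟩ }
  obtain ⟨s', hs', hS''⟩ := good_ofG hF1 (C := C + C') (by
    rw [Fintype.card_fin]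
    exact Nat.le_add_right _ _) s fun i => by
      rcases hs i with ⟨a, m, h1, h2, h3⟩ | h1
      · exact Or.inl ⟨a, m, h1, h2.trans (Nat.le_add_right _ _), h3⟩
      · refine Or.inr ⟨fun hinj => ⟨(fm_loose _).mono _ _ _ (Nat.le_add_right _ _) (h1.1 hinj),
          fun M T hT => ?_⟩, ((fm_QB Φ D α).mono _ _ _ (Nat.le_add_right _ _) h1).2⟩
        refine (hC' _ (h1.1 hinj) M T hT).trans
          (mul_le_mul_of_nonneg_right (by exact_mod_cast Nat.le_add_left _ _) (hmono M T hT))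
  refine ⟨s', hs', ?_⟩
  rw [← hS'', ← hS']
  ext k
  simp only [Set.mem_ofPred_eq]
  constructor
  · intro hk f hf
    exact hf.2 _ ⟨_, hF.iter hα k, hk, rfl⟩
  · intro hk f hf
    refine hk f ⟨hS f hf, ?_⟩
    rintro x ⟨y, hy, hy', rfl⟩
    exact hy' f hf

end finalg

end Pool.Agent.Q170.HG
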