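import Pool.Agent.Q170.HG.Wd
import Pool.Agent.Q170.HG.Main
import Pool.Agent.Q170.HG.PiecesH

set_option autoImplicit false

/-!
# The returns of an orbit of a self-map of a quasi-projective variety to a curve
-/

namespace Pool.Agent.Q170.HG

open MvPolynomial Height NumberField

section fam

variable {K ι : Type} [Field K] [NumberField K] [Fintype ι] {n d : ℕ}

lemma int_famW {F : ι → Fin n → MvPolynomial (Fin n) K} (hF : ∀ c i, (F c i).IsHomogeneous d) :
    ∃ b : 𝓞 K, b ≠ 0 ∧ ∃ F0 : ι → Fin n → MvPolynomial (Fin n) (𝓞 K),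
      (∀ c i, (F0 c i).IsHomogeneous d) ∧
      ∀ c i, MvPolynomial.map (algebraMap (𝓞 K) K) (F0 c i) =
        C (algebraMap (𝓞 K) K b) * F c i := by
  classical
  choose b hb F0 hF0 h using fun c => int_fam (hF c)
  refine ⟨∏ c, b c, Finset.prod_ne_zero_iff.2 fun c _ => hb c,
    fun c i => C (∏ j ∈ Finset.univ.erase c, b j) * F0 c i, fun c i => (hF0 c i).C_mul _,
    fun c i => ?_⟩
  rw [map_mul, map_C, h c i, ← mul_assoc, ← C_mul, ← map_mul,
    mul_comm (∏ j ∈ Finset.univ.erase c, b j), Finset.mul_prod_erase _ _ (Finset.mem_univ c)]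

lemma iter_scaleW {F : ι → Fin n → MvPolynomial (Fin n) K}
    {F0 : ι → Fin n → MvPolynomial (Fin n) (𝓞 K)}
    {b : K} (hb : b ≠ 0) (hF : ∀ c i, (F c i).IsHomogeneous d)
    (h : ∀ c i, MvPolynomial.map (algebraMap (𝓞 K) K) (F0 c i) = C b * F c i) (v : ℕ → ι)
    (x : Fin n → K) (k : ℕ) :
    ∃ c : K, c ≠ 0 ∧ itv F0 v x k = c • itv F v x k := by
  induction k with
  | zero => exact ⟨1, one_ne_zero, by rw [one_smul]; rfl⟩
  | succ k ih =>
    obtain ⟨c, hc, hk⟩ := ih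
    refine ⟨b * c ^ d, mul_ne_zero hb (pow_ne_zero _ hc), ?_⟩
    funext i
    change MvPolynomial.aeval (itv F0 v x k) (F0 (v k) i) = b * c ^ d * eval (itv F v x k) (F (v k) i)
    rw [aeval_int (h (v k) i), hk, eval_smul_hom (hF (v k) i), mul_assoc]

lemma itv_isHom {F0 : ι → Fin n → MvPolynomial (Fin n) (𝓞 K)}
    (hF : ∀ c i, (F0 c i).IsHomogeneous d) (v : ℕ → ι) (k : ℕ) (i : Fin n) :
    (itv F0 v (fun j => (X j : MvPolynomial (Fin n) K)) k i).IsHomogeneous (d ^ k) := by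
  induction k generalizing i with
  | zero => exact isHomogeneous_X K i
  | succ k ih =>
    change (MvPolynomial.aeval (itv F0 v (fun j => (X j : MvPolynomial (Fin n) K)) k)
      (F0 (v k) i)).IsHomogeneous _
    rw [pow_succ]
    exact (hF (v k) i).aeval _ ih

lemma eval_aeval_itv (F0 : ι → Fin n → MvPolynomial (Fin n) (𝓞 K)) (v : ℕ → ι)
    (G0 : MvPolynomial (Fin n) (𝓞 K)) (k : ℕ) (x : Fin n → K) :
    eval x (MvPolynomial.aeval (itv F0 v (fun j => (X j : MvPolynomial (Fin n) K)) k) G0) =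
      MvPolynomial.aeval (itv F0 v x k) G0 := by
  have h1 := aeval_itv_map ((MvPolynomial.aeval x : MvPolynomial (Fin n) K →ₐ[K] K).restrictScalars
    (𝓞 K)) F0 v (fun j => (X j : MvPolynomial (Fin n) K)) k G0
  have h2 : (fun j => ((MvPolynomial.aeval x : MvPolynomial (Fin n) K →ₐ[K] K).restrictScalars
    (𝓞 K)) (X j : MvPolynomial (Fin n) K)) = x := by
    funext j
    exact MvPolynomial.aeval_X x j
  rw [h2] at h1
  exact h1

/-- `v` is a vector of homogeneous coordinates of the point `x`. -/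
def Rp (x : Projectivization K (Fin n → K)) (v : Fin n → K) : Prop :=
  ∃ h : v ≠ 0, Projectivization.mk K v h = x

omit [NumberField K] in
lemma Rp.scale {x : Projectivization K (Fin n → K)} {v : Fin n → K} (h : Rp x v) :
    ∃ c : K, c ≠ 0 ∧ x.rep = c • v := by
  obtain ⟨h0, rfl⟩ := h
  obtain ⟨a, ha⟩ := Projectivization.exists_smul_eq_mk_rep K v h0
  exact ⟨a, a.ne_zero, ha.symm⟩

omit [NumberField K] in
lemma Rp.mem {Z : Set (Fin n → K)} (hZ : IsCone Z) {x : Projectivization K (Fin n → K)}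
    {v : Fin n → K} (h : Rp x v) : x.rep ∈ Z ↔ v ∈ Z := by
  obtain ⟨c, hc, hx⟩ := h.scale
  rw [hx]
  exact cone_smul_iff hZ hc

/-- The map `Φ` is on `X` given by the systems `F c`, where they are not zero. -/
structure Chs (d : ℕ) (X : Set (Projectivization K (Fin n → K)))
    (Φ : Projectivization K (Fin n → K) → Projectivization K (Fin n → K))
    (F : ι → Fin n → MvPolynomial (Fin n) K) : Prop where
  maps : ∀ x ∈ X, Φ x ∈ X
  hom : ∀ c i, (F c i).IsHomogeneous d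
  cov : ∀ x ∈ X, ∃ c, (fun i => eval x.rep (F c i)) ≠ 0
  rep : ∀ x ∈ X, ∀ c, (fun i => eval x.rep (F c i)) ≠ 0 → Rp (Φ x) fun i => eval x.rep (F c i)

variable {X : Set (Projectivization K (Fin n → K))}
  {Φ : Projectivization K (Fin n → K) → Projectivization K (Fin n → K)}
  {F : ι → Fin n → MvPolynomial (Fin n) K}

omit [NumberField K] [Fintype ι] in
lemma Chs.iter (h : Chs d X Φ F) {x : Projectivization K (Fin n → K)} (hx : x ∈ X) (k : ℕ) :
    Φ^[k] x ∈ X := by
  induction k with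
  | zero => exact hx
  | succ k ih =>
    rw [Function.iterate_succ_apply']
    exact h.maps _ ih

omit [NumberField K] [Fintype ι] in
lemma Chs.rep' (h : Chs d X Φ F) {x : Projectivization K (Fin n → K)} (hx : x ∈ X)
    {u : Fin n → K} (hu : Rp x u) (c : ι) (hne : (fun i => eval u (F c i)) ≠ 0) :
    Rp (Φ x) fun i => eval u (F c i) := by
  obtain ⟨a, ha, hxa⟩ := hu.scale
  have h1 : (fun i => eval x.rep (F c i)) = a ^ d • fun i => eval u (F c i) := by
    funext i
    rw [hxa, eval_smul_hom (h.hom c i)]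
    rfl
  have h2 : (fun i => eval x.rep (F c i)) ≠ 0 := by
    rw [h1]
    exact smul_ne_zero (pow_ne_zero _ ha) hne
  obtain ⟨h3, h4⟩ := h.rep x hx c h2
  refine ⟨hne, ?_⟩
  rw [← h4, Projectivization.mk_eq_mk_iff']
  exact ⟨(a ^ d)⁻¹, by rw [h1, inv_smul_smul₀ (pow_ne_zero _ ha)]⟩

omit [NumberField K] [Fintype ι] in
/-- The composition of the systems is zero or gives the iterate. -/
lemma Chs.comp (h : Chs d X Φ F) (hd : 1 ≤ d) {x : Projectivization K (Fin n → K)} (hx : x ∈ X)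
    {u : Fin n → K} (hu : Rp x u) (v : ℕ → ι) (k : ℕ) :
    itv F v u k = 0 ∨ Rp (Φ^[k] x) (itv F v u k) := by
  induction k with
  | zero => exact Or.inr hu
  | succ k ih =>
    by_cases h0 : itv F v u (k + 1) = 0
    · exact Or.inl h0
    · right
      rcases ih with ih | ih
      · exfalso
        apply h0
        funext i
        change MvPolynomial.aeval (itv F v u k) (F (v k) i) = 0
        rw [ih]
        have h1 := eval_smul_hom (h.hom (v k) i) (0 : K) (0 : Fin n → K)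
        rw [zero_smul, zero_pow (by omega), zero_mul] at h1
        exact h1
      · rw [Function.iterate_succ_apply']
        exact h.rep' (h.iter hx k) ih (v k) h0

omit [NumberField K] [Fintype ι] in
/-- For a suitable word the composition gives the iterates. -/
lemma Chs.word (h : Chs d X Φ F) (hd : 1 ≤ d) {x : Projectivization K (Fin n → K)} (hx : x ∈ X) :
    ∃ v : ℕ → ι, ∀ k, Rp (Φ^[k] x) (itv F v x.rep k) := by
  classical
  have h1 : ∀ k, ∃ c, (fun i => eval (Φ^[k] x).rep (F c i)) ≠ 0 := fun k => h.cov _ (h.iter hx k)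
  choose v hv using h1
  refine ⟨v, fun k => ?_⟩
  induction k with
  | zero => exact ⟨x.rep_nonzero, x.mk_rep⟩
  | succ k ih =>
    rw [Function.iterate_succ_apply']
    refine h.rep' (h.iter hx k) ih (v k) ?_
    intro h0
    obtain ⟨a, ha, hxa⟩ := ih.scale
    apply hv k
    funext i
    rw [hxa, eval_smul_hom (h.hom (v k) i)]
    have h2 := congrFun h0 i
    rw [h2]
    exact mul_zero _

/-- The height of the points of a nonperiodic irreducible curve in its preimages. -/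
theorem cone_stepW (h : Chs d X Φ F) (hd : 2 ≤ d)
    {Z : Set (Fin n → K)} (hZ : IsCone Z) (hdim : Dm Z) (hirr : Irr Z) {l : Fin n}
    (hl : ∃ x ∈ Z, x l ≠ 0)
    (hper : ∀ m, 0 < m → ∃ x ∈ X, x.rep ∈ Z ∧ (Φ^[m] x).rep ∉ Z) :
    ∃ (e : ℕ) (g : MvPolynomial (Fin n) K), g.IsHomogeneous e ∧ (∃ x ∈ Z, eval x g ≠ 0) ∧
      ∃ C : ℝ, 1 ≤ C ∧ ∀ m, 0 < m → ∀ x ∈ X, x.rep ∈ Z → (Φ^[m] x).rep ∈ Z →
        eval x.rep g ≠ 0 → mulHeight x.rep ≤ C ^ d ^ m := by
  classical
  obtain ⟨S, hS, hZS⟩ := hZ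
  have hZ : IsCone Z := ⟨S, hS, hZS⟩
  obtain ⟨T, hT, hST⟩ := zs_finite S
  obtain ⟨b, hb, F0, hF0, hFF⟩ := int_famW h.hom
  have hbK : (algebraMap (𝓞 K) K b) ≠ 0 := fun h =>
    hb (FaithfulSMul.algebraMap_injective (𝓞 K) K (by rw [h, map_zero]))
  have h1 : ∀ G : T, ∃ (b : 𝓞 K) (G0 : MvPolynomial (Fin n) (𝓞 K)), b ≠ 0 ∧
      (∃ e, G0.IsHomogeneous e) ∧
      MvPolynomial.map (algebraMap (𝓞 K) K) G0 = C (algebraMap (𝓞 K) K b) * G.1 := by
    intro G
    obtain ⟨e, he⟩ := hS G.1 (hT G.2)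
    obtain ⟨b, hb, G0, hG0, h⟩ := int_one he
    exact ⟨b, G0, hb, ⟨e, hG0⟩, h⟩
  choose bT GT hbT hGT hmT using h1
  have hbTK : ∀ G, (algebraMap (𝓞 K) K (bT G)) ≠ 0 := fun G h =>
    hbT G (FaithfulSMul.algebraMap_injective (𝓞 K) K (by rw [h, map_zero]))
  set Z' : Set (Fin n → K) := {x | x ∈ Z ∧ x l = 1} with hZ'
  have hne : Z'.Nonempty := by
    obtain ⟨x, hx, hxl⟩ := hl
    exact ⟨(x l)⁻¹ • x, cone_smul hZ hx _, by
      rw [Pi.smul_apply, smul_eq_mul, inv_mul_cancel₀ hxl]⟩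
  have h0Z : (0 : Fin n → K) ∈ Z := by
    obtain ⟨x, hx, -⟩ := hl
    have := cone_smul hZ hx 0
    rwa [zero_smul] at this
  obtain ⟨g, ⟨x0, hx0, hgx0⟩, Cc, hCc, hmain⟩ := affineW (Z := Z') hd hF0 hne
    (chart_prime hZ hirr hl)
    (fun i j => by
      obtain ⟨Q, hQ, hQ'⟩ := hdim i j l
      refine ⟨Q, hQ, fun x hx => ?_⟩
      have := hQ' x hx.1 (by rw [hx.2]; exact one_ne_zero)
      rwa [hx.2, div_one, div_one] at this)
    (Finset.univ.image GT)
    (fun G hG => by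
      obtain ⟨G', _, rfl⟩ := Finset.mem_image.1 hG
      exact hGT G')
  obtain ⟨e, g', hg', hgg'⟩ := homog l g
  refine ⟨e + 1, g' * MvPolynomial.X l, hg'.mul (isHomogeneous_X K l), ⟨x0, hx0.1, ?_⟩, Cc, hCc, ?_⟩
  · rw [map_mul, eval_X, hx0.2, mul_one, hgg' x0 hx0.2]
    exact hgx0
  · intro m hm p hpX hx hmx hgx
    set x : Fin n → K := p.rep with hxdef
    rw [map_mul, eval_X] at hgx
    have hxl : x l ≠ 0 := right_ne_zero_of_mul hgx
    have hgx' : eval x g' ≠ 0 := left_ne_zero_of_mul hgx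
    set y : Fin n → K := (x l)⁻¹ • x with hy
    have hyl : y l = 1 := by rw [hy, Pi.smul_apply, smul_eq_mul, inv_mul_cancel₀ hxl]
    have hyZ : y ∈ Z := cone_smul hZ hx _
    have hgy : eval y g ≠ 0 := by
      rw [← hgg' y hyl, hy, eval_smul_hom hg']
      exact mul_ne_zero (pow_ne_zero _ (inv_ne_zero hxl)) hgx'
    -- the word and the form which does not vanish
    obtain ⟨z, hzX, hz, hmz⟩ := hper m hm
    obtain ⟨v, hv⟩ := h.word (by omega) hzX
    have h2 : ∃ G ∈ T, eval (itv F v z.rep m) G ≠ 0 := by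
      by_contra hcon
      push Not at hcon
      apply hmz
      rw [(hv m).mem hZ, hZS, hST]
      exact hcon
    obtain ⟨G, hG, hGz⟩ := h2
    have h3 : ∃ y ∈ Z', MvPolynomial.aeval (itv F0 v y m) (GT ⟨G, hG⟩) ≠ 0 := by
      by_contra hcon
      push Not at hcon
      obtain ⟨e', he'⟩ := hGT ⟨G, hG⟩
      have h4 := van2 hZ hirr hl (g := MvPolynomial.aeval
        (itv F0 v (fun j => (MvPolynomial.X j : MvPolynomial (Fin n) K)) m) (GT ⟨G, hG⟩))
        (he'.aeval _ (itv_isHom hF0 v m)) (fun y hy hyl => by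
          rw [eval_aeval_itv]
          exact hcon y ⟨hy, hyl⟩) z.rep hz
      rw [eval_aeval_itv, aeval_int (hmT ⟨G, hG⟩)] at h4
      obtain ⟨c, hc, h5⟩ := iter_scaleW hbK h.hom hFF v z.rep m
      obtain ⟨e'', he''⟩ := hS G (hT hG)
      rw [h5, eval_smul_hom he''] at h4
      exact mul_ne_zero (hbTK ⟨G, hG⟩) (mul_ne_zero (pow_ne_zero _ hc) hGz) h4
    have h4 : MvPolynomial.aeval (itv F0 v y m) (GT ⟨G, hG⟩) = 0 := by
      obtain ⟨e'', he''⟩ := hS G (hT hG)
      have h5 : itv F0 v y m = (x l)⁻¹ ^ d ^ m • itv F0 v x m := by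
        funext i
        exact itv_hom hF0 v (x l)⁻¹ x m i
      obtain ⟨c, hc, h6⟩ := iter_scaleW hbK h.hom hFF v x m
      rw [aeval_int (hmT ⟨G, hG⟩), h5, h6, eval_smul_hom he'', eval_smul_hom he'']
      have h7 : itv F v x m ∈ Z := by
        rcases h.comp (by omega) hpX ⟨p.rep_nonzero, p.mk_rep⟩ v m with h8 | h8
        · rw [hxdef, h8]
          exact h0Z
        · exact (h8.mem hZ).1 hmx
      have h9 : eval (itv F v x m) G = 0 := by
        rw [hZS] at h7
        exact h7 G (hT hG)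
      rw [h9, mul_zero, mul_zero, mul_zero]
    have h5 := hmain (GT ⟨G, hG⟩) (Finset.mem_image_of_mem _ (Finset.mem_univ _)) v m h3 y
      ⟨hyZ, hyl⟩ hgy h4
    rwa [hy, mulHeight_smul_eq_mulHeight _ (inv_ne_zero hxl)] at h5

end fam

end Pool.Agent.Q170.HG
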