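import Mathlib

set_option autoImplicit false

/-!
# Elimination on a curve by matrices

`exists_rep`: if finitely many elements `u i` of a domain `A` are algebraic over the subring `P`, then
multiplication by `c * u i` is given by matrices over `P`, on finitely many elements of `A` which
are linearly independent over `P`.
-/

namespace Pool.Agent.Q170.HG

section rep

variable {P A : Type} [CommRing P] [IsDomain P] [CommRing A] [IsDomain A] [Algebra P A]

attribute [local instance] FractionRing.liftAlgebra

theorem exists_rep (hinj : Function.Injective (algebraMap P A)) {ι : Type} [Finite ι] (u : ι → A)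
    (hu : ∀ i, IsAlgebraic P (u i)) :
    ∃ (δ : ℕ) (b : Fin δ → A) (s0 : Fin δ) (c : P) (Ξ : ι → Matrix (Fin δ) (Fin δ) P),
      b s0 ≠ 0 ∧ c ≠ 0 ∧ (∀ v : Fin δ → P, ∑ s, v s • b s = 0 → v = 0) ∧
      ∀ i s, c • (u i * b s) = ∑ t, Ξ i s t • b t := by
  classical
  have : FaithfulSMul P A := (faithfulSMul_iff_algebraMap_injective P A).2 hinj
  have : IsScalarTower P (FractionRing P) (FractionRing A) :=
    FractionRing.isScalarTower_liftAlgebra P (FractionRing A)
  have hw : ∀ x ∈ Set.range fun i => algebraMap A (FractionRing A) (u i),
      IsIntegral (FractionRing P) x := by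
    rintro _ ⟨i, rfl⟩
    have h1 : IsAlgebraic P (algebraMap A (FractionRing A) (u i)) := (hu i).algebraMap
    have h2 : IsAlgebraic (FractionRing P) (algebraMap A (FractionRing A) (u i)) :=
      h1.extendScalars (IsFractionRing.injective P (FractionRing P))
    exact h2.isIntegral
  let E := IntermediateField.adjoin (FractionRing P)
    (Set.range fun i => algebraMap A (FractionRing A) (u i))
  have : FiniteDimensional (FractionRing P) E := IntermediateField.finiteDimensional_adjoin hw
  let b0 := Module.finBasis (FractionRing P) E
  have hδ : 0 < Module.finrank (FractionRing P) E := Module.finrank_pos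
  obtain ⟨g, hg⟩ := IsLocalization.exist_integer_multiples_of_finite (nonZeroDivisors A)
    (fun s => ((b0 s : E) : FractionRing A))
  choose b hb using hg
  have hmem : ∀ i, algebraMap A (FractionRing A) (u i) ∈ E := fun i =>
    IntermediateField.subset_adjoin _ _ ⟨i, rfl⟩
  obtain ⟨c, hc⟩ := IsLocalization.exist_integer_multiples_of_finite (nonZeroDivisors P)
    (fun p : ι × Fin (Module.finrank (FractionRing P) E) ×
      Fin (Module.finrank (FractionRing P) E) =>
      b0.repr ((⟨_, hmem p.1⟩ : E) * b0 p.2.1) p.2.2)
  choose Ξ hΞ using hc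
  have hg0 : (g : A) ≠ 0 := nonZeroDivisors.coe_ne_zero g
  have hc0 : (c : P) ≠ 0 := nonZeroDivisors.coe_ne_zero c
  have hb' : ∀ s, algebraMap A (FractionRing A) (b s) =
      algebraMap A (FractionRing A) (g : A) * ((b0 s : E) : FractionRing A) := by
    intro s
    rw [hb s, Algebra.smul_def]
  have hinjA : Function.Injective (algebraMap A (FractionRing A)) :=
    IsFractionRing.injective A (FractionRing A)
  have hPL : ∀ p : P, algebraMap A (FractionRing A) (algebraMap P A p) =
      algebraMap (FractionRing P) (FractionRing A) (algebraMap P (FractionRing P) p) := by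
    intro p
    rw [← IsScalarTower.algebraMap_apply, ← IsScalarTower.algebraMap_apply]
  refine ⟨_, b, ⟨0, hδ⟩, (c : P), fun i => Matrix.of fun s t => Ξ (i, s, t), ?_, hc0, ?_, ?_⟩
  · intro h0
    have h1 := hb' ⟨0, hδ⟩
    rw [h0, map_zero] at h1
    rcases mul_eq_zero.1 h1.symm with h2 | h2
    · exact hg0 (hinjA (by rw [h2, map_zero]))
    · exact b0.ne_zero ⟨0, hδ⟩ (Subtype.ext h2)
  · intro v hv
    have h1 := congrArg (algebraMap A (FractionRing A)) hv
    rw [map_sum, map_zero] at h1
    have h2 : algebraMap A (FractionRing A) (g : A) *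
        ((∑ s, algebraMap P (FractionRing P) (v s) • b0 s : E) : FractionRing A) = 0 := by
      rw [← h1, AddSubmonoidClass.coe_finsetSum, Finset.mul_sum]
      refine Finset.sum_congr rfl fun s _ => ?_
      rw [IntermediateField.coe_smul, Algebra.smul_def, Algebra.smul_def, map_mul, hPL, hb']
      ring
    rcases mul_eq_zero.1 h2 with h3 | h3
    · exact absurd (hinjA (by rw [h3, map_zero])) hg0
    · have h4 : (∑ s, algebraMap P (FractionRing P) (v s) • b0 s : E) = 0 := Subtype.ext h3
      have h5 := Fintype.linearIndependent_iff.1 b0.linearIndependent _ h4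
      funext s
      exact IsFractionRing.injective P (FractionRing P) (by rw [h5 s]; simp)
  · intro i s
    apply hinjA
    have h1 : ((⟨_, hmem i⟩ : E) * b0 s) =
        ∑ t, b0.repr ((⟨_, hmem i⟩ : E) * b0 s) t • b0 t := (b0.sum_repr _).symm
    have h2 := congrArg (fun z : E => (z : FractionRing A)) h1
    simp only [IntermediateField.coe_mul, AddSubmonoidClass.coe_finsetSum,
      IntermediateField.coe_smul] at h2
    simp only [Algebra.smul_def] at h2
    rw [Algebra.smul_def, map_mul, map_mul, hb', map_sum]
    have h3 : ∀ t, algebraMap A (FractionRing A)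
        ((Matrix.of fun s t => Ξ (i, s, t)) s t • b t) =
        algebraMap A (FractionRing A) (algebraMap P A c) *
        algebraMap A (FractionRing A) (g : A) *
          (algebraMap (FractionRing P) (FractionRing A)
            (b0.repr ((⟨_, hmem i⟩ : E) * b0 s) t) * ((b0 t : E) : FractionRing A)) := by
      intro t
      rw [Matrix.of_apply, Algebra.smul_def, map_mul, hPL, hΞ (i, s, t), hb', Algebra.smul_def,
        map_mul, hPL]
      ring
    rw [Finset.sum_congr rfl fun t _ => h3 t, ← Finset.mul_sum, ← h2]
    ring

end rep

end Pool.Agent.Q170.HG
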