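import Mathlib

set_option autoImplicit false

/-!
# Sizes of polynomials, of matrices and of the values of forms
-/

namespace Pool.Agent.Q170.HG

open Polynomial

/-- A submultiplicative size function on a ring. -/
structure IsNm {R : Type} [CommRing R] (N : R → ℝ) : Prop where
  nonneg : ∀ a, 0 ≤ N a
  zero : N 0 = 0
  neg : ∀ a, N (-a) = N a
  add : ∀ a b, N (a + b) ≤ N a + N b
  mul : ∀ a b, N (a * b) ≤ N a * N b
  one : N 1 ≤ 1

namespace IsNm

variable {R : Type} [CommRing R] {N : R → ℝ}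

lemma sum (h : IsNm N) {ι : Type} (s : Finset ι) (f : ι → R) :
    N (∑ i ∈ s, f i) ≤ ∑ i ∈ s, N (f i) := by
  classical
  induction s using Finset.induction_on with
  | empty => simp [h.zero]
  | insert a s ha ih =>
    rw [Finset.sum_insert ha, Finset.sum_insert ha]
    exact (h.add _ _).trans (by linarith)

lemma prod (h : IsNm N) {ι : Type} (s : Finset ι) (f : ι → R) :
    N (∏ i ∈ s, f i) ≤ ∏ i ∈ s, N (f i) := by
  classical
  induction s using Finset.induction_on with
  | empty => simpa using h.one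
  | insert a s ha ih =>
    rw [Finset.prod_insert ha, Finset.prod_insert ha]
    exact (h.mul _ _).trans (mul_le_mul_of_nonneg_left ih (h.nonneg _))

lemma det (h : IsNm N) {δ : ℕ} (m : Matrix (Fin δ) (Fin δ) R) {B : ℝ}
    (hm : ∀ s t, N (m s t) ≤ B) : N m.det ≤ δ.factorial * B ^ δ := by
  classical
  rw [Matrix.det_apply]
  refine (h.sum _ _).trans ?_
  have h1 : ∀ σ : Equiv.Perm (Fin δ),
      N (Equiv.Perm.sign σ • ∏ i, m (σ i) i) ≤ B ^ δ := by
    intro σ
    have h2 : N (∏ i, m (σ i) i) ≤ B ^ δ := by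
      refine (h.prod _ _).trans ?_
      refine (Finset.prod_le_prod (fun i _ => h.nonneg _) fun i _ => hm _ _).trans ?_
      simp
    rcases Int.units_eq_one_or (Equiv.Perm.sign σ) with h3 | h3
    · rw [h3, one_smul]
      exact h2
    · rw [h3, Units.neg_smul, one_smul, h.neg]
      exact h2
  refine (Finset.sum_le_sum fun σ _ => h1 σ).trans ?_
  rw [Finset.sum_const, Finset.card_univ, Fintype.card_perm, Fintype.card_fin, nsmul_eq_mul]

end IsNm

/-- The sum of the sizes of the coefficients. -/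
noncomputable def l1 {R : Type} [CommRing R] (N : R → ℝ) (p : R[X]) : ℝ :=
  ∑ i ∈ p.support, N (p.coeff i)

section l1

variable {R : Type} [CommRing R] {N : R → ℝ}

lemma l1_eq (h : IsNm N) (p : R[X]) {n : ℕ} (hn : p.natDegree < n) :
    l1 N p = ∑ i ∈ Finset.range n, N (p.coeff i) := by
  refine Finset.sum_subset ?_ ?_
  · intro i hi
    rw [Finset.mem_range]
    exact (le_natDegree_of_mem_supp i hi).trans_lt hn
  · intro i _ hi
    rw [notMem_support_iff.1 hi, h.zero]

lemma l1_add (h : IsNm N) (p q : R[X]) : l1 N (p + q) ≤ l1 N p + l1 N q := by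
  have h1 : (p + q).natDegree < p.natDegree + q.natDegree + 1 :=
    Nat.lt_succ_of_le ((natDegree_add_le p q).trans (max_le (by omega) (by omega)))
  rw [l1_eq h _ h1, l1_eq h p (by omega : p.natDegree < p.natDegree + q.natDegree + 1),
    l1_eq h q (by omega : q.natDegree < p.natDegree + q.natDegree + 1), ← Finset.sum_add_distrib]
  refine Finset.sum_le_sum fun i _ => ?_
  rw [coeff_add]
  exact h.add _ _

lemma l1_nonneg (h : IsNm N) (p : R[X]) : 0 ≤ l1 N p :=
  Finset.sum_nonneg fun i _ => h.nonneg _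

lemma l1_zero : l1 N (0 : R[X]) = 0 := by
  simp [l1]

lemma l1_sum (h : IsNm N) {ι : Type} (s : Finset ι) (f : ι → R[X]) :
    l1 N (∑ i ∈ s, f i) ≤ ∑ i ∈ s, l1 N (f i) := by
  classical
  induction s using Finset.induction_on with
  | empty => simp [l1_zero]
  | insert a s ha ih =>
    rw [Finset.sum_insert ha, Finset.sum_insert ha]
    exact (l1_add h _ _).trans (by linarith)

lemma l1_monomial_mul (h : IsNm N) (i : ℕ) (a : R) (q : R[X]) :
    l1 N (monomial i a * q) ≤ N a * l1 N q := by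
  have h1 : (monomial i a * q).natDegree < i + (q.natDegree + 1) := by
    refine Nat.lt_of_le_of_lt natDegree_mul_le ?_
    have := natDegree_monomial_le a (m := i)
    omega
  rw [l1_eq h _ h1, l1_eq h q (Nat.lt_succ_self _), Finset.sum_range_add, Finset.mul_sum]
  have h2 : ∑ x ∈ Finset.range i, N ((monomial i a * q).coeff x) = 0 := by
    refine Finset.sum_eq_zero fun x hx => ?_
    rw [Finset.mem_range] at hx
    rw [← C_mul_X_pow_eq_monomial, mul_assoc, coeff_C_mul, coeff_X_pow_mul', if_neg (by omega),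
      mul_zero, h.zero]
  rw [h2, zero_add]
  refine Finset.sum_le_sum fun x _ => ?_
  rw [add_comm i x, coeff_monomial_mul]
  exact h.mul _ _

lemma l1_C (h : IsNm N) (a : R) : l1 N (C a) = N a := by
  rw [l1_eq h _ (by rw [natDegree_C]; exact Nat.zero_lt_one), Finset.sum_range_one, coeff_C_zero]

lemma isNm_l1 (h : IsNm N) : IsNm (l1 N) where
  nonneg := l1_nonneg h
  zero := l1_zero
  neg p := by
    simp only [l1, support_neg, coeff_neg, h.neg]
  add := l1_add h
  mul p q := by
    conv_lhs => rw [p.as_sum_support, Finset.sum_mul]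
    refine (l1_sum h _ _).trans ?_
    rw [l1, Finset.sum_mul]
    exact Finset.sum_le_sum fun i _ => l1_monomial_mul h _ _ _
  one := by
    rw [← C_1, l1_C h]
    exact h.one

end l1

section rep

variable {P A : Type} [CommRing P] [CommRing A] [Algebra P A] {δ : ℕ}

/-- Multiplication by `w` on the elements `b s` is given by the matrix `m`. -/
def Rep (b : Fin δ → A) (w : A) (m : Matrix (Fin δ) (Fin δ) P) : Prop :=
  ∀ s, w * b s = ∑ t, m s t • b t

/-- Multiplication by `w` is given by a matrix with row sums of size at most `B`. -/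
def Bd (N : P → ℝ) (b : Fin δ → A) (w : A) (B : ℝ) : Prop :=
  ∃ m : Matrix (Fin δ) (Fin δ) P, Rep b w m ∧ ∀ s, ∑ t, N (m s t) ≤ B

variable {N : P → ℝ} {b : Fin δ → A}

lemma bd_mul (h : IsNm N) {w w' : A} {B B' : ℝ} (hB : 0 ≤ B) (h1 : Bd N b w B) (h2 : Bd N b w' B') :
    Bd N b (w * w') (B * B') := by
  obtain ⟨m, hm, hm'⟩ := h1
  obtain ⟨n, hn, hn'⟩ := h2
  refine ⟨n * m, fun s => ?_, fun s => ?_⟩
  · rw [mul_assoc, hn s, Finset.mul_sum]
    simp only [Matrix.mul_apply, Finset.sum_smul]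
    rw [Finset.sum_comm]
    refine Finset.sum_congr rfl fun t _ => ?_
    rw [mul_smul_comm, hm t, Finset.smul_sum]
    refine Finset.sum_congr rfl fun r _ => ?_
    rw [mul_smul]
  · calc ∑ t, N ((n * m) s t) ≤ ∑ t, ∑ r, N (n s r) * N (m r t) := by
          refine Finset.sum_le_sum fun t _ => ?_
          rw [Matrix.mul_apply]
          exact (h.sum _ _).trans (Finset.sum_le_sum fun r _ => h.mul _ _)
      _ = ∑ r, N (n s r) * ∑ t, N (m r t) := by
          rw [Finset.sum_comm]
          refine Finset.sum_congr rfl fun r _ => ?_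
          rw [Finset.mul_sum]
      _ ≤ ∑ r, N (n s r) * B := Finset.sum_le_sum fun r _ =>
          mul_le_mul_of_nonneg_left (hm' r) (h.nonneg _)
      _ = (∑ r, N (n s r)) * B := by rw [Finset.sum_mul]
      _ ≤ B' * B := mul_le_mul_of_nonneg_right (hn' s) hB
      _ = B * B' := mul_comm _ _

lemma bd_add (h : IsNm N) {w w' : A} {B B' : ℝ} (h1 : Bd N b w B) (h2 : Bd N b w' B') :
    Bd N b (w + w') (B + B') := by
  obtain ⟨m, hm, hm'⟩ := h1
  obtain ⟨n, hn, hn'⟩ := h2
  refine ⟨m + n, fun s => ?_, fun s => ?_⟩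
  · rw [add_mul, hm s, hn s, ← Finset.sum_add_distrib]
    refine Finset.sum_congr rfl fun t _ => ?_
    rw [Matrix.add_apply, add_smul]
  · calc ∑ t, N ((m + n) s t) ≤ ∑ t, (N (m s t) + N (n s t)) :=
          Finset.sum_le_sum fun t _ => h.add _ _
      _ ≤ B + B' := by
          rw [Finset.sum_add_distrib]
          exact add_le_add (hm' s) (hn' s)

lemma bd_mono {w : A} {B B' : ℝ} (h1 : Bd N b w B) (h2 : B ≤ B') : Bd N b w B' := by
  obtain ⟨m, hm, hm'⟩ := h1
  exact ⟨m, hm, fun s => (hm' s).trans h2⟩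

lemma bd_algebraMap (h : IsNm N) (p : P) : Bd N b (algebraMap P A p) (N p) := by
  classical
  refine ⟨Matrix.diagonal fun _ => p, fun s => ?_, fun s => ?_⟩
  · rw [Finset.sum_eq_single s, Matrix.diagonal_apply_eq, Algebra.smul_def]
    · intro t _ ht
      rw [Matrix.diagonal_apply_ne' _ ht, zero_smul]
    · intro hs
      exact absurd (Finset.mem_univ _) hs
  · rw [Finset.sum_eq_single s, Matrix.diagonal_apply_eq]
    · intro t _ ht
      rw [Matrix.diagonal_apply_ne' _ ht, h.zero]
    · intro hs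
      exact absurd (Finset.mem_univ _) hs

lemma bd_one (h : IsNm N) : Bd N b (1 : A) 1 := by
  have := bd_algebraMap (A := A) (b := b) h 1
  rw [map_one] at this
  exact bd_mono this h.one

lemma bd_pow (h : IsNm N) {w : A} {B : ℝ} (hB : 0 ≤ B) (h1 : Bd N b w B) (k : ℕ) :
    Bd N b (w ^ k) (B ^ k) := by
  induction k with
  | zero => simpa using bd_one h
  | succ k ih =>
    rw [pow_succ, pow_succ]
    exact bd_mul h (pow_nonneg hB _) ih h1

lemma bd_prod (h : IsNm N) {ι : Type} (s : Finset ι) {w : ι → A} {B : ℝ} (hB : 0 ≤ B)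
    (h1 : ∀ i, Bd N b (w i) B) (e : ι → ℕ) :
    Bd N b (∏ i ∈ s, w i ^ e i) (B ^ ∑ i ∈ s, e i) := by
  classical
  induction s using Finset.induction_on with
  | empty => simpa using bd_one h
  | insert a s ha ih =>
    rw [Finset.prod_insert ha, Finset.sum_insert ha, pow_add]
    exact bd_mul h (pow_nonneg hB _) (bd_pow h hB (h1 a) _) ih

lemma bd_sum (h : IsNm N) {ι : Type} (s : Finset ι) {w : ι → A} {B : ι → ℝ}
    (h1 : ∀ i ∈ s, Bd N b (w i) (B i)) : Bd N b (∑ i ∈ s, w i) (∑ i ∈ s, B i) := by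
  classical
  induction s using Finset.induction_on with
  | empty =>
    have := bd_algebraMap (A := A) (b := b) h 0
    rw [map_zero, h.zero] at this
    simpa using this
  | insert a s ha ih =>
    rw [Finset.sum_insert ha, Finset.sum_insert ha]
    exact bd_add h (h1 a (Finset.mem_insert_self _ _))
      (ih fun i hi => h1 i (Finset.mem_insert_of_mem hi))

variable {R : Type} [CommRing R] [Algebra R P] [Algebra R A] [IsScalarTower R P A] {n : ℕ}

/-- The size of a polynomial in several variables. -/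
noncomputable def mv (N : P → ℝ) (G : MvPolynomial (Fin n) R) : ℝ :=
  ∑ m ∈ G.support, N (algebraMap R P (G.coeff m))

lemma mv_nonneg (h : IsNm N) (G : MvPolynomial (Fin n) R) : 0 ≤ mv N G :=
  Finset.sum_nonneg fun _ _ => h.nonneg _

lemma bd_aeval (h : IsNm N) {e : ℕ} {G : MvPolynomial (Fin n) R} (hG : G.IsHomogeneous e)
    {w : Fin n → A} {B : ℝ} (hB : 0 ≤ B) (h1 : ∀ i, Bd N b (w i) B) :
    Bd N b (MvPolynomial.aeval w G) (mv N G * B ^ e) := by
  rw [MvPolynomial.aeval_def, MvPolynomial.eval₂_eq', mv, Finset.sum_mul]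
  refine bd_sum h _ fun m hm => ?_
  have h2 : ∑ i, m i = e := by
    have h3 := hG (MvPolynomial.mem_support_iff.1 hm)
    rw [← h3, Finsupp.weight_apply, Finsupp.sum_fintype _ _ (by simp)]
    simp
  have h3 := bd_prod h Finset.univ hB h1 fun i => m i
  rw [h2] at h3
  rw [IsScalarTower.algebraMap_apply R P A]
  exact bd_mul h (h.nonneg _) (bd_algebraMap h _) h3

/-- The iterates of a system of polynomials. -/
noncomputable def itw (F : Fin n → MvPolynomial (Fin n) R) (w : Fin n → A) : ℕ → Fin n → A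
  | 0 => w
  | k + 1 => fun i => MvPolynomial.aeval (itw F w k) (F i)

lemma bd_itw (h : IsNm N) {d : ℕ} (hd : 2 ≤ d) {F : Fin n → MvPolynomial (Fin n) R}
    (hF : ∀ i, (F i).IsHomogeneous d) {w : Fin n → A} {B Λ : ℝ} (hB : 1 ≤ B) (hΛ : 1 ≤ Λ)
    (hΛF : ∀ i, mv N (F i) ≤ Λ) (h1 : ∀ i, Bd N b (w i) B) (k : ℕ) (i : Fin n) :
    Bd N b (itw F w k i) ((Λ * B) ^ d ^ k / Λ) := by
  have hΛ0 : 0 < Λ := by linarith
  have hΛB : 0 ≤ Λ * B := by positivity
  induction k generalizing i with
  | zero =>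
    rw [itw, pow_zero, pow_one, mul_div_cancel_left₀ _ hΛ0.ne']
    exact h1 i
  | succ k ih =>
    have h2 : 0 ≤ (Λ * B) ^ d ^ k / Λ := by positivity
    refine bd_mono (bd_aeval h (hF i) h2 ih) ?_
    have h3 : mv N (F i) * ((Λ * B) ^ d ^ k / Λ) ^ d ≤ Λ * ((Λ * B) ^ d ^ k / Λ) ^ d :=
      mul_le_mul_of_nonneg_right (hΛF i) (pow_nonneg h2 _)
    refine h3.trans ?_
    rw [div_pow, ← pow_mul, ← pow_succ, mul_div_assoc', div_le_div_iff₀ (by positivity) hΛ0]
    have h4 : Λ * Λ ≤ Λ ^ d := by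
      rw [← pow_two]
      exact pow_le_pow_right₀ hΛ hd
    calc Λ * (Λ * B) ^ d ^ (k + 1) * Λ = (Λ * B) ^ d ^ (k + 1) * (Λ * Λ) := by ring
      _ ≤ (Λ * B) ^ d ^ (k + 1) * Λ ^ d :=
        mul_le_mul_of_nonneg_left h4 (by positivity)

/-- The norm polynomial does not vanish. -/
lemma det_ne [IsDomain P] [IsDomain A] {w : A} {m : Matrix (Fin δ) (Fin δ) P}
    (hb : ∀ v : Fin δ → P, ∑ s, v s • b s = 0 → v = 0) (hw : w ≠ 0) (hm : Rep b w m) :
    m.det ≠ 0 := by
  classical
  intro h0
  obtain ⟨v, hv, h1⟩ := Matrix.exists_vecMul_eq_zero_iff.2 h0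
  apply hv
  apply hb
  have h2 : w * ∑ s, v s • b s = 0 := by
    rw [Finset.mul_sum]
    have h3 : ∀ s, w * v s • b s = ∑ t, (v s * m s t) • b t := by
      intro s
      rw [mul_smul_comm, hm s, Finset.smul_sum]
      refine Finset.sum_congr rfl fun t _ => ?_
      rw [mul_smul]
    rw [Finset.sum_congr rfl fun s _ => h3 s, Finset.sum_comm]
    refine Finset.sum_eq_zero fun t _ => ?_
    rw [← Finset.sum_smul]
    have h4 : ∑ s, v s * m s t = 0 := congrFun h1 t
    rw [h4, zero_smul]
  exact (mul_eq_zero.1 h2).resolve_left hw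

/-- At a point where `w` vanishes the norm polynomial vanishes. -/
lemma det_eval {K : Type} [Field K] {w : A} {m : Matrix (Fin δ) (Fin δ) P} (hm : Rep b w m)
    (θ : A →+* K) (hw : θ w = 0) (s0 : Fin δ) (h0 : θ (b s0) ≠ 0) :
    θ (algebraMap P A m.det) = 0 := by
  classical
  have h1 : (((θ.comp (algebraMap P A)).mapMatrix m)).det = 0 := by
    apply Matrix.exists_mulVec_eq_zero_iff.1
    refine ⟨fun s => θ (b s), fun h => h0 (congrFun h s0), ?_⟩
    funext s
    have h2 := congrArg θ (hm s)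
    rw [map_mul, hw, zero_mul, map_sum] at h2
    refine Eq.trans ?_ h2.symm
    simp only [Matrix.mulVec, dotProduct]
    refine Finset.sum_congr rfl fun t _ => ?_
    rw [Algebra.smul_def, map_mul]
    rfl
  rw [← RingHom.map_det] at h1
  exact h1

end rep

end Pool.Agent.Q170.HG
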