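import Pool.Agent.Q170.HG.Aff

set_option autoImplicit false

/-!
# Compositions of systems of forms: the height of the points of a curve in the preimage of a hypersurface
-/

namespace Pool.Agent.Q170.HG

open Polynomial Height NumberField

section size

variable {R P A ι : Type} [CommRing R] [CommRing P] [CommRing A] [Algebra R P] [Algebra P A]
  [Algebra R A] [IsScalarTower R P A] {δ n : ℕ} {N : P → ℝ} {b : Fin δ → A}

/-- The composition of the systems of polynomials `F (v 0)`, `F (v 1)`, …, `F (v (k - 1))`. -/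
noncomputable def itv {R A ι : Type} [CommRing R] [CommRing A] [Algebra R A] {n : ℕ}
    (F : ι → Fin n → MvPolynomial (Fin n) R) (v : ℕ → ι) (w : Fin n → A) : ℕ → Fin n → A
  | 0 => w
  | k + 1 => fun i => MvPolynomial.aeval (itv F v w k) (F (v k) i)

lemma bd_itv (h : IsNm N) {d : ℕ} (hd : 2 ≤ d) {F : ι → Fin n → MvPolynomial (Fin n) R}
    (hF : ∀ c i, (F c i).IsHomogeneous d) {w : Fin n → A} {B Λ : ℝ} (hB : 1 ≤ B) (hΛ : 1 ≤ Λ)
    (hΛF : ∀ c i, mv N (F c i) ≤ Λ) (h1 : ∀ i, Bd N b (w i) B) (v : ℕ → ι) (k : ℕ) (i : Fin n) :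
    Bd N b (itv F v w k i) ((Λ * B) ^ d ^ k / Λ) := by
  have hΛ0 : 0 < Λ := by linarith
  have hΛB : 0 ≤ Λ * B := by positivity
  induction k generalizing i with
  | zero =>
    rw [itv, pow_zero, pow_one, mul_div_cancel_left₀ _ hΛ0.ne']
    exact h1 i
  | succ k ih =>
    have h2 : 0 ≤ (Λ * B) ^ d ^ k / Λ := by positivity
    refine bd_mono (bd_aeval h (hF (v k) i) h2 ih) ?_
    have h3 : mv N (F (v k) i) * ((Λ * B) ^ d ^ k / Λ) ^ d ≤ Λ * ((Λ * B) ^ d ^ k / Λ) ^ d :=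
      mul_le_mul_of_nonneg_right (hΛF (v k) i) (pow_nonneg h2 _)
    refine h3.trans ?_
    rw [div_pow, ← pow_mul, ← pow_succ, mul_div_assoc', div_le_div_iff₀ (by positivity) hΛ0]
    have h4 : Λ * Λ ≤ Λ ^ d := by
      rw [← pow_two]
      exact pow_le_pow_right₀ hΛ hd
    calc Λ * (Λ * B) ^ d ^ (k + 1) * Λ = (Λ * B) ^ d ^ (k + 1) * (Λ * Λ) := by ring
      _ ≤ (Λ * B) ^ d ^ (k + 1) * Λ ^ d :=
        mul_le_mul_of_nonneg_left h4 (by positivity)

end size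

section itv

variable {R A B ι : Type} [CommRing R] [CommRing A] [Algebra R A] [CommRing B] [Algebra R B] {n d : ℕ}

lemma itv_map (φ : A →ₐ[R] B) (F : ι → Fin n → MvPolynomial (Fin n) R) (v : ℕ → ι) (w : Fin n → A)
    (k : ℕ) (i : Fin n) : φ (itv F v w k i) = itv F v (fun j => φ (w j)) k i := by
  induction k generalizing i with
  | zero => rfl
  | succ k ih =>
    rw [itv, itv, MvPolynomial.comp_aeval_apply]
    congr 2
    funext j
    exact ih j

lemma itv_hom {F : ι → Fin n → MvPolynomial (Fin n) R} (hF : ∀ c i, (F c i).IsHomogeneous d)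
    (v : ℕ → ι) (c : A) (w : Fin n → A) (k : ℕ) (i : Fin n) :
    itv F v (fun j => c * w j) k i = c ^ d ^ k * itv F v w k i := by
  induction k generalizing i with
  | zero => rw [pow_zero, pow_one]; rfl
  | succ k ih =>
    change MvPolynomial.aeval (itv F v (fun j => c * w j) k) (F (v k) i) =
      c ^ d ^ (k + 1) * MvPolynomial.aeval (itv F v w k) (F (v k) i)
    have h1 : itv F v (fun j => c * w j) k = fun j => c ^ d ^ k * itv F v w k j := funext ih
    rw [h1, aeval_hom (hF (v k) i), ← pow_mul, ← pow_succ]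

end itv

section coord

variable {K ι : Type} [Field K] [NumberField K] [Fintype ι] {n d : ℕ}

/-- One coordinate, one form. -/
theorem coord_oneW {A : Type} [CommRing A] [IsDomain A] [Algebra (𝓞 K) A] (hd : 2 ≤ d)
    {F : ι → Fin n → MvPolynomial (Fin n) (𝓞 K)} (hF : ∀ c i, (F c i).IsHomogeneous d)
    (u : Fin n → A) (y : A) (hy : Function.Injective (aeval y : (𝓞 K)[X] →ₐ[𝓞 K] A))
    (hu : ∀ i, ∃ q : (𝓞 K)[X][X], q ≠ 0 ∧
      q.eval₂ ((aeval y : (𝓞 K)[X] →ₐ[𝓞 K] A) : (𝓞 K)[X] →+* A) (u i) = 0) :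
    ∃ g : A, g ≠ 0 ∧ ∀ (e : ℕ) (G : MvPolynomial (Fin n) (𝓞 K)), G.IsHomogeneous e →
      ∃ C : ℝ, 1 ≤ C ∧ ∀ (v : ℕ → ι) k, MvPolynomial.aeval (itv F v u k) G ≠ 0 →
        ∀ θ : A →ₐ[𝓞 K] K, θ g ≠ 0 →
          MvPolynomial.aeval (itv F v (fun i => θ (u i)) k) G = 0 → mulHeight₁ (θ y) ≤ C ^ d ^ k := by
  classical
  letI : Algebra (𝓞 K)[X] A := ((aeval y : (𝓞 K)[X] →ₐ[𝓞 K] A) : (𝓞 K)[X] →+* A).toAlgebra
  have hmap : ∀ p : (𝓞 K)[X], algebraMap (𝓞 K)[X] A p = aeval y p := fun p => rfl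
  have : IsScalarTower (𝓞 K) (𝓞 K)[X] A := IsScalarTower.of_algebraMap_eq fun r => by
    rw [hmap, Polynomial.algebraMap_apply, aeval_C, Algebra.algebraMap_self_apply]
  have hN := isNm_l1 (isNm_hs (K := K))
  obtain ⟨δ, b, s0, c, Ξ, hb0, hc0, hlin, hrel⟩ := exists_rep (P := (𝓞 K)[X]) (A := A) hy u
    fun i => by
      obtain ⟨q, hq, h⟩ := hu i
      exact ⟨q, hq, h⟩
  refine ⟨b s0, hb0, fun e G hG => ?_⟩
  set w : Fin n → A := fun i => algebraMap (𝓞 K)[X] A c * u i with hw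
  have hrep : ∀ i, Rep b (w i) (Ξ i) := by
    intro i s
    rw [← hrel i s, Algebra.smul_def, hw]
    ring
  set B : ℝ := 1 + ∑ i, ∑ s, ∑ t, l1 (hs (K := K)) (Ξ i s t) with hB
  have hBbd : ∀ i, Bd (l1 (hs (K := K))) b (w i) B := by
    intro i
    refine ⟨Ξ i, hrep i, fun s => ?_⟩
    have h1 : ∑ t, l1 (hs (K := K)) (Ξ i s t) ≤ ∑ s, ∑ t, l1 (hs (K := K)) (Ξ i s t) :=
      Finset.single_le_sum (f := fun s => ∑ t, l1 (hs (K := K)) (Ξ i s t))
        (fun s _ => Finset.sum_nonneg fun t _ => hN.nonneg _) (Finset.mem_univ s)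
    have h2 : ∑ s, ∑ t, l1 (hs (K := K)) (Ξ i s t) ≤ ∑ i, ∑ s, ∑ t, l1 (hs (K := K)) (Ξ i s t) :=
      Finset.single_le_sum (f := fun i => ∑ s, ∑ t, l1 (hs (K := K)) (Ξ i s t))
        (fun i _ => Finset.sum_nonneg fun s _ => Finset.sum_nonneg fun t _ => hN.nonneg _)
        (Finset.mem_univ i)
    linarith
  have hB1 : 1 ≤ B := by
    have : 0 ≤ ∑ i, ∑ s, ∑ t, l1 (hs (K := K)) (Ξ i s t) :=
      Finset.sum_nonneg fun i _ => Finset.sum_nonneg fun s _ =>
        Finset.sum_nonneg fun t _ => hN.nonneg _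
    linarith
  set Λ : ℝ := 1 + ∑ c : ι, ∑ i, mv (l1 (hs (K := K))) (F c i) with hΛ
  have hΛ1 : 1 ≤ Λ := by
    have : 0 ≤ ∑ c : ι, ∑ i, mv (l1 (hs (K := K))) (F c i) :=
      Finset.sum_nonneg fun c _ => Finset.sum_nonneg fun i _ => mv_nonneg hN _
    linarith
  have hΛF : ∀ (c : ι) i, mv (l1 (hs (K := K))) (F c i) ≤ Λ := by
    intro c i
    have h1 := Finset.single_le_sum (f := fun i => mv (l1 (hs (K := K))) (F c i))
      (fun i _ => mv_nonneg hN _) (Finset.mem_univ i)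
    have h2 := Finset.single_le_sum (f := fun c : ι => ∑ i, mv (l1 (hs (K := K))) (F c i))
      (fun c _ => Finset.sum_nonneg fun i _ => mv_nonneg hN _) (Finset.mem_univ c)
    linarith
  set g1 : ℝ := 1 + mv (l1 (hs (K := K))) G with hg1
  have hg11 : 1 ≤ g1 := by
    have := mv_nonneg hN G
    linarith
  set C1 : ℝ := g1 * (Λ * B) ^ e with hC1
  have hΛB : 1 ≤ Λ * B := one_le_mul_of_one_le_of_one_le hΛ1 hB1
  have hC11 : 1 ≤ C1 := one_le_mul_of_one_le_of_one_le hg11 (one_le_pow₀ hΛB)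
  set C2 : ℝ := δ.factorial * C1 ^ δ with hC2
  have hfac : (1 : ℝ) ≤ δ.factorial := by exact_mod_cast Nat.factorial_pos δ
  have hC21 : 1 ≤ C2 := one_le_mul_of_one_le_of_one_le hfac (one_le_pow₀ hC11)
  refine ⟨C2 ^ Module.finrank ℚ K, one_le_pow₀ hC21, fun v k hne θ hθ h0 => ?_⟩
  have hdk : 1 ≤ d ^ k := Nat.one_le_pow _ _ (by omega)
  have hpos : 0 < Λ * B := by linarith
  have hbd1 := bd_itv hN hd hF hB1 hΛ1 hΛF hBbd v k
  have hbd2 := bd_aeval hN hG (by positivity) hbd1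
  obtain ⟨m, hm, hm'⟩ := hbd2
  have hE : mv (l1 (hs (K := K))) G * ((Λ * B) ^ d ^ k / Λ) ^ e ≤ C1 ^ d ^ k := by
    have h1 : (Λ * B) ^ d ^ k / Λ ≤ (Λ * B) ^ d ^ k := div_le_self (by positivity) hΛ1
    have h2 : mv (l1 (hs (K := K))) G ≤ g1 ^ d ^ k := by
      refine le_trans (by linarith) (le_self_pow₀ hg11 (by omega : d ^ k ≠ 0))
    calc _ ≤ g1 ^ d ^ k * ((Λ * B) ^ d ^ k) ^ e := by
          refine mul_le_mul h2 (pow_le_pow_left₀ (by positivity) h1 _) (by positivity)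
            (by positivity)
      _ = C1 ^ d ^ k := by
          rw [hC1, mul_pow g1, ← pow_mul (Λ * B), ← pow_mul (Λ * B), mul_comm e]
  have hent : ∀ s t, l1 (hs (K := K)) (m s t) ≤ C1 ^ d ^ k := by
    intro s t
    refine le_trans ?_ ((hm' s).trans hE)
    exact Finset.single_le_sum (f := fun t => l1 (hs (K := K)) (m s t))
      (fun t _ => hN.nonneg _) (Finset.mem_univ t)
  have hdet := hN.det m hent
  have hdet2 : l1 (hs (K := K)) m.det ≤ C2 ^ d ^ k := by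
    refine hdet.trans ?_
    clear_value C1
    rw [hC2, mul_pow, ← pow_mul, ← pow_mul, mul_comm δ]
    exact mul_le_mul_of_nonneg_right (le_self_pow₀ hfac (by omega : d ^ k ≠ 0)) (by positivity)
  have hc1 : algebraMap (𝓞 K)[X] A c ≠ 0 := fun h => hc0 (hy (by
    rw [map_zero]
    exact h))
  have hval : ∀ {A' : Type} [CommRing A'] [Algebra (𝓞 K) A'] (c' : A') (y' : Fin n → A'),
      MvPolynomial.aeval (itv F v (fun i => c' * y' i) k) G =
        (c' ^ d ^ k) ^ e * MvPolynomial.aeval (itv F v y' k) G := by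
    intro A' _ _ c' y'
    have h1 : itv F v (fun i => c' * y' i) k = fun j => c' ^ d ^ k * itv F v y' k j :=
      funext (itv_hom hF v c' y' k)
    rw [h1, aeval_hom hG]
  have hne' : MvPolynomial.aeval (itv F v w k) G ≠ 0 := by
    rw [hw, hval]
    exact mul_ne_zero (pow_ne_zero _ (pow_ne_zero _ hc1)) hne
  have hdet0 : m.det ≠ 0 := det_ne hlin hne' hm
  have hθ0 : (θ : A →+* K) (MvPolynomial.aeval (itv F v w k) G) = 0 := by
    change θ (MvPolynomial.aeval (itv F v w k) G) = 0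
    rw [MvPolynomial.comp_aeval_apply]
    have h1 : (fun i => θ (itv F v w k i)) =
        itv F v (fun i => θ (algebraMap (𝓞 K)[X] A c) * θ (u i)) k := by
      funext i
      rw [itv_map]
      congr 1
      funext j
      rw [hw, map_mul]
    rw [h1, hval, h0, mul_zero]
  have hev := det_eval hm (θ : A →+* K) hθ0 s0 hθ
  have hev2 : aeval (θ y) m.det = 0 := by
    have h1 := Polynomial.aeval_algHom_apply θ y m.det
    rw [h1]
    exact hev
  obtain ⟨hr1, hr2⟩ := root_bound hdet0 hev2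
  refine hr2.trans ?_
  rw [← pow_mul, mul_comm (Module.finrank ℚ K), pow_mul]
  exact pow_le_pow_left₀ (by linarith) hdet2 _

end coord

section aff

variable {K ι : Type} [Field K] [NumberField K] [Fintype ι] {n d : ℕ}

/-- One coordinate, one form, all cases. -/
lemma coord_allW {A : Type} [CommRing A] [IsDomain A] [Algebra (𝓞 K) A] (hd : 2 ≤ d)
    {F : ι → Fin n → MvPolynomial (Fin n) (𝓞 K)} (hF : ∀ c i, (F c i).IsHomogeneous d)
    (u : Fin n → A) (Z : Set (Fin n → K)) (θ : Z → (A →ₐ[𝓞 K] K))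
    (hθ : ∀ x i, θ x (u i) = x.1 i) (hinj : ∀ a, (∀ x, θ x a = 0) → a = 0)
    (hQ : ∀ i j, ∃ Q : Polynomial (Polynomial K), Q ≠ 0 ∧ ∀ x ∈ Z, Q.evalEval (x j) (x i) = 0)
    (j : Fin n) :
    ∃ g : A, g ≠ 0 ∧ ∀ (e : ℕ) (G : MvPolynomial (Fin n) (𝓞 K)), G.IsHomogeneous e →
      ∃ C : ℝ, 1 ≤ C ∧ ∀ (v : ℕ → ι) k, MvPolynomial.aeval (itv F v u k) G ≠ 0 →
        ∀ x : Z, θ x g ≠ 0 → MvPolynomial.aeval (itv F v x.1 k) G = 0 →
          mulHeight₁ (x.1 j) ≤ C ^ d ^ k := by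
  classical
  by_cases hy : Function.Injective
      (Polynomial.aeval (u j) : Polynomial (𝓞 K) →ₐ[𝓞 K] A)
  · have hu : ∀ i, ∃ q : Polynomial (Polynomial (𝓞 K)), q ≠ 0 ∧
        q.eval₂ ((Polynomial.aeval (u j) : Polynomial (𝓞 K) →ₐ[𝓞 K] A) :
          Polynomial (𝓞 K) →+* A) (u i) = 0 := by
      intro i
      obtain ⟨Q, hQ0, hQ1⟩ := hQ i j
      obtain ⟨b, hb, q, hq⟩ := ls_poly (ls_map (ls_frac (R := 𝓞 K) (K := K))) Q
      have hinjm : Function.Injective (Polynomial.mapRingHom (algebraMap (𝓞 K) K)) :=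
        Polynomial.map_injective _ (FaithfulSMul.algebraMap_injective (𝓞 K) K)
      refine ⟨q, ?_, ?_⟩
      · rintro rfl
        rw [Polynomial.map_zero] at hq
        rcases mul_eq_zero.1 hq.symm with h | h
        · rw [Polynomial.C_eq_zero] at h
          exact hb (hinjm (by rw [h, map_zero]))
        · exact hQ0 h
      · apply hinj
        intro x
        have h1 : θ x (q.eval₂ ((Polynomial.aeval (u j) : Polynomial (𝓞 K) →ₐ[𝓞 K] A) :
            Polynomial (𝓞 K) →+* A) (u i)) = (q.map (Polynomial.mapRingHom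
              (algebraMap (𝓞 K) K))).evalEval (x.1 j) (x.1 i) := by
          have h2 := Polynomial.hom_eval₂ q
            ((Polynomial.aeval (u j) : Polynomial (𝓞 K) →ₐ[𝓞 K] A) : Polynomial (𝓞 K) →+* A)
            (θ x : A →+* K) (u i)
          have h3 : ((θ x : A →+* K).comp
              ((Polynomial.aeval (u j) : Polynomial (𝓞 K) →ₐ[𝓞 K] A) : Polynomial (𝓞 K) →+* A))
              = (Polynomial.evalRingHom (x.1 j)).comp
                (Polynomial.mapRingHom (algebraMap (𝓞 K) K)) := by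
            refine Polynomial.ringHom_ext (fun a => ?_) ?_
            · simp
            · simp [hθ]
          rw [h3] at h2
          refine h2.trans ?_
          rw [← Polynomial.eval₂_map, ← Polynomial.eval₂_evalRingHom]
          congr 1
          exact hθ x i
        rw [h1, hq, Polynomial.evalEval_mul, hQ1 x.1 x.2, mul_zero]
    obtain ⟨g, hg, h⟩ := coord_oneW hd hF u (u j) hy hu
    refine ⟨g, hg, fun e G hG => ?_⟩
    obtain ⟨C, hC, hC'⟩ := h e G hG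
    refine ⟨C, hC, fun v k hk x hx h0 => ?_⟩
    have h1 := hC' v k hk (θ x) hx (by
      have h2 : (fun i => θ x (u i)) = x.1 := funext (hθ x)
      rw [h2]
      exact h0)
    rwa [hθ] at h1
  · refine ⟨1, one_ne_zero, fun e G hG => ?_⟩
    have h1 : ∃ p : Polynomial (𝓞 K), p ≠ 0 ∧ Polynomial.aeval (u j) p = 0 := by
      rw [injective_iff_map_eq_zero] at hy
      push Not at hy
      obtain ⟨p, hp, hp'⟩ := hy
      exact ⟨p, hp', hp⟩
    obtain ⟨p, hp, hp'⟩ := h1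
    refine ⟨max 1 (l1 (hs (K := K)) p ^ Module.finrank ℚ K), le_max_left _ _,
      fun v k _ x _ _ => ?_⟩
    have h2 : Polynomial.aeval (x.1 j) p = 0 := by
      rw [← hθ x j, Polynomial.aeval_algHom_apply (θ x), hp', map_zero]
    refine (root_bound hp h2).2.trans ((le_max_right 1 _).trans ?_)
    exact le_self_pow₀ (le_max_left _ _) (pow_pos (by omega : 0 < d) k).ne'

lemma aeval_itv_map {A B : Type} [CommRing A] [Algebra (𝓞 K) A] [CommRing B] [Algebra (𝓞 K) B]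
    (φ : A →ₐ[𝓞 K] B) (F : ι → Fin n → MvPolynomial (Fin n) (𝓞 K)) (v : ℕ → ι)
    (w : Fin n → A) (k : ℕ)
    (G : MvPolynomial (Fin n) (𝓞 K)) : φ (MvPolynomial.aeval (itv F v w k) G) =
      MvPolynomial.aeval (itv F v (fun j => φ (w j)) k) G := by
  rw [MvPolynomial.comp_aeval_apply]
  congr 2
  funext j
  exact itv_map φ F v w k j

/-- All coordinates and several forms. -/
lemma aff_absW {A : Type} [CommRing A] [IsDomain A] [Algebra (𝓞 K) A] (hd : 2 ≤ d)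
    {F : ι → Fin n → MvPolynomial (Fin n) (𝓞 K)} (hF : ∀ c i, (F c i).IsHomogeneous d)
    (u : Fin n → A) (Z : Set (Fin n → K)) (θ : Z → (A →ₐ[𝓞 K] K))
    (hθ : ∀ x i, θ x (u i) = x.1 i) (hinj : ∀ a, (∀ x, θ x a = 0) → a = 0)
    (hQ : ∀ i j, ∃ Q : Polynomial (Polynomial K), Q ≠ 0 ∧ ∀ x ∈ Z, Q.evalEval (x j) (x i) = 0)
    (T : Finset (MvPolynomial (Fin n) (𝓞 K))) (hT : ∀ G ∈ T, ∃ e, G.IsHomogeneous e) :
    ∃ g : A, g ≠ 0 ∧ ∃ C : ℝ, 1 ≤ C ∧ ∀ G ∈ T, ∀ (v : ℕ → ι) k, (∃ y ∈ Z, MvPolynomial.aeval (itv F v y k) G ≠ 0) →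
        ∀ x : Z, θ x g ≠ 0 → MvPolynomial.aeval (itv F v x.1 k) G = 0 →
          mulHeight x.1 ≤ C ^ d ^ k := by
  classical
  choose g hg h using coord_allW hd hF u Z θ hθ hinj hQ
  choose e he using hT
  have h' : ∀ (j : Fin n) (G : T), ∃ C : ℝ, 1 ≤ C ∧ ∀ (v : ℕ → ι) k, MvPolynomial.aeval (itv F v u k) G.1 ≠ 0 →
        ∀ x : Z, θ x (g j) ≠ 0 → MvPolynomial.aeval (itv F v x.1 k) G.1 = 0 →
          mulHeight₁ (x.1 j) ≤ C ^ d ^ k := fun j G => h j (e G.1 G.2) G.1 (he G.1 G.2)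
  choose C hC hC' using h'
  refine ⟨∏ j, g j, Finset.prod_ne_zero_iff.2 fun j _ => hg j, ∏ j, ∏ G, C j G, ?_, ?_⟩
  · exact one_le_prodR _ fun j => one_le_prodR _ fun G => hC j G
  · intro G hG v k hy x hx h0
    have h1 : MvPolynomial.aeval (itv F v u k) G ≠ 0 := by
      obtain ⟨y, hy, hy'⟩ := hy
      intro h2
      apply hy'
      have h3 := aeval_itv_map (θ ⟨y, hy⟩) F v u k G
      rw [h2, map_zero] at h3
      have h4 : (fun i => θ ⟨y, hy⟩ (u i)) = y := funext (hθ ⟨y, hy⟩)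
      rw [h4] at h3
      exact h3.symm
    rw [map_prod, Finset.prod_ne_zero_iff] at hx
    refine (mulHeight_le_prod x.1).trans ?_
    rw [← Finset.prod_pow]
    refine Finset.prod_le_prod (fun j _ => (mulHeight₁_pos _).le) fun j _ => ?_
    refine (hC' j ⟨G, hG⟩ v k h1 x (hx j (Finset.mem_univ j)) h0).trans ?_
    refine pow_le_pow_left₀ (by linarith [hC j ⟨G, hG⟩]) ?_ _
    rw [← Finset.mul_prod_erase Finset.univ (C j) (Finset.mem_univ (⟨G, hG⟩ : T))]
    exact le_mul_of_one_le_right (by linarith [hC j ⟨G, hG⟩])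
      (one_le_prodR _ fun G => hC j G)

/-- The affine step. -/
theorem affineW (hd : 2 ≤ d)
    {F : ι → Fin n → MvPolynomial (Fin n) (𝓞 K)} (hF : ∀ c i, (F c i).IsHomogeneous d)
    {Z : Set (Fin n → K)} (hne : Z.Nonempty)
    (hp : ∀ f g : MvPolynomial (Fin n) K, (∀ x ∈ Z, MvPolynomial.eval x (f * g) = 0) →
      (∀ x ∈ Z, MvPolynomial.eval x f = 0) ∨ ∀ x ∈ Z, MvPolynomial.eval x g = 0)
    (hQ : ∀ i j, ∃ Q : Polynomial (Polynomial K), Q ≠ 0 ∧ ∀ x ∈ Z, Q.evalEval (x j) (x i) = 0)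
    (T : Finset (MvPolynomial (Fin n) (𝓞 K))) (hT : ∀ G ∈ T, ∃ e, G.IsHomogeneous e) :
    ∃ g : MvPolynomial (Fin n) K, (∃ x ∈ Z, MvPolynomial.eval x g ≠ 0) ∧ ∃ C : ℝ, 1 ≤ C ∧
      ∀ G ∈ T, ∀ (v : ℕ → ι) k, (∃ y ∈ Z, MvPolynomial.aeval (itv F v y k) G ≠ 0) →
        ∀ x ∈ Z, MvPolynomial.eval x g ≠ 0 → MvPolynomial.aeval (itv F v x k) G = 0 →
          mulHeight x ≤ C ^ d ^ k := by
  classical
  set I : Ideal (MvPolynomial (Fin n) K) := MvPolynomial.vanishingIdeal K Z with hI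
  have hmem : ∀ f : MvPolynomial (Fin n) K, f ∈ I ↔ ∀ x ∈ Z, MvPolynomial.eval x f = 0 := by
    intro f
    rw [hI, MvPolynomial.mem_vanishingIdeal_iff]
    rfl
  have hprime : I.IsPrime := by
    refine ⟨fun h => ?_, fun {f g} h => ?_⟩
    · obtain ⟨x, hx⟩ := hne
      have h1 := (hmem 1).1 (by rw [h]; trivial) x hx
      rw [map_one] at h1
      exact one_ne_zero h1
    · rw [hmem, hmem]
      exact hp f g ((hmem _).1 h)
  let θ : Z → (MvPolynomial (Fin n) K ⧸ I →ₐ[𝓞 K] K) := fun x =>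
    (Ideal.Quotient.liftₐ I (MvPolynomial.aeval x.1) (fun f hf => (hmem f).1 hf x.1 x.2)
      : MvPolynomial (Fin n) K ⧸ I →ₐ[K] K).restrictScalars (𝓞 K)
  have hθ1 : ∀ (x : Z) (f : MvPolynomial (Fin n) K),
      θ x (Ideal.Quotient.mk I f) = MvPolynomial.eval x.1 f := fun x f => rfl
  obtain ⟨g, hg, C, hC, h⟩ := aff_absW (A := MvPolynomial (Fin n) K ⧸ I) hd hF
    (fun i => Ideal.Quotient.mk I (MvPolynomial.X i)) Z θ
    (fun x i => by rw [hθ1, MvPolynomial.eval_X])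
    (fun a ha => by
      obtain ⟨f, rfl⟩ := Ideal.Quotient.mk_surjective a
      rw [Ideal.Quotient.eq_zero_iff_mem, hmem]
      intro x hx
      exact (hθ1 ⟨x, hx⟩ f).symm.trans (ha ⟨x, hx⟩)) hQ T hT
  obtain ⟨g, rfl⟩ := Ideal.Quotient.mk_surjective g
  refine ⟨g, ?_, C, hC, fun G hG v k hy x hx hgx h0 => ?_⟩
  · by_contra hcon
    push Not at hcon
    exact hg (Ideal.Quotient.eq_zero_iff_mem.2 ((hmem g).2 hcon))
  · exact h G hG v k hy ⟨x, hx⟩ (by rw [hθ1]; exact hgx) h0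

end aff

end Pool.Agent.Q170.HG
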